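import Pool.Agent.AEV.Cob
import Pool.Agent.AET.Dens

/-!
# Countable dense classes
-/

set_option autoImplicit false

open MeasureTheory Set Filter Topology Finset

namespace Pool.AEV

variable {k : ℕ} {Ω : Type*} [MeasurableSpace Ω] {μ : Measure Ω} {φ : Vec k → Ω → Ω}

/-! ### General facts on `L²` -/

/-- A countable algebra of sets which generates. -/
private theorem dens_alg (Ω : Type*) [m : MeasurableSpace Ω] [MeasurableSpace.CountablyGenerated Ω] :
    ∃ A : Set (Set Ω), A.Countable ∧ IsSetAlgebra A ∧ m = MeasurableSpace.generateFrom A := by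
  obtain ⟨b, hb, hm⟩ := MeasurableSpace.CountablyGenerated.isCountablyGenerated (α := Ω)
  refine ⟨generateSetAlgebra b, countable_generateSetAlgebra hb, isSetAlgebra_generateSetAlgebra, ?_⟩
  rw [generateFrom_generateSetAlgebra_eq, hm]

omit [MeasurableSpace Ω] in
/-- An integrable function whose integral over the sets of a generating algebra is zero. -/
private theorem dens_zero {m : MeasurableSpace Ω} {μ : Measure Ω} [IsFiniteMeasure μ]
    {A : Set (Set Ω)} (hA : IsSetAlgebra A)
    (hm : m = MeasurableSpace.generateFrom A) {w : Ω → ℝ} (hw : Integrable w μ)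
    (h0 : ∀ s ∈ A, ∫ x in s, w x ∂μ = 0) : w =ᵐ[μ] 0 := by
  have hall : ∀ s, MeasurableSet s → ∫ x in s, w x ∂μ = 0 := by
    refine MeasurableSpace.induction_on_inter hm ?_ ?_ ?_ ?_ ?_
    · intro s hs t ht _
      exact hA.inter_mem hs ht
    · simp
    · intro t ht
      exact h0 t ht
    · intro t htm ht
      have h1 := integral_add_compl htm hw
      have h2 := h0 univ hA.univ_mem
      rw [setIntegral_univ] at h2
      linarith
    · intro f hd hf h1
      rw [integral_iUnion hf hd hw.integrableOn]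
      simp [h1]
  exact Integrable.ae_eq_zero_of_forall_setIntegral_eq_zero hw (fun s hs _ => hall s hs)

private theorem dens_memLp_bd [IsFiniteMeasure μ] {c : Ω → ℝ} (hc : Measurable c) (C : ℝ)
    (hb : ∀ x, |c x| ≤ C) : MemLp c 2 μ :=
  MemLp.of_bound hc.aestronglyMeasurable C (Eventually.of_forall fun x => by simpa using hb x)

/-- Orthogonal decomposition along the closed span of a set of bounded functions. -/
private theorem dens_orth [IsProbabilityMeasure μ] (H : Set (Ω → ℝ))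
    (hH : ∀ c ∈ H, Measurable c ∧ ∀ x, |c x| ≤ 1) (f : Ω → ℝ) (hf : MemLp f 2 μ) (ε : ℝ)
    (hε : 0 < ε) :
    ∃ (n : ℕ) (r : Fin n → ℝ) (c : Fin n → Ω → ℝ) (g : Ω → ℝ),
      (∀ i, c i ∈ H) ∧ Measurable g ∧ MemLp g 2 μ ∧ (∀ c ∈ H, ∫ x, g x * c x ∂μ = 0) ∧
      ∫ x, (f x - ∑ i, r i * c i x - g x) ^ 2 ∂μ ≤ ε := by
  set S : Set (Lp ℝ 2 μ) := {F | ∃ c ∈ H, F =ᵐ[μ] c} with hS
  set V : Submodule ℝ (Lp ℝ 2 μ) := Submodule.span ℝ S with hV
  set W : Submodule ℝ (Lp ℝ 2 μ) := V.topologicalClosure with hW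
  have : CompleteSpace W := (Submodule.isClosed_topologicalClosure V).completeSpace_coe
  set F : Lp ℝ 2 μ := hf.toLp f with hF
  obtain ⟨P, hP, G, hG, hPG⟩ := Submodule.exists_add_mem_mem_orthogonal (K := W) F
  have hP' : P ∈ closure (V : Set (Lp ℝ 2 μ)) := hP
  obtain ⟨Q, hQ, hPQ⟩ := Metric.mem_closure_iff.1 hP' (Real.sqrt ε) (Real.sqrt_pos.2 hε)
  obtain ⟨n, r, s, hs⟩ := (Submodule.mem_span_set' (R := ℝ)).1 hQ
  choose c hcH hc using fun i => (s i).2
  refine ⟨n, r, c, G, hcH, (Lp.stronglyMeasurable G).measurable, Lp.memLp G, ?_, ?_⟩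
  · intro k hk
    have hkm : MemLp k 2 μ := dens_memLp_bd (hH k hk).1 1 (hH k hk).2
    have h1 : hkm.toLp k ∈ W := by
      refine V.le_topologicalClosure (Submodule.subset_span ?_)
      exact ⟨k, hk, hkm.coeFn_toLp⟩
    have h2 := (Submodule.mem_orthogonal' W G).1 hG _ h1
    rw [L2.inner_def] at h2
    rw [← h2]
    refine integral_congr_ae ?_
    filter_upwards [hkm.coeFn_toLp] with x hx
    rw [hx]
    simp [mul_comm]
  · have h1 : ‖P - Q‖ ^ 2 = ∫ x, (f x - ∑ i, r i * c i x - G x) ^ 2 ∂μ := by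
      rw [← real_inner_self_eq_norm_sq, L2.inner_def]
      refine integral_congr_ae ?_
      have e1 : P - Q = F - Q - G := by rw [hPG]; abel
      have e2 : (Q : Ω → ℝ) =ᵐ[μ] fun x => ∑ i, r i * c i x := by
        rw [← hs]
        have a1 : ((∑ i, r i • (s i : Lp ℝ 2 μ) : Lp ℝ 2 μ) : Ω → ℝ) =ᵐ[μ]
            fun x => ∑ i, (r i • (s i : Lp ℝ 2 μ) : Lp ℝ 2 μ) x := by
          have := Lp.coeFn_finsetSum (p := (2 : ENNReal)) (μ := μ) Finset.univ
            (fun i => (r i • (s i : Lp ℝ 2 μ) : Lp ℝ 2 μ))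
          filter_upwards [this] with x hx
          rw [hx]
          simp
        have a2 : ∀ i, ((r i • (s i : Lp ℝ 2 μ) : Lp ℝ 2 μ) : Ω → ℝ) =ᵐ[μ]
            fun x => r i * c i x := by
          intro i
          filter_upwards [Lp.coeFn_smul (r i) (s i : Lp ℝ 2 μ), hc i] with x hx hx2
          rw [hx, Pi.smul_apply, hx2, smul_eq_mul]
        filter_upwards [a1, ae_all_iff.2 a2] with x hx hx2
        rw [hx]
        exact Finset.sum_congr rfl fun i _ => hx2 i
      rw [e1]
      filter_upwards [Lp.coeFn_sub (F - Q) G, Lp.coeFn_sub F Q, hf.coeFn_toLp, e2] with x h1 h2 h3 h4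
      rw [h1, Pi.sub_apply, h2, Pi.sub_apply, h4, hF, h3]
      simp [pow_two]
    rw [← h1]
    have h2 : ‖P - Q‖ < Real.sqrt ε := by rwa [dist_eq_norm] at hPQ
    calc ‖P - Q‖ ^ 2 ≤ (Real.sqrt ε) ^ 2 := by
          exact pow_le_pow_left₀ (norm_nonneg _) h2.le 2
      _ = ε := Real.sq_sqrt hε.le

omit [MeasurableSpace Ω] in
private theorem dens_ind_zero {m : MeasurableSpace Ω} {μ : Measure Ω} [IsFiniteMeasure μ]
    {A : Set (Set Ω)} (hA : IsSetAlgebra A)
    (hm : m = MeasurableSpace.generateFrom A) {w : Ω → ℝ} (hw : Integrable w μ)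
    (h0 : ∀ s ∈ A, ∫ x, w x * (s.indicator (fun _ => (1 : ℝ)) x) ∂μ = 0) : w =ᵐ[μ] 0 := by
  refine dens_zero hA hm hw fun s hs => ?_
  rw [← h0 s hs, ← integral_indicator (by rw [hm]; exact MeasurableSpace.measurableSet_generateFrom hs)]
  refine integral_congr_ae (Eventually.of_forall fun x => ?_)
  by_cases hx : x ∈ s <;> simp [hx]

/-! ### Cubes -/

/-- The volume of the cube `closedBall t δ`. -/
theorem cube_vol (t : Vec k) {δ : ℝ} (hδ : 0 ≤ δ) :
    volume.real (Metric.closedBall t δ) = (2 * δ) ^ (k + 1) := by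
  rw [Measure.real, Real.volume_pi_closedBall t hδ, Fintype.card_fin,
    ENNReal.toReal_ofReal (by positivity)]

theorem cube_int {f : Vec k → ℝ} (hf : Measurable f) {B : ℝ} (hB : ∀ r, |f r| ≤ B) (t : Vec k)
    (δ : ℝ) : IntegrableOn f (Metric.closedBall t δ) volume := by
  have : IsFiniteMeasure (volume.restrict (Metric.closedBall t δ)) :=
    ⟨by rw [Measure.restrict_apply_univ]; exact measure_closedBall_lt_top⟩
  exact Integrable.of_bound hf.aestronglyMeasurable B (Eventually.of_forall fun r => by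
    rw [Real.norm_eq_abs]; exact hB r)

theorem cube_abs {f : Vec k → ℝ} {B : ℝ} (hB : ∀ r, |f r| ≤ B) (t : Vec k)
    {δ : ℝ} (hδ : 0 ≤ δ) : |∫ r in Metric.closedBall t δ, f r| ≤ B * (2 * δ) ^ (k + 1) := by
  have h := norm_setIntegral_le_of_norm_le_const (μ := volume) (s := Metric.closedBall t δ)
    (f := f) (C := B) measure_closedBall_lt_top (fun r _ => by rw [Real.norm_eq_abs]; exact hB r)
  rw [cube_vol t hδ, Real.norm_eq_abs] at h
  exact h

/-- Moving a cube changes the integral of a bounded function by little. -/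
theorem cube_shift {f : Vec k → ℝ} (hf : Measurable f) {B : ℝ} (hB : ∀ r, |f r| ≤ B) (t : Vec k)
    {δ : ℝ} (hδ : 0 < δ) :
    |(∫ r in Metric.closedBall t δ, f r) - ∫ r in Metric.closedBall (0 : Vec k) δ, f r|
      ≤ 2 * B * (2 * δ) ^ (k + 1) * ((k + 1 : ℕ) * ‖t‖ / δ) := by
  have hB0 : 0 ≤ B := (abs_nonneg _).trans (hB 0)
  rcases le_or_gt ‖t‖ δ with h | h
  · set S := Metric.closedBall (0 : Vec k) (δ - ‖t‖) with hS
    have hS0 : 0 ≤ δ - ‖t‖ := by linarith
    have hS1 : S ⊆ Metric.closedBall t δ := by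
      intro r hr
      rw [hS, Metric.mem_closedBall, dist_zero_right] at hr
      rw [Metric.mem_closedBall, dist_eq_norm]
      have := norm_sub_le r t
      linarith
    have hS2 : S ⊆ Metric.closedBall (0 : Vec k) δ := by
      apply Metric.closedBall_subset_closedBall
      linarith [norm_nonneg t]
    have hvol : ∀ A : Set (Vec k), MeasurableSet A → S ⊆ A → volume A ≠ ⊤ →
        volume.real (A \ S) = volume.real A - volume.real S := by
      intro A hA hSA hfin
      exact measureReal_sdiff hSA measurableSet_closedBall hfin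
    have key : ∀ t' : Vec k, S ⊆ Metric.closedBall t' δ →
        |(∫ r in Metric.closedBall t' δ, f r) - ∫ r in S, f r|
          ≤ B * ((2 * δ) ^ (k + 1) - (2 * (δ - ‖t‖)) ^ (k + 1)) := by
      intro t' hsub
      rw [← setIntegral_sdiff measurableSet_closedBall (cube_int hf hB t' δ) hsub]
      have h1 := norm_setIntegral_le_of_norm_le_const (μ := volume)
        (s := Metric.closedBall t' δ \ S) (f := f) (C := B)
        (lt_of_le_of_lt (measure_mono sdiff_subset) measure_closedBall_lt_top)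
        (fun r _ => by rw [Real.norm_eq_abs]; exact hB r)
      rw [Real.norm_eq_abs, hvol _ measurableSet_closedBall hsub measure_closedBall_lt_top.ne,
        cube_vol t' hδ.le, hS, cube_vol 0 hS0] at h1
      exact h1
    have h1 := key t hS1
    have h2 := key 0 hS2
    have hbern : (2 * δ) ^ (k + 1) - (2 * (δ - ‖t‖)) ^ (k + 1)
        ≤ (2 * δ) ^ (k + 1) * ((k + 1 : ℕ) * ‖t‖ / δ) := by
      have e1 : 2 * (δ - ‖t‖) = (2 * δ) * (1 + -(‖t‖ / δ)) := by field_simp; ring
      have e2 : -(‖t‖ / δ) ≥ -2 := by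
        have : ‖t‖ / δ ≤ 1 := (div_le_one hδ).2 h
        linarith
      have e3 := one_add_mul_le_pow e2 (k + 1)
      have e4 : (0 : ℝ) ≤ (2 * δ) ^ (k + 1) := by positivity
      have e5 := mul_le_mul_of_nonneg_left e3 e4
      have e6 : ((k + 1 : ℕ) : ℝ) * ‖t‖ / δ = (k + 1 : ℕ) * (‖t‖ / δ) := by ring
      have e7 : (2 * (δ - ‖t‖)) ^ (k + 1) = (2 * δ) ^ (k + 1) * (1 + -(‖t‖ / δ)) ^ (k + 1) := by
        rw [e1, mul_pow]
      rw [e6, e7]
      linarith
    have h3 : |(∫ r in Metric.closedBall t δ, f r) - ∫ r in Metric.closedBall (0 : Vec k) δ, f r|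
        ≤ |(∫ r in Metric.closedBall t δ, f r) - ∫ r in S, f r|
          + |(∫ r in Metric.closedBall (0 : Vec k) δ, f r) - ∫ r in S, f r| := by
      have := abs_sub ((∫ r in Metric.closedBall t δ, f r) - ∫ r in S, f r)
        ((∫ r in Metric.closedBall (0 : Vec k) δ, f r) - ∫ r in S, f r)
      rwa [sub_sub_sub_cancel_right] at this
    have h4 := mul_le_mul_of_nonneg_left hbern hB0
    calc _ ≤ _ := h3
      _ ≤ B * ((2 * δ) ^ (k + 1) - (2 * (δ - ‖t‖)) ^ (k + 1))
          + B * ((2 * δ) ^ (k + 1) - (2 * (δ - ‖t‖)) ^ (k + 1)) := add_le_add h1 h2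
      _ ≤ _ := by linarith
  · have h1 := cube_abs hB t hδ.le
    have h2 := cube_abs hB (0 : Vec k) hδ.le
    have h3 := abs_sub (∫ r in Metric.closedBall t δ, f r)
      (∫ r in Metric.closedBall (0 : Vec k) δ, f r)
    have h4 : 1 ≤ ((k + 1 : ℕ) : ℝ) * ‖t‖ / δ := by
      rw [le_div_iff₀ hδ]
      have : (1 : ℝ) ≤ ((k + 1 : ℕ) : ℝ) := by
        push_cast
        linarith [(Nat.cast_nonneg k : (0 : ℝ) ≤ k)]
      nlinarith
    have h5 : (0 : ℝ) ≤ 2 * B * (2 * δ) ^ (k + 1) := by positivity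
    have h6 := mul_le_mul_of_nonneg_left h4 h5
    linarith

/-- The average of `f ∘ φ r` over `r` in the cube `closedBall 0 δ`, multiplied by `1/2`. -/
private noncomputable def dens_h (φ : Vec k → Ω → Ω) (f : Ω → ℝ) (δ : ℝ) (x : Ω) : ℝ :=
  (2 * (2 * δ) ^ (k + 1))⁻¹ * ∫ r in Metric.closedBall (0 : Vec k) δ, f (φ r x)

theorem cube_meas (hφ : IsFlow μ φ) {f : Ω → ℝ} (hf : Measurable f) (t : Vec k) (δ : ℝ) :
    Measurable (fun x => ∫ r in Metric.closedBall t δ, f (φ r x)) := by
  have hm : Measurable (fun z : Ω × Vec k => f (φ z.2 z.1)) :=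
    hφ.meas_comp hf measurable_snd measurable_fst
  exact (hm.stronglyMeasurable.integral_prod_right').measurable

theorem cube_comp (hφ : IsFlow μ φ) (f : Ω → ℝ) (δ : ℝ) (u t : Vec k) (x : Ω) :
    ∫ r in Metric.closedBall u δ, f (φ r (φ t x))
      = ∫ r in Metric.closedBall (u + t) δ, f (φ r x) := by
  have h1 : ∀ r, f (φ r (φ t x)) = f (φ (r + t) x) := fun r => by rw [hφ.add]
  simp_rw [h1]
  rw [← integral_indicator measurableSet_closedBall, ← integral_indicator measurableSet_closedBall,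
    ← integral_add_right_eq_self (fun r => (Metric.closedBall (u + t) δ).indicator
      (fun r => f (φ r x)) r) t]
  refine integral_congr_ae (Eventually.of_forall fun r => ?_)
  simp only [Set.indicator, Metric.mem_closedBall, dist_add_right]

private theorem dens_h_meas (hφ : IsFlow μ φ) {f : Ω → ℝ} (hf : Measurable f) (δ : ℝ) :
    Measurable (dens_h φ f δ) := (cube_meas hφ hf 0 δ).const_mul _

omit [MeasurableSpace Ω] in
private theorem dens_h_bd {f : Ω → ℝ}
    (hb : ∀ x, |f x| ≤ 1) {δ : ℝ} (hδ : 0 < δ) (x : Ω) : |dens_h φ f δ x| ≤ 1 / 2 := by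
  unfold dens_h
  have h0 : (0 : ℝ) < (2 * δ) ^ (k + 1) := by positivity
  rw [abs_mul, abs_of_pos (by positivity : (0 : ℝ) < (2 * (2 * δ) ^ (k + 1))⁻¹)]
  have h1 := cube_abs (f := fun r => f (φ r x)) (fun r => hb _) (0 : Vec k) hδ.le
  rw [one_mul] at h1
  calc _ ≤ (2 * (2 * δ) ^ (k + 1))⁻¹ * (2 * δ) ^ (k + 1) :=
        mul_le_mul_of_nonneg_left h1 (by positivity)
    _ = 1 / 2 := by field_simp

private theorem dens_h_lip (hφ : IsFlow μ φ) {f : Ω → ℝ} (hf : Measurable f)
    (hb : ∀ x, |f x| ≤ 1) {δ : ℝ} (hδ : 0 < δ) :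
    LipT φ (dens_h φ f δ) ((k + 1 : ℕ) / δ) := by
  intro t x
  unfold dens_h
  have h0 : (0 : ℝ) < (2 * δ) ^ (k + 1) := by positivity
  rw [cube_comp hφ, zero_add, ← mul_sub, abs_mul,
    abs_of_pos (by positivity : (0 : ℝ) < (2 * (2 * δ) ^ (k + 1))⁻¹)]
  have h1 := cube_shift (f := fun r => f (φ r x)) (hφ.meas_comp hf measurable_id measurable_const)
    (B := 1) (fun r => hb _) t hδ
  calc _ ≤ (2 * (2 * δ) ^ (k + 1))⁻¹ * (2 * 1 * (2 * δ) ^ (k + 1) * ((k + 1 : ℕ) * ‖t‖ / δ)) :=
        mul_le_mul_of_nonneg_left h1 (by positivity)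
    _ = (k + 1 : ℕ) / δ * ‖t‖ := by field_simp

/-- The correlation of `g` with `f` along the action. -/
private noncomputable def dens_E (μ : Measure Ω) (φ : Vec k → Ω → Ω) (g f : Ω → ℝ) (r : Vec k) :
    ℝ := ∫ x, g x * f (φ r x) ∂μ

private theorem dens_E_meas [IsProbabilityMeasure μ] (hφ : IsFlow μ φ) {g f : Ω → ℝ}
    (hg : Measurable g) (hf : Measurable f) : Measurable (dens_E μ φ g f) := by
  have hm : Measurable (fun z : Vec k × Ω => g z.2 * f (φ z.1 z.2)) :=
    (hg.comp measurable_snd).mul (hφ.meas_comp hf measurable_fst measurable_snd)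
  exact (hm.stronglyMeasurable.integral_prod_right').measurable

private theorem dens_E_bd {g f : Ω → ℝ}
    (hgi : Integrable g μ) (hb : ∀ x, |f x| ≤ 1) (r : Vec k) :
    |dens_E μ φ g f r| ≤ ∫ x, |g x| ∂μ := by
  unfold dens_E
  refine (abs_integral_le_integral_abs).trans ?_
  refine integral_mono_of_nonneg (Eventually.of_forall fun x => abs_nonneg _) hgi.abs
    (Eventually.of_forall fun x => ?_)
  simp only [abs_mul]
  exact mul_le_of_le_one_right (abs_nonneg _) (hb _)

private theorem dens_fub [IsProbabilityMeasure μ] (hφ : IsFlow μ φ) {g f : Ω → ℝ}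
    (hg : Measurable g) (hgi : Integrable g μ) (hf : Measurable f) (hb : ∀ x, |f x| ≤ 1)
    (t : Vec k) (δ : ℝ) :
    ∫ x, g x * (∫ r in Metric.closedBall t δ, f (φ r x)) ∂μ
      = ∫ r in Metric.closedBall t δ, dens_E μ φ g f r := by
  unfold dens_E
  simp only [← integral_const_mul]
  refine integral_integral_swap ?_
  have hfin : IsFiniteMeasure (volume.restrict (Metric.closedBall t δ)) :=
    ⟨by rw [Measure.restrict_apply_univ]; exact measure_closedBall_lt_top⟩
  have hm : Measurable (fun z : Ω × Vec k => g z.1 * f (φ z.2 z.1)) :=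
    (hg.comp measurable_fst).mul (hφ.meas_comp hf measurable_snd measurable_fst)
  refine Integrable.mono (g := fun z : Ω × Vec k => g z.1) ?_ hm.aestronglyMeasurable ?_
  · exact hgi.comp_fst _
  · filter_upwards with z
    simp only [Function.uncurry, norm_mul]
    exact mul_le_of_le_one_right (norm_nonneg _) (by simpa using hb _)

/-- Integrals over translated cubes. -/
private theorem dens_I [IsProbabilityMeasure μ] (hφ : IsFlow μ φ) {g f : Ω → ℝ}
    (hg : Measurable g) (hgi : Integrable g μ) (hf : Measurable f) (hb : ∀ x, |f x| ≤ 1)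
    {δ : ℝ} (hδ : 0 < δ) (t : Vec k) :
    ∫ x, g x * dens_h φ f δ (φ t x) ∂μ
      = (2 * (2 * δ) ^ (k + 1))⁻¹ * ∫ r in Metric.closedBall t δ, dens_E μ φ g f r := by
  rw [← dens_fub hφ hg hgi hf hb, ← integral_const_mul]
  refine integral_congr_ae (Eventually.of_forall fun x => ?_)
  have := hδ
  simp only [dens_h]
  rw [cube_comp hφ, zero_add]
  ring

private theorem dens_hint [IsProbabilityMeasure μ] (hφ : IsFlow μ φ) {g f : Ω → ℝ}
    (hg : Measurable g) (hgi : Integrable g μ) (hf : Measurable f) (hb : ∀ x, |f x| ≤ 1)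
    {δ : ℝ} (hδ : 0 < δ) (t : Vec k) : Integrable (fun x => g x * dens_h φ f δ (φ t x)) μ := by
  have hm : Measurable (fun x => g x * dens_h φ f δ (φ t x)) :=
    hg.mul (hφ.meas_comp (dens_h_meas hφ hf δ) measurable_const measurable_id)
  refine Integrable.mono hgi hm.aestronglyMeasurable ?_
  filter_upwards with x
  rw [norm_mul]
  refine mul_le_of_le_one_right (norm_nonneg _) ?_
  rw [Real.norm_eq_abs]
  linarith [dens_h_bd (φ := φ) hb hδ (φ t x)]

/-- The rational vector. -/
private noncomputable def dens_v (u : Fin (k + 1) → ℚ) : Vec k := fun i => (u i : ℝ)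

/-- The correlation is almost everywhere constant. -/
private theorem dens_const [IsProbabilityMeasure μ] (hφ : IsFlow μ φ) {g f : Ω → ℝ}
    (hg : Measurable g) (hgi : Integrable g μ) (hf : Measurable f) (hb : ∀ x, |f x| ≤ 1)
    (h0 : ∀ (δ s : ℚ) (i : Fin (k + 1)) (u : Fin (k + 1) → ℚ), 0 < δ →
      ∫ x, g x * (dens_h φ f δ (φ (dens_v u) x)
        - dens_h φ f δ (φ (dens_v u) (φ (Pi.single i (s : ℝ)) x))) ∂μ = 0) :
    ∃ C : ℝ, ∀ᵐ r ∂(volume : Measure (Vec k)), dens_E μ φ g f r = C := by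
  set E := dens_E μ φ g f with hE
  set Bd : ℝ := ∫ x, |g x| ∂μ with hBd
  have hEm : Measurable E := dens_E_meas hφ hg hf
  have hEb : ∀ r, |E r| ≤ Bd := fun r => dens_E_bd hgi hb r
  -- equality of the integrals over the cubes
  have h1 : ∀ (δ s : ℚ) (i : Fin (k + 1)) (u : Fin (k + 1) → ℚ), 0 < δ →
      ∫ r in Metric.closedBall (dens_v u) (δ : ℝ), E r
        = ∫ r in Metric.closedBall (dens_v u + Pi.single i (s : ℝ)) (δ : ℝ), E r := by
    intro δ s i u hδ
    have hδ' : (0 : ℝ) < (δ : ℝ) := by exact_mod_cast hδ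
    have h2 := h0 δ s i u hδ
    have e1 : ∀ x, g x * (dens_h φ f δ (φ (dens_v u) x)
        - dens_h φ f δ (φ (dens_v u) (φ (Pi.single i (s : ℝ)) x)))
        = g x * dens_h φ f δ (φ (dens_v u) x)
          - g x * dens_h φ f δ (φ (dens_v u + Pi.single i (s : ℝ)) x) := by
      intro x
      rw [hφ.add]
      ring
    simp_rw [e1] at h2
    rw [integral_sub (dens_hint hφ hg hgi hf hb hδ' _) (dens_hint hφ hg hgi hf hb hδ' _),
      dens_I hφ hg hgi hf hb hδ', dens_I hφ hg hgi hf hb hδ', ← mul_sub] at h2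
    have h3 : (2 * (2 * (δ : ℝ)) ^ (k + 1))⁻¹ ≠ 0 := by positivity
    rcases mul_eq_zero.1 h2 with h | h
    · exact absurd h h3
    · linarith
  have h2 : ∀ (δ : ℚ) (u : Fin (k + 1) → ℚ), 0 < δ →
      ∫ r in Metric.closedBall (dens_v u) (δ : ℝ), E r
        = ∫ r in Metric.closedBall (0 : Vec k) (δ : ℝ), E r := by
    intro δ u hδ
    have key : ∀ S : Finset (Fin (k + 1)),
        ∫ r in Metric.closedBall (dens_v (fun i => if i ∈ S then u i else 0)) (δ : ℝ), E r
          = ∫ r in Metric.closedBall (0 : Vec k) (δ : ℝ), E r := by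
      intro S
      induction S using Finset.induction_on with
      | empty =>
        have : dens_v (fun i : Fin (k + 1) => if i ∈ (∅ : Finset (Fin (k + 1))) then u i else 0)
            = 0 := by
          funext i
          simp [dens_v]
        rw [this]
      | insert a S ha ih =>
        rw [← ih, h1 δ (u a) a (fun i => if i ∈ S then u i else 0) hδ]
        congr 2
        congr 1
        funext i
        by_cases hi : i = a
        · subst hi
          simp [dens_v, ha]
        · simp [dens_v, hi]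
    have := key Finset.univ
    simpa using this
  -- continuity of the integral over a cube
  have hcont : ∀ δ : ℝ, 0 < δ →
      Continuous (fun u : Vec k => ∫ r in Metric.closedBall u δ, E r) := by
    intro δ hδ
    have hshift : ∀ u v : Vec k, |(∫ r in Metric.closedBall (u + v) δ, E r)
        - ∫ r in Metric.closedBall v δ, E r| ≤ 2 * Bd * (2 * δ) ^ (k + 1)
          * ((k + 1 : ℕ) * ‖u‖ / δ) := by
      intro u v
      have e1 : ∀ w : Vec k, ∫ r in Metric.closedBall (w + v) δ, E r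
          = ∫ r in Metric.closedBall w δ, E (r + v) := by
        intro w
        rw [← integral_indicator measurableSet_closedBall,
          ← integral_indicator measurableSet_closedBall,
          ← integral_add_right_eq_self (fun r => (Metric.closedBall (w + v) δ).indicator E r) v]
        refine integral_congr_ae (Eventually.of_forall fun r => ?_)
        simp only [Set.indicator, Metric.mem_closedBall, dist_add_right]
      have e2 := e1 0
      rw [zero_add] at e2
      rw [e1, e2]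
      exact cube_shift (f := fun r => E (r + v)) (hEm.comp (by fun_prop)) (fun r => hEb _) u hδ
    rw [continuous_iff_continuousAt]
    intro v
    rw [ContinuousAt, tendsto_iff_norm_sub_tendsto_zero]
    have hlim : Tendsto (fun w : Vec k => 2 * Bd * (2 * δ) ^ (k + 1)
        * ((k + 1 : ℕ) * ‖w - v‖ / δ)) (𝓝 v) (𝓝 (2 * Bd * (2 * δ) ^ (k + 1)
        * ((k + 1 : ℕ) * ‖v - v‖ / δ))) := by
      apply Continuous.tendsto
      fun_prop
    rw [sub_self, norm_zero, mul_zero, zero_div, mul_zero] at hlim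
    refine squeeze_zero (fun _ => norm_nonneg _) (fun w => ?_) hlim
    have := hshift (w - v) v
    rw [sub_add_cancel] at this
    exact this
  have h3 : ∀ (δ : ℚ) (u : Vec k), 0 < δ →
      ∫ r in Metric.closedBall u (δ : ℝ), E r
        = ∫ r in Metric.closedBall (0 : Vec k) (δ : ℝ), E r := by
    intro δ u hδ
    have hδ' : (0 : ℝ) < (δ : ℝ) := by exact_mod_cast hδ
    have hcl : IsClosed {u : Vec k | ∫ r in Metric.closedBall u (δ : ℝ), E r
        = ∫ r in Metric.closedBall (0 : Vec k) (δ : ℝ), E r} :=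
      isClosed_eq (hcont δ hδ') continuous_const
    have hd : DenseRange (dens_v (k := k)) :=
      DenseRange.piMap (fun _ => Rat.denseRange_cast (𝕜 := ℝ))
    have hsub : Set.range (dens_v (k := k)) ⊆ {u : Vec k |
        ∫ r in Metric.closedBall u (δ : ℝ), E r
        = ∫ r in Metric.closedBall (0 : Vec k) (δ : ℝ), E r} := by
      rintro _ ⟨u, rfl⟩
      exact h2 δ u hδ
    exact hcl.closure_subset_iff.2 hsub (hd u)
  -- Lebesgue differentiation
  have hloc : LocallyIntegrable E volume := by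
    rw [locallyIntegrable_iff]
    intro K hK
    obtain ⟨R, hR⟩ := hK.isBounded.subset_closedBall 0
    exact (cube_int hEm hEb 0 R).mono_set hR
  have hleb := IsUnifLocDoublingMeasure.ae_tendsto_average (μ := (volume : Measure (Vec k))) hloc 1
  have hseq : Tendsto (fun n : ℕ => ((1 / ((n : ℚ) + 1) : ℚ) : ℝ)) atTop (𝓝[>] 0) := by
    rw [tendsto_nhdsWithin_iff]
    refine ⟨?_, Eventually.of_forall fun n => ?_⟩
    · have := tendsto_one_div_add_atTop_nhds_zero_nat (𝕜 := ℝ)
      refine this.congr fun n => ?_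
      push_cast
      rfl
    · simp only [Set.mem_Ioi]
      have : (0 : ℚ) < 1 / ((n : ℚ) + 1) := by positivity
      exact_mod_cast this
  have hex : ∀ᵐ r ∂(volume : Measure (Vec k)),
      Tendsto (fun n : ℕ => ⨍ y in Metric.closedBall (0 : Vec k) ((1 / ((n : ℚ) + 1) : ℚ) : ℝ), E y)
        atTop (𝓝 (E r)) := by
    filter_upwards [hleb] with r hr
    have h4 := hr (fun _ : ℕ => r) (fun n : ℕ => ((1 / ((n : ℚ) + 1) : ℚ) : ℝ)) hseq
      (Eventually.of_forall fun n => by
        apply Metric.mem_closedBall_self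
        rw [one_mul]
        have : (0 : ℚ) ≤ 1 / ((n : ℚ) + 1) := by positivity
        exact_mod_cast this)
    refine h4.congr fun n => ?_
    have hpos : (0 : ℚ) < 1 / ((n : ℚ) + 1) := by positivity
    have hpos' : (0 : ℝ) ≤ ((1 / ((n : ℚ) + 1) : ℚ) : ℝ) := by exact_mod_cast hpos.le
    rw [setAverage_eq, setAverage_eq, h3 _ r hpos, cube_vol r hpos', cube_vol 0 hpos']
  obtain ⟨r₀, hr₀⟩ := hex.exists
  refine ⟨E r₀, ?_⟩
  filter_upwards [hex] with r hr
  exact tendsto_nhds_unique hr hr₀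

/-- Orthogonal decomposition of `L²` into the invariant functions and the closed span of a
countable class of coboundaries `h - h ∘ φ (s e_i)`, `i` arbitrary, `h` the average of `k ∘ φ r` over `r` in the
box `[0, δ]^(k+1)`. -/
theorem dens [MeasurableSpace.CountablyGenerated Ω] [IsProbabilityMeasure μ] (hφ : IsFlow μ φ) :
    ∃ H : Set (Ω → ℝ), H.Countable ∧ (∀ c ∈ H, Cls μ φ c) ∧
      ∀ f : Ω → ℝ, MemLp f 2 μ → ∀ ε : ℝ, 0 < ε →
        ∃ (n : ℕ) (r : Fin n → ℝ) (c : Fin n → Ω → ℝ) (g : Ω → ℝ),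
          (∀ i, c i ∈ H) ∧ Measurable g ∧ MemLp g 2 μ ∧ (∀ t, (fun x => g (φ t x)) =ᵐ[μ] g) ∧
          ∫ x, (f x - ∑ i, r i * c i x - g x) ^ 2 ∂μ ≤ ε := by
  obtain ⟨A, hAc, hA, hm⟩ := dens_alg Ω
  have hAm : ∀ s ∈ A, MeasurableSet s := by
    intro s hs
    rw [hm]
    exact MeasurableSpace.measurableSet_generateFrom hs
  have hk1 : ∀ s ∈ A, Measurable (s.indicator (fun _ => (1 : ℝ))) :=
    fun s hs => measurable_const.indicator (hAm s hs)
  have hk2 : ∀ (s : Set Ω) (x : Ω), |s.indicator (fun _ => (1 : ℝ)) x| ≤ 1 := by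
    intro s x
    by_cases hx : x ∈ s <;> simp [hx]
  set J : Set (Set Ω × ℚ × ℚ × Fin (k + 1) × (Fin (k + 1) → ℚ)) :=
    {z | z.1 ∈ A ∧ 0 < z.2.1} with hJ
  have hJc : J.Countable := by
    have : J ⊆ A ×ˢ (Set.univ : Set (ℚ × ℚ × Fin (k + 1) × (Fin (k + 1) → ℚ))) :=
      fun z hz => ⟨hz.1, mem_univ _⟩
    exact (hAc.prod (Set.to_countable _)).mono this
  set hh : Set Ω × ℚ × ℚ × Fin (k + 1) × (Fin (k + 1) → ℚ) → Ω → ℝ := fun z x =>
    dens_h φ (z.1.indicator (fun _ => (1 : ℝ))) (z.2.1 : ℝ) (φ (dens_v z.2.2.2.2) x) with hhh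
  set co : Set Ω × ℚ × ℚ × Fin (k + 1) × (Fin (k + 1) → ℚ) → Ω → ℝ := fun z x =>
    hh z x - hh z (φ (Pi.single z.2.2.2.1 (z.2.2.1 : ℝ)) x) with hco
  have hcls : ∀ c ∈ co '' J, Cls μ φ c := by
    rintro c ⟨z, hz, rfl⟩
    have hδ : (0 : ℝ) < (z.2.1 : ℝ) := by exact_mod_cast hz.2
    refine cob_cls hφ (h := hh z) (hφ.meas_comp (dens_h_meas hφ (hk1 _ hz.1) _) measurable_const
      measurable_id) (fun x => dens_h_bd (hk2 _) hδ _)
      (L := (k + 1 : ℕ) / (z.2.1 : ℝ)) ?_ _ _
    intro t x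
    have h1 := dens_h_lip hφ (hk1 _ hz.1) (hk2 _) hδ t (φ (dens_v z.2.2.2.2) x)
    simp only [hhh]
    rw [← hφ.add, add_comm (dens_v z.2.2.2.2) t, hφ.add]
    exact h1
  refine ⟨co '' J, hJc.image _, hcls, fun f hf ε hε => ?_⟩
  obtain ⟨n, r, c, g, h1, h2, h3, h4, h5⟩ := dens_orth (co '' J)
    (fun c hc => ⟨(hcls c hc).meas, (hcls c hc).bd⟩) f hf ε hε
  refine ⟨n, r, c, g, h1, h2, h3, ?_, h5⟩
  have hgi : Integrable g μ := h3.integrable (by norm_num)
  -- the correlations are constant almost everywhere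
  have h6 : ∀ s ∈ A, ∃ C : ℝ, ∀ᵐ r ∂(volume : Measure (Vec k)),
      dens_E μ φ g (s.indicator (fun _ => (1 : ℝ))) r = C := by
    intro s hs
    refine dens_const hφ h2 hgi (hk1 s hs) (hk2 s) fun δ s' i u hδ => ?_
    exact h4 _ ⟨(s, δ, s', i, u), ⟨hs, hδ⟩, rfl⟩
  have h7 : ∀ s : Set Ω, ∃ C : ℝ, s ∈ A → ∀ᵐ r ∂(volume : Measure (Vec k)),
      dens_E μ φ g (s.indicator (fun _ => (1 : ℝ))) r = C := by
    intro s
    by_cases hs : s ∈ A
    · obtain ⟨C, hC⟩ := h6 s hs
      exact ⟨C, fun _ => hC⟩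
    · exact ⟨0, fun h => absurd h hs⟩
  choose C hC using h7
  have h8 : ∀ᵐ r ∂(volume : Measure (Vec k)), ∀ s ∈ A,
      dens_E μ φ g (s.indicator (fun _ => (1 : ℝ))) r = C s :=
    (ae_ball_iff hAc).2 fun s hs => hC s hs
  have hcomp : ∀ t : Vec k, Integrable (fun x => g (φ t x)) μ := fun t =>
    (hφ.mp t).integrable_comp_of_integrable hgi
  have hE : ∀ (f : Ω → ℝ) (r : Vec k), Measurable f →
      dens_E μ φ g f r = ∫ x, g (φ (-r) x) * f x ∂μ := by
    intro f r hf
    unfold dens_E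
    have h9 := hφ.integral_comp (-r) (g := fun x => g x * f (φ r x))
      (h2.mul (hφ.meas_comp hf measurable_const measurable_id))
    rw [← h9]
    refine integral_congr_ae (Eventually.of_forall fun x => ?_)
    simp only
    rw [hφ.neg_right]
  intro t
  -- choose `r` with `r` and `r + t` outside the exceptional set
  have h10 : ∀ᵐ r ∂(volume : Measure (Vec k)), ∀ s ∈ A,
      dens_E μ φ g (s.indicator (fun _ => (1 : ℝ))) (r + t) = C s := by
    have := (measurePreserving_add_right (volume : Measure (Vec k)) t).quasiMeasurePreserving.ae h8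
    exact this
  obtain ⟨r', hr1, hr2⟩ := (h8.and h10).exists
  have h11 : (fun x => g (φ (-r') x) - g (φ (-(r' + t)) x)) =ᵐ[μ] 0 := by
    refine dens_ind_zero hA hm ((hcomp _).sub (hcomp _)) fun s hs => ?_
    have e1 := hr1 s hs
    have e2 := hr2 s hs
    rw [hE _ _ (hk1 s hs)] at e1 e2
    have hI : ∀ t : Vec k,
        Integrable (fun x => g (φ t x) * s.indicator (fun _ => (1 : ℝ)) x) μ := by
      intro t
      refine Integrable.mono (hcomp t) ((hcomp t).aestronglyMeasurable.mul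
        (hk1 s hs).aestronglyMeasurable) ?_
      filter_upwards with x
      rw [norm_mul]
      exact mul_le_of_le_one_right (norm_nonneg _) (by simpa using hk2 s x)
    have e3 : ∫ x, (g (φ (-r') x) - g (φ (-(r' + t)) x)) * s.indicator (fun _ => (1 : ℝ)) x ∂μ
        = (∫ x, g (φ (-r') x) * s.indicator (fun _ => (1 : ℝ)) x ∂μ)
          - ∫ x, g (φ (-(r' + t)) x) * s.indicator (fun _ => (1 : ℝ)) x ∂μ := by
      rw [← integral_sub (hI _) (hI _)]
      refine integral_congr_ae (Eventually.of_forall fun x => ?_)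
      simp only
      ring
    rw [e3, e1, e2, sub_self]
  have h12 := (hφ.mp (r' + t)).quasiMeasurePreserving.ae h11
  filter_upwards [h12] with x hx
  simp only [Pi.zero_apply] at hx
  rw [← hφ.add, ← hφ.add] at hx
  have r1 : -r' + (r' + t) = t := by abel
  have r2 : -(r' + t) + (r' + t) = 0 := by abel
  rw [r1, r2, hφ.zero] at hx
  linarith

end Pool.AEV
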