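import Pool.Agent.AEV.Defs
import Pool.Agent.AET.Dim
import Pool.Agent.AET.Vol

/-!
# The dimension of an exceptional set, from Lipschitz functions of small integral
-/

set_option autoImplicit false

open MeasureTheory Set Filter Topology

namespace Pool.AEV

private def Dim_eqv (d k : ℕ) : Fin ((d + 1) * (k + 1) - 1 + 1) ≃ Fin (d + 1) × Fin (k + 1) :=
  (finCongr (by
    have h : 0 < (d + 1) * (k + 1) := by positivity
    omega)).trans finProdFinEquiv.symm

/-- The coordinates of a family of vectors. -/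
private def Dim_Phi (d k : ℕ) :
    (Fin ((d + 1) * (k + 1) - 1 + 1) → ℝ) ≃ᵐ (Fin (d + 1) → Vec k) where
  toFun s j l := s ((Dim_eqv d k).symm (j, l))
  invFun t i := t (Dim_eqv d k i).1 (Dim_eqv d k i).2
  left_inv s := by
    funext i
    simp
  right_inv t := by
    funext j l
    simp
  measurable_toFun := by
    apply measurable_pi_lambda
    intro j
    apply measurable_pi_lambda
    intro l
    exact measurable_pi_apply ((Dim_eqv d k).symm (j, l))
  measurable_invFun := by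
    apply measurable_pi_lambda
    intro i
    exact (measurable_pi_apply (Dim_eqv d k i).2).comp (measurable_pi_apply (Dim_eqv d k i).1)

private theorem Dim_apply (d k : ℕ) (s : Fin ((d + 1) * (k + 1) - 1 + 1) → ℝ) (j : Fin (d + 1))
    (l : Fin (k + 1)) : Dim_Phi d k s j l = s ((Dim_eqv d k).symm (j, l)) := rfl

private theorem Dim_symm_apply (d k : ℕ) (t : Fin (d + 1) → Vec k)
    (i : Fin ((d + 1) * (k + 1) - 1 + 1)) :
    (Dim_Phi d k).symm t i = t (Dim_eqv d k i).1 (Dim_eqv d k i).2 := rfl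

private theorem Dim_mp' (d k : ℕ) : MeasurePreserving (Dim_Phi d k).symm volume volume := by
  refine ⟨(Dim_Phi d k).symm.measurable, ?_⟩
  symm
  apply Measure.pi_eq
  intro s hs
  rw [Measure.map_apply (Dim_Phi d k).symm.measurable (MeasurableSet.univ_pi hs)]
  have h1 : (Dim_Phi d k).symm ⁻¹' (Set.pi univ s) =
      Set.pi univ (fun j => Set.pi univ (fun l => s ((Dim_eqv d k).symm (j, l)))) := by
    ext t
    simp only [mem_preimage, Set.mem_pi, mem_univ, forall_true_left]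
    constructor
    · intro h j l
      have := h ((Dim_eqv d k).symm (j, l))
      rw [Dim_symm_apply] at this
      simpa using this
    · intro h i
      have h3 := h (Dim_eqv d k i).1 (Dim_eqv d k i).2
      rw [Prod.mk.eta, Equiv.symm_apply_apply] at h3
      rw [Dim_symm_apply]
      exact h3
  rw [h1, volume_pi_pi]
  have h2 : ∀ j : Fin (d + 1), (volume : Measure (Vec k))
      (Set.pi univ (fun l => s ((Dim_eqv d k).symm (j, l)))) =
        ∏ l, volume (s ((Dim_eqv d k).symm (j, l))) := fun j => volume_pi_pi _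
  rw [Finset.prod_congr rfl (fun j _ => h2 j), ← Fintype.prod_prod_type']
  exact Equiv.prod_comp (Dim_eqv d k).symm (fun i => volume (s i))

private theorem Dim_mp (d k : ℕ) : MeasurePreserving (Dim_Phi d k) volume volume :=
  (Dim_mp' d k).symm

private theorem Dim_nrm (d k : ℕ) (s s' : Fin ((d + 1) * (k + 1) - 1 + 1) → ℝ) :
    ‖Dim_Phi d k s - Dim_Phi d k s'‖ = ‖s - s'‖ := by
  apply le_antisymm
  · rw [pi_norm_le_iff_of_nonneg (norm_nonneg _)]
    intro j
    rw [pi_norm_le_iff_of_nonneg (norm_nonneg _)]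
    intro l
    exact norm_le_pi_norm (s - s') ((Dim_eqv d k).symm (j, l))
  · rw [pi_norm_le_iff_of_nonneg (norm_nonneg _)]
    intro i
    have h1 := norm_le_pi_norm ((Dim_Phi d k s - Dim_Phi d k s') (Dim_eqv d k i).1)
      (Dim_eqv d k i).2
    have h2 := norm_le_pi_norm (Dim_Phi d k s - Dim_Phi d k s') (Dim_eqv d k i).1
    refine le_trans ?_ (h1.trans h2)
    simp only [Pi.sub_apply, Dim_apply, Prod.mk.eta, Equiv.symm_apply_apply]
    exact le_rfl

private theorem Dim_isom (d k : ℕ) : Isometry (Dim_Phi d k) := by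
  apply Isometry.of_dist_eq
  intro s s'
  rw [dist_eq_norm, dist_eq_norm, Dim_nrm]

private theorem Dim_isom' (d k : ℕ) : Isometry (Dim_Phi d k).symm := by
  apply Isometry.of_dist_eq
  intro t t'
  rw [← (Dim_isom d k).dist_eq, MeasurableEquiv.apply_symm_apply,
    MeasurableEquiv.apply_symm_apply]

private theorem Dim_cast (d k : ℕ) : (((d + 1) * (k + 1) - 1 : ℕ) : ℝ) + 1 =
    ((d : ℝ) + 1) * ((k : ℝ) + 1) := by
  have h : 0 < (d + 1) * (k + 1) := by positivity
  obtain ⟨m, hm⟩ : ∃ m, (d + 1) * (k + 1) = m + 1 := ⟨(d + 1) * (k + 1) - 1, by omega⟩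
  rw [hm, Nat.add_sub_cancel]
  have h2 : (((d + 1) * (k + 1) : ℕ) : ℝ) = ((m + 1 : ℕ) : ℝ) := by rw [hm]
  push_cast at h2
  exact h2.symm

private theorem Dim_box (d k : ℕ) (κ' : Fin ((d + 1) * (k + 1) - 1 + 1) → ℤ) :
    Dim_Phi d k ⁻¹' (Icc (fun j l => (κ' ((Dim_eqv d k).symm (j, l)) : ℝ))
      (fun j l => (κ' ((Dim_eqv d k).symm (j, l)) : ℝ) + 1)) =
      Icc (fun j => (κ' j : ℝ)) (fun j => (κ' j : ℝ) + 1) := by
  ext s
  simp only [mem_preimage, mem_Icc]
  constructor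
  · rintro ⟨h1, h2⟩
    constructor
    · intro i
      have h3 := h1 (Dim_eqv d k i).1 (Dim_eqv d k i).2
      simp only [Dim_apply, Prod.mk.eta, Equiv.symm_apply_apply] at h3
      exact h3
    · intro i
      have h3 := h2 (Dim_eqv d k i).1 (Dim_eqv d k i).2
      simp only [Dim_apply, Prod.mk.eta, Equiv.symm_apply_apply] at h3
      exact h3
  · rintro ⟨h1, h2⟩
    exact ⟨fun j l => h1 _, fun j l => h2 _⟩

theorem dim_le (d k A : ℕ) (G : ℕ → (Fin (d + 1) → Vec k) → ℝ) (hG0 : ∀ r t, 0 ≤ G r t) (C : ℝ)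
    (hlip : ∀ r t t', |G r t - G r t'| ≤ C * ((r : ℝ) + 1) ^ A * ‖t - t'‖)
    (hint : ∀ κ : Fin (d + 1) → Fin (k + 1) → ℤ, ∃ B : ℝ, ∀ r : ℕ,
      ∫ t in Icc (fun j l => (κ j l : ℝ)) (fun j l => (κ j l : ℝ) + 1), G r t
        ≤ B / ((r : ℝ) + 1) ^ 4) :
    dimH {t | ¬ ∀ᶠ r : ℕ in atTop, G r t ≤ 1 / ((r : ℝ) + 1) ^ 2}
      ≤ ENNReal.ofReal (((d : ℝ) + 1) * ((k : ℝ) + 1) - 1 / (2 * A + 4)) := by
  have h1 := AET.dim_le ((d + 1) * (k + 1) - 1) A (fun r s => G r (Dim_Phi d k s))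
    (fun r s => hG0 r _) C
    (fun r s s' => by
      rw [← Dim_nrm]
      exact hlip r _ _)
    (fun κ' => by
      obtain ⟨B, hB⟩ := hint (fun j l => κ' ((Dim_eqv d k).symm (j, l)))
      refine ⟨B, fun r => ?_⟩
      have hr := hB r
      rw [← (Dim_mp d k).setIntegral_preimage_emb (Dim_Phi d k).measurableEmbedding,
        Dim_box] at hr
      exact hr)
  rw [Dim_cast] at h1
  refine le_trans ?_ h1
  have h2 : {t | ¬ ∀ᶠ r : ℕ in atTop, G r t ≤ 1 / ((r : ℝ) + 1) ^ 2} =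
      Dim_Phi d k '' {s | ¬ ∀ᶠ r : ℕ in atTop, G r (Dim_Phi d k s) ≤ 1 / ((r : ℝ) + 1) ^ 2} := by
    ext t
    constructor
    · intro ht
      refine ⟨(Dim_Phi d k).symm t, ?_, ?_⟩
      · simpa using ht
      · simp
    · rintro ⟨s, hs, rfl⟩
      exact hs
  rw [h2, (Dim_isom d k).dimH_image]

theorem volume_zero_of_dimH {d k : ℕ} {E : Set (Fin (d + 1) → Vec k)}
    (h : dimH E < ((d : ENNReal) + 1) * ((k : ENNReal) + 1)) : volume E = 0 := by
  rw [← (Dim_mp d k).measure_preimage_equiv E]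
  apply AET.volume_zero_of_dimH
  have h1 : Dim_Phi d k ⁻¹' E = (Dim_Phi d k).symm '' E := by
    rw [MeasurableEquiv.image_symm]
  rw [h1, (Dim_isom' d k).dimH_image]
  have h2 : (((d + 1) * (k + 1) - 1 : ℕ) : ENNReal) + 1 =
      ((d : ENNReal) + 1) * ((k : ENNReal) + 1) := by
    have h : 0 < (d + 1) * (k + 1) := by positivity
    obtain ⟨m, hm⟩ : ∃ m, (d + 1) * (k + 1) = m + 1 := ⟨(d + 1) * (k + 1) - 1, by omega⟩
    rw [hm, Nat.add_sub_cancel]
    have h2 : (((d + 1) * (k + 1) : ℕ) : ENNReal) = ((m + 1 : ℕ) : ENNReal) := by rw [hm]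
    push_cast at h2
    exact h2.symm
  rw [h2]
  exact h

end Pool.AEV
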