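import Pool.Agent.AEV.Box
import Pool.Agent.AEV.LipG
import Pool.Agent.AEV.Dim
import Pool.Agent.AET.Fill
import Pool.Agent.AET.PolyG
import Pool.Agent.AET.Exc

/-!
# The exceptional times of one family of good functions
-/

set_option autoImplicit false

open MeasureTheory Set Filter Topology Finset
open Pool.AET (GrowInc av avg_abs_le fill ae_zero two_sided grow_shift poly_bd comp_neg_eval
  comp_neg_natDegree)

namespace Pool.AEV

variable {k : ℕ} {Ω : Type*} [MeasurableSpace Ω] {μ : Measure Ω} {d : ℕ}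

theorem Cls1.meas {φ : Vec k → Ω → Ω} {c : Ω → ℝ} (h : Cls1 μ φ c) : Measurable c := by
  rcases h with h | h
  · exact h.meas
  · have : c = fun _ => 1 := funext h
    rw [this]
    exact measurable_const

theorem Cls1.bd {φ : Vec k → Ω → Ω} {c : Ω → ℝ} (h : Cls1 μ φ c) (x : Ω) : |c x| ≤ 1 := by
  rcases h with h | h
  · exact h.bd x
  · rw [h x]
    simp

theorem Cls1.lip {φ : Vec k → Ω → Ω} {c : Ω → ℝ} (h : Cls1 μ φ c) :
    ∃ L : ℝ, 0 ≤ L ∧ LipT φ c L := by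
  rcases h with h | h
  · obtain ⟨L, hL⟩ := h.lip
    refine ⟨|L|, abs_nonneg _, fun t x => (hL t x).trans ?_⟩
    exact mul_le_mul_of_nonneg_right (le_abs_self L) (norm_nonneg _)
  · refine ⟨0, le_rfl, fun t x => ?_⟩
    rw [h, h]
    simp

omit [MeasurableSpace Ω] in
theorem prodSeq_abs_le {φ : Fin (d + 1) → Vec k → Ω → Ω} {u : ℕ → Ω → ℝ}
    (hu1 : ∀ n x, |u n x| ≤ 1)
    {c : Fin (d + 1) → Ω → ℝ} (hc1 : ∀ j x, |c j x| ≤ 1) (q : Fin (d + 1) → ℕ → Vec k)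
    (t : Fin (d + 1) → Vec k) (n : ℕ) (x : Ω) : |prodSeq φ u c q t n x| ≤ 1 := by
  unfold prodSeq
  rw [abs_mul, Finset.abs_prod]
  exact mul_le_one₀ (hu1 _ _) (Finset.prod_nonneg fun _ _ => abs_nonneg _)
    (Finset.prod_le_one (fun _ _ => abs_nonneg _) fun j _ => hc1 _ _)

/-- One sided averages of a general sequence. -/
theorem exc_seq [IsProbabilityMeasure μ] {φ : Fin (d + 1) → Vec k → Ω → Ω}
    (hφ : ∀ j, IsFlow μ (φ j))
    {u : ℕ → Ω → ℝ} (hu : ∀ n, Measurable (u n)) (hu1 : ∀ n x, |u n x| ≤ 1)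
    {c : Fin (d + 1) → Ω → ℝ} (hc : ∀ j, Cls1 μ (φ j) (c j))
    (j₀ : Fin (d + 1)) (hj₀ : Cls μ (φ j₀) (c j₀))
    {q : Fin (d + 1) → ℕ → Vec k} {a A : ℝ} {e : Fin (k + 1) → ℕ} (ha : 0 < a)
    (hq : ∀ l, GrowInc (fun n => q j₀ n l) a A (e l))
    {A' : ℝ} {D : ℕ} (hqD : ∀ j n, ‖q j n‖ ≤ A' * ((n : ℝ) + 1) ^ D) :
    dimH {t : Fin (d + 1) → Vec k | ¬ ∀ᵐ x ∂μ, Tendsto (fun N : ℕ => (N : ℝ)⁻¹ *
        ∑ n ∈ range N, prodSeq φ u c q t n x) atTop (𝓝 0)}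
      ≤ ENNReal.ofReal (((d : ℝ) + 1) * ((k : ℝ) + 1) - 1 / (2 * ((96 * D : ℕ) : ℝ) + 4)) := by
  classical
  choose Lj hLj0 hLj using fun j => (hc j).lip
  set L : ℝ := ∑ j, Lj j with hLdef
  have hL : ∀ j, LipT (φ j) (c j) L := by
    intro j t x
    refine (hLj j t x).trans (mul_le_mul_of_nonneg_right ?_ (norm_nonneg _))
    exact Finset.single_le_sum (f := Lj) (fun i _ => hLj0 i) (Finset.mem_univ j)
  obtain ⟨i, S, hS⟩ := hj₀.dec
  have hcm : ∀ j, Measurable (c j) := fun j => (hc j).meas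
  have hc1 : ∀ j x, |c j x| ≤ 1 := fun j x => (hc j).bd x
  set Φ : (Fin (d + 1) → Vec k) → ℕ → Ω → ℝ := fun t r x =>
    ((((((r + 1) ^ 4) ^ 8) ^ 3 : ℕ) : ℝ))⁻¹ *
      ∑ n ∈ range ((((r + 1) ^ 4) ^ 8) ^ 3), prodSeq φ u c q t n x with hΦ
  have hΦm : ∀ t r, Measurable (Φ t r) := by
    intro t r
    refine Measurable.const_mul ?_ _
    refine Finset.measurable_fun_sum _ fun n _ => ?_
    exact (prodSeq_measurable hφ hu hcm q n).comp (measurable_const.prodMk measurable_id)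
  have hΦ1 : ∀ t r x, |Φ t r x| ≤ 1 := fun t r x =>
    avg_abs_le _ _ fun n => prodSeq_abs_le hu1 hc1 q t n x
  set G : ℕ → (Fin (d + 1) → Vec k) → ℝ := fun r t => ∫ x, (Φ t r x) ^ 2 ∂μ with hG
  have hdim := dim_le d k (96 * D) G (fun r t => integral_nonneg fun x => sq_nonneg _)
    (2 * (d + 1) * L * A') ?_ ?_
  · refine (dimH_mono ?_).trans hdim
    intro t ht hev
    apply ht
    have h1 := ae_zero (μ := μ) (Φ t) (hΦm t) (hΦ1 t) hev
    filter_upwards [h1] with x hx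
    refine fill 96 _ (fun n => prodSeq_abs_le hu1 hc1 q t n x) ?_ (by norm_num)
    have e1 : ∀ r : ℕ, (((r + 1) ^ 4) ^ 8) ^ 3 = (r + 1) ^ 96 := fun r => by
      rw [← pow_mul, ← pow_mul]
    have e2 : (fun r : ℕ => ((((r + 1) ^ 96 : ℕ) : ℝ))⁻¹ *
        ∑ n ∈ range ((r + 1) ^ 96), prodSeq φ u c q t n x) = fun r => Φ t r x := by
      funext r
      simp only [hΦ]
      rw [e1]
    rw [e2]
    exact hx
  · intro r t t'
    have h1 := lip_second hφ hu hu1 hcm hc1 hL hqD ((((r + 1) ^ 4) ^ 8) ^ 3)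
      (Nat.one_le_pow _ _ (Nat.pow_pos (Nat.pow_pos (Nat.succ_pos r)))) t t'
    refine h1.trans (le_of_eq ?_)
    have e3 : ∀ b : ℝ, (((b ^ 4) ^ 8) ^ 3) ^ D = b ^ (96 * D) := by
      intro b
      rw [← pow_mul, ← pow_mul, ← pow_mul]
      congr 1
      ring
    push_cast
    rw [e3]
  · intro κ
    obtain ⟨B, _, hB⟩ := box_le hφ hu hu1 hcm hc1 j₀ hS ha hq κ
    refine ⟨B, fun r => ?_⟩
    have h1 := hB ((r + 1) ^ 4) (Nat.one_le_pow _ _ (Nat.succ_pos r))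
    refine le_trans (le_of_eq ?_) (h1.trans (le_of_eq ?_))
    · rfl
    · push_cast
      ring

/-- One sided averages along polynomials. -/
theorem exc_side [IsProbabilityMeasure μ] {φ : Fin (d + 1) → Vec k → Ω → Ω}
    (hφ : ∀ j, IsFlow μ (φ j)) {w : ℕ → ℤ → Ω → ℝ} (hw : ∀ a n, Measurable (w a n))
    (hw1 : ∀ a n x, |w a n x| ≤ 1)
    {c : Fin (d + 1) → Ω → ℝ} (hc : ∀ j, Cls1 μ (φ j) (c j))
    (j₀ : Fin (d + 1)) (hj₀ : Cls μ (φ j₀) (c j₀)) {D : ℕ}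
    (P : Fin (d + 1) → Fin (k + 1) → Polynomial ℤ)
    (hP : ∀ j i, 1 ≤ (P j i).natDegree ∧ (P j i).natDegree ≤ D) :
    ∃ n₀ : ℕ, ∀ n₁ : ℕ, n₀ ≤ n₁ →
      dimH {t : Fin (d + 1) → Vec k | ¬ ∀ᵐ x ∂μ, Tendsto (fun N : ℕ => (N : ℝ)⁻¹ *
        ∑ n ∈ range N, (w n₁ n x *
          ∏ j, c j (φ j (t j * fun i => (((P j i).eval ((n₁ : ℤ) + n) : ℤ) : ℝ)) x)))
          atTop (𝓝 0)}
      ≤ ENNReal.ofReal (((d : ℝ) + 1) * ((k : ℝ) + 1) - 1 / (2 * ((96 * D : ℕ) : ℝ) + 4)) := by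
  classical
  choose n₀ hn₀ using fun i => grow_shift (P j₀ i) (hP j₀ i).1
  refine ⟨Finset.univ.sup n₀, fun n₁ hn₁ => ?_⟩
  choose a A ha hq using fun i => hn₀ i n₁
    ((Finset.le_sup (f := n₀) (Finset.mem_univ i)).trans hn₁)
  choose A' hA'0 hA' using fun j i => poly_bd (P j i) (hP j i).2 n₁
  obtain ⟨a₀, ha₀, ha₀'⟩ : ∃ a₀ : ℝ, 0 < a₀ ∧ ∀ i, a₀ ≤ a i := by
    refine ⟨Finset.univ.inf' Finset.univ_nonempty a, ?_, fun i =>
      Finset.inf'_le _ (Finset.mem_univ i)⟩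
    rw [Finset.lt_inf'_iff]
    exact fun i _ => ha i
  obtain ⟨A₀, hA₀⟩ : ∃ A₀ : ℝ, ∀ i, A i ≤ A₀ :=
    ⟨Finset.univ.sup' Finset.univ_nonempty A, fun i => Finset.le_sup' _ (Finset.mem_univ i)⟩
  have hq' : ∀ i, GrowInc (fun n => (((P j₀ i).eval ((n₁ : ℤ) + n) : ℤ) : ℝ)) a₀ A₀
      ((P j₀ i).natDegree - 1) := by
    intro i m n hmn
    have hmn' : (m : ℝ) < n := by exact_mod_cast hmn
    have hpos : 0 ≤ ((n : ℝ) - m) * ((n : ℝ) + 1) ^ ((P j₀ i).natDegree - 1) :=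
      mul_nonneg (by linarith) (by positivity)
    obtain ⟨h1, h2⟩ := hq i m n hmn
    constructor
    · refine le_trans ?_ h1
      rw [mul_assoc, mul_assoc]
      exact mul_le_mul_of_nonneg_right (ha₀' i) hpos
    · refine h2.trans ?_
      rw [mul_assoc, mul_assoc]
      exact mul_le_mul_of_nonneg_right (hA₀ i) hpos
  refine exc_seq hφ (u := fun n x => w n₁ n x)
    (fun n => hw _ _) (fun n x => hw1 _ _ _) hc j₀ hj₀
    (q := fun j n i => (((P j i).eval ((n₁ : ℤ) + n) : ℤ) : ℝ)) ha₀ hq'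
    (A' := ∑ j, ∑ i, A' j i) (D := D) ?_
  intro j n
  have hsum0 : 0 ≤ ∑ j, ∑ i, A' j i :=
    Finset.sum_nonneg fun j _ => Finset.sum_nonneg fun i _ => hA'0 j i
  rw [pi_norm_le_iff_of_nonneg (mul_nonneg hsum0 (by positivity))]
  intro i
  rw [Real.norm_eq_abs]
  refine (hA' j i n).trans (mul_le_mul_of_nonneg_right ?_ (by positivity))
  refine (Finset.single_le_sum (f := A' j) (fun i _ => hA'0 j i) (Finset.mem_univ i)).trans ?_
  exact Finset.single_le_sum (f := fun j => ∑ i, A' j i)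
    (fun j _ => Finset.sum_nonneg fun i _ => hA'0 j i) (Finset.mem_univ j)

/-- Two sided averages along polynomials, with arbitrary bounded weights. -/
theorem exc_gen [IsProbabilityMeasure μ] {φ : Fin (d + 1) → Vec k → Ω → Ω}
    (hφ : ∀ j, IsFlow μ (φ j)) {w : ℤ → Ω → ℝ} (hw : ∀ n, Measurable (w n))
    (hw1 : ∀ n x, |w n x| ≤ 1)
    {c : Fin (d + 1) → Ω → ℝ} (hc : ∀ j, Cls1 μ (φ j) (c j))
    (j₀ : Fin (d + 1)) (hj₀ : Cls μ (φ j₀) (c j₀)) {D : ℕ}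
    (P : Fin (d + 1) → Fin (k + 1) → Polynomial ℤ)
    (hP : ∀ j i, 1 ≤ (P j i).natDegree ∧ (P j i).natDegree ≤ D) :
    dimH {t : Fin (d + 1) → Vec k | ¬ ∀ᵐ x ∂μ, Tendsto (fun N : ℕ => av (fun n =>
        w n x * ∏ j, c j (φ j (t j * fun i => (((P j i).eval n : ℤ) : ℝ)) x)) N) atTop (𝓝 0)}
      ≤ ENNReal.ofReal (((d : ℝ) + 1) * ((k : ℝ) + 1) - 1 / (2 * ((96 * D : ℕ) : ℝ) + 4)) := by
  classical
  obtain ⟨a₀, ha₀⟩ := exc_side hφ (w := fun a n => w ((a : ℤ) + n)) (fun a n => hw _)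
    (fun a n x => hw1 _ _) hc j₀ hj₀ P hP
  obtain ⟨b₀, hb₀⟩ := exc_side hφ (w := fun a n => w (-((a : ℤ) + n))) (fun a n => hw _)
    (fun a n x => hw1 _ _) hc j₀ hj₀
    (fun j i => (P j i).comp (-Polynomial.X)) (fun j i => by
      rw [comp_neg_natDegree]
      exact hP j i)
  have h1 := ha₀ (max a₀ b₀) (le_max_left _ _)
  have h2 := hb₀ (max a₀ b₀) (le_max_right _ _)
  set n₁ := max a₀ b₀
  refine (dimH_mono ?_).trans ((dimH_union _ _).trans_le (max_le h1 h2))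
  intro t ht
  by_contra hcon
  rw [Set.mem_union, not_or] at hcon
  obtain ⟨h3, h4⟩ := hcon
  simp only [Set.mem_ofPred_eq, not_not] at h3 h4
  apply ht
  filter_upwards [h3, h4] with x hx1 hx2
  refine two_sided n₁ (fun n => w n x *
    ∏ j, c j (φ j (t j * fun i => (((P j i).eval n : ℤ) : ℝ)) x)) 1 ?_ hx1 ?_
  · intro n
    rw [abs_mul, Finset.abs_prod]
    exact mul_le_one₀ (hw1 _ _) (Finset.prod_nonneg fun _ _ => abs_nonneg _)
      (Finset.prod_le_one (fun _ _ => abs_nonneg _) fun j _ => (hc j).bd _)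
  · simp only [comp_neg_eval] at hx2
    exact hx2

end Pool.AEV
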