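import Pool.Agent.AET.Basic
import Pool.Agent.AEV.Exc
import Pool.Agent.AEV.Dens

/-!
# Basic families of functions
-/

set_option autoImplicit false

open MeasureTheory Set Filter Topology Finset
open Pool.AET (av av_const av_const_mul abs_av_le_const clip clip_abs_le clip_measurable
  sub_clip_abs_le trunc_dens)

namespace Pool.AEV

variable {k : ℕ} {Ω : Type*} [MeasurableSpace Ω] {μ : Measure Ω} {d : ℕ}

/-- The basic functions of a flow. -/
def Kf (μ : Measure Ω) (φ : Vec k → Ω → Ω) (H : Set (Ω → ℝ)) (v : Ω → ℝ) : Prop :=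
  v ∈ H ∨ (Measurable v ∧ (∀ x, |v x| ≤ 1) ∧ ∀ t, (fun x => v (φ t x)) =ᵐ[μ] v)

theorem Kf_dens [IsProbabilityMeasure μ] {φ : Vec k → Ω → Ω} {H : Set (Ω → ℝ)}
    (hH : ∀ c ∈ H, Cls μ φ c)
    (hd : ∀ f : Ω → ℝ, MemLp f 2 μ → ∀ ε : ℝ, 0 < ε →
        ∃ (n : ℕ) (r : Fin n → ℝ) (c : Fin n → Ω → ℝ) (g : Ω → ℝ),
          (∀ i, c i ∈ H) ∧ Measurable g ∧ MemLp g 2 μ ∧ (∀ t, (fun x => g (φ t x)) =ᵐ[μ] g) ∧
          ∫ x, (f x - ∑ i, r i * c i x - g x) ^ 2 ∂μ ≤ ε)
    (f : Ω → ℝ) (hf : Measurable f) (hfB : ∃ B : ℝ, ∀ x, |f x| ≤ B) (ε : ℝ) (hε : 0 < ε) :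
    ∃ (m : ℕ) (r : Fin m → ℝ) (v : Fin m → Ω → ℝ), (∀ l, Kf μ φ H (v l)) ∧
      ∫ x, (f x - ∑ l, r l * v l x) ^ 2 ∂μ ≤ ε := by
  obtain ⟨B, hB⟩ := hfB
  have hfL : MemLp f 2 μ := MemLp.of_bound hf.aestronglyMeasurable B
    (Filter.Eventually.of_forall fun x => by simpa using hB x)
  obtain ⟨n, r, c, g, hc, hgm, hgL, hginv, hint⟩ := hd f hfL (ε / 4) (by positivity)
  obtain ⟨K, hK, hK2⟩ := trunc_dens hgm hgL (show 0 < ε / 4 by positivity)
  refine ⟨n + 1, Fin.cons K r, Fin.cons (fun x => K⁻¹ * clip K (g x)) c, ?_, ?_⟩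
  · intro l
    refine Fin.cases ?_ (fun i => ?_) l
    · right
      rw [Fin.cons_zero]
      refine ⟨(clip_measurable K hgm).const_mul _, fun x => ?_, fun t => ?_⟩
      · rw [abs_mul, abs_inv, abs_of_pos hK, inv_mul_le_iff₀ hK, mul_one]
        exact clip_abs_le hK.le _
      · filter_upwards [hginv t] with x hx
        have hx' : g (φ t x) = g x := hx
        show K⁻¹ * clip K (g (φ t x)) = K⁻¹ * clip K (g x)
        rw [hx']
    · left
      rw [Fin.cons_succ]
      exact hc i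
  · have e1 : ∀ x, f x - ∑ l : Fin (n + 1), (Fin.cons K r : Fin (n + 1) → ℝ) l
        * (Fin.cons (fun x => K⁻¹ * clip K (g x)) c : Fin (n + 1) → Ω → ℝ) l x
        = (f x - ∑ i, r i * c i x - g x) + (g x - clip K (g x)) := by
      intro x
      rw [Fin.sum_univ_succ]
      simp only [Fin.cons_zero, Fin.cons_succ]
      rw [mul_inv_cancel_left₀ hK.ne']
      ring
    simp_rw [e1]
    have hsm : Measurable (fun x => ∑ i, r i * c i x) := by
      refine Finset.measurable_fun_sum _ fun l _ => ?_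
      exact (hH _ (hc l)).meas.const_mul _
    have hsb : ∀ x, |∑ i, r i * c i x| ≤ ∑ i, |r i| := by
      intro x
      refine (Finset.abs_sum_le_sum_abs _ _).trans (Finset.sum_le_sum fun l _ => ?_)
      rw [abs_mul]
      have := (hH _ (hc l)).bd x
      have h2 := mul_le_mul_of_nonneg_left this (abs_nonneg (r l))
      linarith
    have hsL : MemLp (fun x => ∑ i, r i * c i x) 2 μ :=
      MemLp.of_bound hsm.aestronglyMeasurable (∑ i, |r i|)
        (Filter.Eventually.of_forall fun x => by simpa using hsb x)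
    have hu : MemLp (fun x => f x - ∑ i, r i * c i x - g x) 2 μ := (hfL.sub hsL).sub hgL
    have hv : MemLp (fun x => g x - clip K (g x)) 2 μ := by
      refine hgL.mono (hgm.sub (clip_measurable _ hgm)).aestronglyMeasurable ?_
      refine Filter.Eventually.of_forall fun x => ?_
      rw [Real.norm_eq_abs, Real.norm_eq_abs]
      exact sub_clip_abs_le hK.le _
    have e2 : ∀ x, ((f x - ∑ i, r i * c i x - g x) + (g x - clip K (g x))) ^ 2
        ≤ 2 * (f x - ∑ i, r i * c i x - g x) ^ 2 + 2 * (g x - clip K (g x)) ^ 2 := by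
      intro x
      nlinarith [sq_nonneg ((f x - ∑ i, r i * c i x - g x) - (g x - clip K (g x)))]
    have i1 : Integrable (fun x => 2 * (f x - ∑ i, r i * c i x - g x) ^ 2) μ :=
      hu.integrable_sq.const_mul 2
    have i2 : Integrable (fun x => 2 * (g x - clip K (g x)) ^ 2) μ :=
      hv.integrable_sq.const_mul 2
    calc ∫ x, ((f x - ∑ i, r i * c i x - g x) + (g x - clip K (g x))) ^ 2 ∂μ
        ≤ ∫ x, (2 * (f x - ∑ i, r i * c i x - g x) ^ 2 + 2 * (g x - clip K (g x)) ^ 2) ∂μ :=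
          integral_mono (hu.add hv).integrable_sq (i1.add i2) e2
      _ = 2 * (∫ x, (f x - ∑ i, r i * c i x - g x) ^ 2 ∂μ)
          + 2 * ∫ x, (g x - clip K (g x)) ^ 2 ∂μ := by
          rw [integral_add i1 i2, integral_const_mul, integral_const_mul]
      _ ≤ ε := by linarith

theorem Kf_prop {φ : Vec k → Ω → Ω} {H : Set (Ω → ℝ)} (hH : ∀ c ∈ H, Cls μ φ c) {v : Ω → ℝ}
    (hv : Kf μ φ H v) : Measurable v ∧ ∀ x, |v x| ≤ 1 := by
  rcases hv with h | h
  · exact ⟨(hH v h).meas, (hH v h).bd⟩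
  · exact ⟨h.1, h.2.1⟩

theorem basic_conv {φ : Fin (d + 1) → Vec k → Ω → Ω} (s : Fin (d + 1) → ℤ → Vec k)
    (H : Fin (d + 1) → Set (Ω → ℝ)) (hH : ∀ j, ∀ c ∈ H j, Cls μ (φ j) c)
    {w : ℤ → Ω → ℝ} (hw1 : ∀ n x, |w n x| ≤ 1)
    (hgood : ∀ c : Fin (d + 1) → Ω → ℝ,
      (∀ j, c j ∈ insert (fun _ => (1 : ℝ)) (H j)) → (∃ j₀, c j₀ ∈ H j₀) →
      ∀ᵐ x ∂μ, Tendsto (fun N : ℕ => av (fun n => w n x * ∏ j, c j (φ j (s j n) x)) N)
        atTop (𝓝 0))
    (hgood1 : ∀ j, ∀ c ∈ H j, ∀ᵐ x ∂μ,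
      Tendsto (fun N : ℕ => av (fun n => c (φ j (s j n) x)) N) atTop (𝓝 0))
    {f : Fin (d + 1) → Ω → ℝ} (hf : ∀ j, Kf μ (φ j) (H j) (f j)) :
    ∀ᵐ x ∂μ, Tendsto (fun N : ℕ => av (fun n => w n x * ∏ j, f j (φ j (s j n) x)) N
        - av (fun n => w n x) N * ∏ j, av (fun n => f j (φ j (s j n) x)) N) atTop (𝓝 0) := by
  classical
  set c : Fin (d + 1) → Ω → ℝ := fun j => if f j ∈ H j then f j else fun _ => 1 with hc
  set g : Fin (d + 1) → Ω → ℝ := fun j => if f j ∈ H j then (fun _ => 1) else f j with hg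
  have hcg : ∀ j y, f j y = c j y * g j y := by
    intro j y
    simp only [hc, hg]
    split_ifs <;> simp
  have hc1 : ∀ j y, |c j y| ≤ 1 := by
    intro j y
    simp only [hc]
    split_ifs with h
    · exact (hH j _ h).bd y
    · simp
  have hcmem : ∀ j, c j ∈ insert (fun _ => (1 : ℝ)) (H j) := by
    intro j
    simp only [hc]
    split_ifs with h
    · exact Set.mem_insert_of_mem _ h
    · exact Set.mem_insert _ _
  have hginv : ∀ j (n : ℤ), ∀ᵐ x ∂μ, g j (φ j (s j n) x) = g j x := by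
    intro j n
    simp only [hg]
    split_ifs with h
    · exact Filter.Eventually.of_forall fun _ => rfl
    · rcases hf j with h2 | h2
      · exact absurd h2 h
      · exact h2.2.2 _
  have hginv' : ∀ᵐ x ∂μ, ∀ j (n : ℤ), g j (φ j (s j n) x) = g j x :=
    ae_all_iff.2 fun j => ae_all_iff.2 fun n => hginv j n
  have hfact : ∀ᵐ x ∂μ, ∀ N : ℕ, av (fun n => w n x * ∏ j, f j (φ j (s j n) x)) N
        - av (fun n => w n x) N * ∏ j, av (fun n => f j (φ j (s j n) x)) N
        = (∏ j, g j x) * (av (fun n => w n x * ∏ j, c j (φ j (s j n) x)) N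
        - av (fun n => w n x) N * ∏ j, av (fun n => c j (φ j (s j n) x)) N) := by
    filter_upwards [hginv'] with x hx
    intro N
    rw [mul_sub]
    congr 1
    · rw [← av_const_mul]
      congr 1
      funext n
      have : ∏ j, f j (φ j (s j n) x) = (∏ j, c j (φ j (s j n) x)) * ∏ j, g j x := by
        rw [← Finset.prod_mul_distrib]
        refine Finset.prod_congr rfl fun j _ => ?_
        rw [hcg, hx j n]
      rw [this]
      ring
    · have : ∏ j, av (fun n => f j (φ j (s j n) x)) N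
          = (∏ j, g j x) * ∏ j, av (fun n => c j (φ j (s j n) x)) N := by
        rw [← Finset.prod_mul_distrib]
        refine Finset.prod_congr rfl fun j _ => ?_
        rw [← av_const_mul]
        congr 1
        funext n
        rw [hcg, hx j n]
        ring
      rw [this]
      ring
  by_cases hex : ∃ j₀, f j₀ ∈ H j₀
  · obtain ⟨j₀, hj₀⟩ := hex
    have hcj₀ : c j₀ ∈ H j₀ := by
      simp only [hc]
      rw [if_pos hj₀]
      exact hj₀
    filter_upwards [hfact, hgood c hcmem ⟨j₀, hcj₀⟩, hgood1 j₀ _ hcj₀] with x hx0 hx1 hx2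
    simp_rw [hx0]
    have hsecond : Tendsto (fun N : ℕ => av (fun n => w n x) N *
          ∏ j, av (fun n => c j (φ j (s j n) x)) N) atTop (𝓝 0) := by
      apply squeeze_zero_norm _ (by simpa using hx2.abs)
      intro N
      rw [Real.norm_eq_abs, abs_mul, Finset.abs_prod,
        ← Finset.mul_prod_erase Finset.univ _ (Finset.mem_univ j₀)]
      have b1 : |av (fun n => w n x) N| ≤ 1 := abs_av_le_const (fun n => hw1 _ _) N
      have b2 : ∏ j ∈ Finset.univ.erase j₀, |av (fun n => c j (φ j (s j n) x)) N| ≤ 1 :=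
        Finset.prod_le_one (fun _ _ => abs_nonneg _) fun j _ =>
          abs_av_le_const (fun n => hc1 _ _) N
      have b3 : 0 ≤ ∏ j ∈ Finset.univ.erase j₀, |av (fun n => c j (φ j (s j n) x)) N| :=
        Finset.prod_nonneg fun _ _ => abs_nonneg _
      set X := |av (fun n => c j₀ (φ j₀ (s j₀ n) x)) N| with hX
      have hX0 : 0 ≤ X := abs_nonneg _
      calc _ ≤ 1 * (X * 1) := by
            apply mul_le_mul b1 _ (by positivity) zero_le_one
            exact mul_le_mul_of_nonneg_left b2 hX0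
        _ = X := by ring
    have := (hx1.sub hsecond).const_mul (∏ j, g j x)
    simpa using this
  · have hc' : ∀ j, c j = fun _ => 1 := by
      intro j
      simp only [hc]
      rw [if_neg]
      intro h
      exact hex ⟨j, h⟩
    filter_upwards [hfact] with x hx0
    simp_rw [hx0, hc']
    simp [av_const]

end Pool.AEV
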