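import Pool.Agent.AEV.Corr
import Pool.Agent.AET.Win

/-!
# The window average changes little with the dilation
-/

set_option autoImplicit false

open MeasureTheory Set

namespace Pool.AEV

variable {k : ℕ} {Ω : Type*} [MeasurableSpace Ω] {μ : Measure Ω} {φ : Vec k → Ω → Ω}

theorem fub_box (i : Fin (k + 1)) (u v : Vec k) (F : Vec k → ℝ) (hF : Measurable F)
    (h1 : ∀ y, |F y| ≤ 1) :
    ∫ a in Icc u v, F a = ∫ b in Icc (i.removeNth u) (i.removeNth v),
      ∫ s in Icc (u i) (v i), F (i.insertNth s b) := by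
  have hfin : volume (Icc u v) < ⊤ := by
    rw [Real.volume_Icc_pi]
    exact ENNReal.prod_lt_top fun j _ => ENNReal.ofReal_lt_top
  have hint : Integrable ((Icc u v).indicator F) volume := by
    rw [integrable_indicator_iff measurableSet_Icc]
    have : IsFiniteMeasure (volume.restrict (Icc u v)) :=
      ⟨by rwa [Measure.restrict_apply_univ]⟩
    exact Pool.AET.integrable_bd hF 1 h1
  have hmp := (volume_preserving_piFinSuccAbove (fun _ : Fin (k + 1) => ℝ) i).symm
  rw [← integral_indicator measurableSet_Icc, ← hmp.integral_comp']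
  have hint2 : Integrable (fun z : ℝ × (Fin k → ℝ) => (Icc u v).indicator F
      ((MeasurableEquiv.piFinSuccAbove (fun _ : Fin (k + 1) => ℝ) i).symm z))
      (volume.prod volume) := by
    have := hmp.integrable_comp_emb (MeasurableEquiv.measurableEmbedding _) (g := (Icc u v).indicator F)
    exact this.2 hint
  rw [show (volume : Measure (ℝ × (Fin k → ℝ))) = volume.prod volume from rfl]
  rw [integral_prod_symm _ hint2, ← integral_indicator measurableSet_Icc]
  refine integral_congr_ae (Filter.Eventually.of_forall fun b => ?_)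
  have hmem : ∀ s : ℝ, (i.insertNth s b : Vec k) ∈ Icc u v ↔
      s ∈ Icc (u i) (v i) ∧ b ∈ Icc (i.removeNth u) (i.removeNth v) := by
    intro s
    rw [mem_Icc, Fin.insertNth_le_iff, Fin.le_insertNth_iff, mem_Icc, mem_Icc]
    tauto
  by_cases hb : b ∈ Icc (i.removeNth u) (i.removeNth v)
  · rw [indicator_of_mem hb, ← integral_indicator measurableSet_Icc]
    refine integral_congr_ae (Filter.Eventually.of_forall fun s => ?_)
    change (Icc u v).indicator F (i.insertNth s b) = _
    by_cases hs : s ∈ Icc (u i) (v i)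
    · rw [indicator_of_mem hs, indicator_of_mem ((hmem s).2 ⟨hs, hb⟩)]
    · rw [indicator_of_notMem hs, indicator_of_notMem]
      exact fun h => hs ((hmem s).1 h).1
  · rw [indicator_of_notMem hb]
    have : (fun s : ℝ => (Icc u v).indicator F
        ((MeasurableEquiv.piFinSuccAbove (fun _ : Fin (k + 1) => ℝ) i).symm (s, b))) = fun _ => 0 := by
      funext s
      change (Icc u v).indicator F (i.insertNth s b) = _
      rw [indicator_of_notMem]
      exact fun h => hb ((hmem s).1 h).2
    change ∫ s : ℝ, (Icc u v).indicator F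
        ((MeasurableEquiv.piFinSuccAbove (fun _ : Fin (k + 1) => ℝ) i).symm (s, b)) = 0
    rw [this]
    simp

theorem one_step (i : Fin (k + 1)) (u v : Vec k) (G : Vec k → ℝ) (hG : Measurable G)
    (h1 : ∀ y, |G y| ≤ 1) {R : ℝ} (huv : u ≤ v) (huv1 : ∀ j, v j - u j ≤ 1)
    (hu : |u i| ≤ R) (hv : |v i| ≤ R) (D E : Vec k) (hE : E i ≠ 0) (hDE : ∀ j, j ≠ i → D j = E j) :
    |(∫ a in Icc u v, G (a * D)) - ∫ a in Icc u v, G (a * E)| ≤ 4 * R * |D i - E i| / |E i| := by
  have hR : 0 ≤ R := (abs_nonneg _).trans hu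
  have hK : 0 ≤ 4 * R * |D i - E i| / |E i| := by positivity
  rw [fub_box i u v (fun a => G (a * D)) (hG.comp (by fun_prop)) (fun y => h1 _),
    fub_box i u v (fun a => G (a * E)) (hG.comp (by fun_prop)) (fun y => h1 _)]
  set B : Set (Fin k → ℝ) := Icc (i.removeNth u) (i.removeNth v) with hB
  have hvol : volume B ≤ 1 := by
    rw [hB, Real.volume_Icc_pi]
    refine Finset.prod_le_one' fun j _ => ?_
    rw [← ENNReal.ofReal_one]
    exact ENNReal.ofReal_le_ofReal (huv1 _)
  have hfin : IsFiniteMeasure (volume.restrict B) :=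
    ⟨by rw [Measure.restrict_apply_univ]; exact lt_of_le_of_lt hvol ENNReal.one_lt_top⟩
  have hmeas : ∀ D : Vec k, Measurable (fun z : (Fin k → ℝ) × ℝ => G (i.insertNth z.2 z.1 * D)) := by
    intro D
    refine hG.comp ?_
    have : Measurable (fun z : (Fin k → ℝ) × ℝ => (i.insertNth z.2 z.1 : Vec k)) :=
      (MeasurableEquiv.piFinSuccAbove (fun _ : Fin (k + 1) => ℝ) i).symm.measurable.comp
        (measurable_snd.prodMk measurable_fst)
    exact this.mul_const _
  have hI : ∀ D : Vec k, Integrable (fun b => ∫ s in Icc (u i) (v i), G (i.insertNth s b * D))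
      (volume.restrict B) := by
    intro D
    refine Integrable.of_bound (C := v i - u i) ?_ (Filter.Eventually.of_forall fun b => ?_)
    · exact ((hmeas D).stronglyMeasurable.integral_prod_right).aestronglyMeasurable
    · have := norm_setIntegral_le_of_norm_le_const (μ := volume) (s := Icc (u i) (v i)) (C := 1)
        (f := fun s => G (i.insertNth s b * D)) (by simp) (fun s _ => by simpa using h1 _)
      simpa [Real.volume_real_Icc_of_le (huv i)] using this
  rw [← integral_sub (hI D) (hI E)]
  have hb : ∀ b ∈ B, ‖(∫ s in Icc (u i) (v i), G (i.insertNth s b * D))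
      - ∫ s in Icc (u i) (v i), G (i.insertNth s b * E)‖ ≤ 4 * R * |D i - E i| / |E i| := by
    intro b _
    have e : ∀ D' : Vec k, (∀ j, j ≠ i → D' j = E j) → ∀ s : ℝ,
        (i.insertNth s b * D' : Vec k) = i.insertNth (s * D' i) (b * i.removeNth E) := by
      intro D' hD' s
      funext j
      rcases Fin.eq_self_or_eq_succAbove i j with rfl | ⟨j, rfl⟩
      · simp
      · simp only [Pi.mul_apply, Fin.insertNth_apply_succAbove]
        rw [hD' _ (Fin.succAbove_ne i j)]
        rfl
    simp only [e D hDE, e E (fun _ _ => rfl)]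
    rw [integral_Icc_eq_integral_Ioc, integral_Icc_eq_integral_Ioc,
      ← intervalIntegral.integral_of_le (huv i), ← intervalIntegral.integral_of_le (huv i)]
    refine Pool.AET.window_le (fun y => G (i.insertNth y (b * i.removeNth E))) ?_ (fun y => h1 _)
      hu hv (D i) (E i) hE
    refine hG.comp ?_
    exact (MeasurableEquiv.piFinSuccAbove (fun _ : Fin (k + 1) => ℝ) i).symm.measurable.comp
        (measurable_id.prodMk measurable_const)
  have := norm_setIntegral_le_of_norm_le_const (μ := volume) (lt_of_le_of_lt hvol ENNReal.one_lt_top) hb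
  refine this.trans ?_
  have h2 : volume.real B ≤ 1 := by
    rw [Measure.real]
    exact ENNReal.toReal_le_of_le_ofReal zero_le_one (by simpa using hvol)
  calc _ ≤ 4 * R * |D i - E i| / |E i| * 1 := by gcongr
    _ = _ := mul_one _

theorem all_steps (u v : Vec k) (G : Vec k → ℝ) (hG : Measurable G)
    (h1 : ∀ y, |G y| ≤ 1) {R : ℝ} (huv : u ≤ v) (huv1 : ∀ j, v j - u j ≤ 1)
    (hu : ∀ i, |u i| ≤ R) (hv : ∀ i, |v i| ≤ R) (D E : Vec k) (hE : ∀ i, E i ≠ 0)
    (s : Finset (Fin (k + 1))) :
    |(∫ a in Icc u v, G (a * D)) - ∫ a in Icc u v, G (a * s.piecewise E D)|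
      ≤ ∑ i ∈ s, 4 * R * |D i - E i| / |E i| := by
  induction s using Finset.induction_on with
  | empty => simp
  | insert i s his ih =>
    rw [Finset.sum_insert his]
    have h2 := one_step i u v G hG h1 huv huv1 (hu i) (hv i) (s.piecewise E D)
      ((insert i s).piecewise E D) (by simpa using hE i) (fun j hj => by
        by_cases hjs : j ∈ s
        · rw [Finset.piecewise_eq_of_mem _ _ _ hjs,
            Finset.piecewise_eq_of_mem _ _ _ (Finset.mem_insert_of_mem hjs)]
        · rw [Finset.piecewise_eq_of_notMem _ _ _ hjs,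
            Finset.piecewise_eq_of_notMem]
          simp [hj, hjs])
    rw [Finset.piecewise_eq_of_notMem _ _ _ his,
      Finset.piecewise_eq_of_mem _ _ _ (Finset.mem_insert_self i s)] at h2
    calc _ ≤ |(∫ a in Icc u v, G (a * D)) - ∫ a in Icc u v, G (a * s.piecewise E D)|
          + |(∫ a in Icc u v, G (a * s.piecewise E D))
            - ∫ a in Icc u v, G (a * (insert i s).piecewise E D)| := abs_sub_le _ _ _
      _ ≤ _ := by linarith

omit [MeasurableSpace Ω] in
theorem wnd_box (f : Ω → ℝ) (α p D g : Vec k) (x : Ω) :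
    wnd φ f α p D g x = ∫ a in Icc (α ⊔ (α - g)) ((α + 1) ⊓ (α + 1 - g)),
      f (φ (-(a * D)) x) * f (φ (g * p - a * D) x) := by
  classical
  unfold wnd
  have hS : Icc (α ⊔ (α - g)) ((α + 1) ⊓ (α + 1 - g))
      = Icc α (α + 1) ∩ {a | a + g ∈ Icc α (α + 1)} := by
    ext a
    simp only [mem_Icc, sup_le_iff, le_inf_iff, mem_inter_iff, mem_ofPred_eq, sub_le_iff_le_add,
      le_sub_iff_add_le]
    tauto
  have hm : MeasurableSet {a : Vec k | a + g ∈ Icc α (α + 1)} :=
    (measurable_id.add_const g) measurableSet_Icc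
  rw [hS, ← setIntegral_indicator hm]
  refine integral_congr_ae (Filter.Eventually.of_forall fun a => ?_)
  by_cases ha : a + g ∈ Icc α (α + 1)
  · have ha' : a ∈ {a | a + g ∈ Icc α (α + 1)} := ha
    simp only [indicator_of_mem ha', if_pos ha]
  · have ha' : a ∉ {a | a + g ∈ Icc α (α + 1)} := ha
    simp only [indicator_of_notMem ha', if_neg ha]

theorem wnd_sub_le (h : IsFlow μ φ) {f : Ω → ℝ} (hf : Measurable f) (hf1 : ∀ x, |f x| ≤ 1)
    (α p D E g : Vec k) (hE : ∀ i, E i ≠ 0) (hg : g ∈ Icc (-1 : Vec k) 1) (x : Ω) :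
    |wnd φ f α p D g x - wnd φ f α p E g x|
      ≤ 4 * (‖α‖ + 2) * ∑ i, |D i - E i| / |E i| := by
  rw [wnd_box, wnd_box]
  set G : Vec k → ℝ := fun r => f (φ (-r) x) * f (φ (g * p - r) x) with hG
  have hGm : Measurable G := by
    refine (h.meas_comp hf ?_ measurable_const).mul (h.meas_comp hf ?_ measurable_const) <;> fun_prop
  have hG1 : ∀ r, |G r| ≤ 1 := by
    intro r
    rw [hG]
    simp only [abs_mul]
    exact mul_le_one₀ (hf1 _) (abs_nonneg _) (hf1 _)
  have hg1 : ∀ i, -1 ≤ g i := fun i => hg.1 i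
  have hg2 : ∀ i, g i ≤ 1 := fun i => hg.2 i
  have hα : ∀ i, -‖α‖ ≤ α i ∧ α i ≤ ‖α‖ := fun i => abs_le.1 (norm_le_pi_norm α i)
  have h3 := all_steps (α ⊔ (α - g)) ((α + 1) ⊓ (α + 1 - g)) G hGm hG1 (R := ‖α‖ + 2)
    (by
      intro i
      simp only [Pi.sup_apply, Pi.inf_apply, Pi.sub_apply, Pi.add_apply, Pi.one_apply]
      rw [sup_le_iff, le_inf_iff, le_inf_iff]
      refine ⟨⟨by linarith, by linarith [hg2 i]⟩, by linarith [hg1 i], by linarith⟩)
    (by
      intro i
      simp only [Pi.sup_apply, Pi.inf_apply, Pi.sub_apply, Pi.add_apply, Pi.one_apply]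
      linarith [inf_le_left (a := α i + 1) (b := α i + 1 - g i),
        le_sup_left (a := α i) (b := α i - g i)])
    (by
      intro i
      simp only [Pi.sup_apply, Pi.sub_apply]
      rw [abs_le]
      constructor
      · linarith [le_sup_left (a := α i) (b := α i - g i), (hα i).1]
      · rw [sup_le_iff]
        constructor <;> linarith [hg1 i, (hα i).2])
    (by
      intro i
      simp only [Pi.inf_apply, Pi.sub_apply, Pi.add_apply, Pi.one_apply]
      rw [abs_le]
      constructor
      · rw [le_inf_iff]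
        constructor <;> linarith [hg2 i, (hα i).1]
      · linarith [inf_le_left (a := α i + 1) (b := α i + 1 - g i), (hα i).2])
    D E hE Finset.univ
  rw [Finset.piecewise_univ] at h3
  refine h3.trans (le_of_eq ?_)
  rw [Finset.mul_sum]
  exact Finset.sum_congr rfl fun i _ => by ring

end Pool.AEV
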