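import Pool.Agent.AEV.SqCorr
import Pool.Agent.AEV.WndSub
import Pool.Agent.AET.Block

/-!
# The block estimate
-/

set_option autoImplicit false

open MeasureTheory Set Finset
open Pool.AET (integrable_bd abs_integral_bd cs_bd harm_two)

namespace Pool.AEV

variable {k : ℕ} {Ω : Type*} [MeasurableSpace Ω] {μ : Measure Ω} {φ : Vec k → Ω → Ω}

theorem Dec.nonneg {f : Ω → ℝ} {i : Fin (k + 1)} {S : ℝ} (hS : Dec μ φ f i S) : 0 ≤ S := by
  have h := hS 1 (by simp)
  have h2 := (abs_nonneg _).trans h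
  simpa using h2

theorem real_box2 : (volume.restrict (Icc (-1 : Vec k) 1)).real univ = 2 ^ (k + 1) := by
  rw [measureReal_def, Measure.restrict_apply_univ, vol_box2]
  simp

/-- The second moment of the sum over the block. -/
theorem block_sq [IsProbabilityMeasure μ] (h : IsFlow μ φ) {f : Ω → ℝ} (hf : Measurable f)
    (hf1 : ∀ x, |f x| ≤ 1) {i : Fin (k + 1)} {S : ℝ} (hS : Dec μ φ f i S) (q : ℕ → Vec k)
    (K : ℕ) {c : ℝ} (hc : 0 < c)
    (hsep : ∀ m < K, ∀ l < K, c * |(m : ℝ) - l| ≤ |q m i - q l i|) :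
    ∫ g in Icc (-1 : Vec k) 1, ∫ x, (∑ m ∈ range K, f (φ (g * q m) x)) ^ 2 ∂μ
      ≤ 2 ^ (k + 1) * K + 4 * (S / c) * K * Real.sqrt K := by
  have hfin := isFin_box2 (k := k)
  have hS0 : 0 ≤ S := hS.nonneg
  have hmg : ∀ (g : Vec k) m, Measurable (fun x : Ω => f (φ (g * q m) x)) := fun g m =>
    h.meas_comp hf measurable_const measurable_id
  have hb : ∀ (g : Vec k) m l x, |f (φ (g * q m) x) * f (φ (g * q l) x)| ≤ 1 := by
    intro g m l x
    rw [abs_mul]
    exact mul_le_one₀ (hf1 _) (abs_nonneg _) (hf1 _)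
  have h1 : ∀ g : Vec k, ∫ x, (∑ m ∈ range K, f (φ (g * q m) x)) ^ 2 ∂μ
      = ∑ m ∈ range K, ∑ l ∈ range K, ∫ x, f x * f (φ (g * (q l - q m)) x) ∂μ := by
    intro g
    have h2 : ∀ x, (∑ m ∈ range K, f (φ (g * q m) x)) ^ 2
        = ∑ m ∈ range K, ∑ l ∈ range K, f (φ (g * q m) x) * f (φ (g * q l) x) := by
      intro x
      rw [sq, Finset.sum_mul_sum]
    simp_rw [h2]
    rw [integral_finsetSum]
    · refine Finset.sum_congr rfl fun m _ => ?_
      rw [integral_finsetSum]
      · refine Finset.sum_congr rfl fun l _ => ?_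
        rw [← h.integral_comp (g * q m) (g := fun x => f x * f (φ (g * (q l - q m)) x))
          (hf.mul (h.meas_comp hf measurable_const measurable_id))]
        refine integral_congr_ae (Filter.Eventually.of_forall fun x => ?_)
        simp only
        rw [← h.add]
        have r : g * (q l - q m) + g * q m = g * q l := by ring
        rw [r]
      · intro l _
        exact integrable_bd ((hmg g m).mul (hmg g l)) 1 (hb g m l)
    · intro m _
      apply integrable_finsetSum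
      intro l _
      exact integrable_bd ((hmg g m).mul (hmg g l)) 1 (hb g m l)
  simp_rw [h1]
  have hint : ∀ m l, Integrable (fun g : Vec k => ∫ x, f x * f (φ (g * (q l - q m)) x) ∂μ)
      (volume.restrict (Icc (-1 : Vec k) 1)) := by
    intro m l
    refine integrable_bd ?_ 1 ?_
    · have : Measurable (fun z : Vec k × Ω => f z.2 * f (φ (z.1 * (q l - q m)) z.2)) :=
        (hf.comp measurable_snd).mul (h.meas_comp hf (by fun_prop) measurable_snd)
      exact (this.stronglyMeasurable.integral_prod_right).measurable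
    · intro g
      apply abs_integral_bd
      intro x
      rw [abs_mul]
      exact mul_le_one₀ (hf1 _) (abs_nonneg _) (hf1 _)
  rw [integral_finsetSum _ (fun m _ => integrable_finsetSum _ fun l _ => hint m l)]
  simp_rw [integral_finsetSum _ (fun l (_ : l ∈ range K) => hint _ l)]
  have h3 : ∀ m ∈ range K, ∀ l ∈ range K,
      ∫ g in Icc (-1 : Vec k) 1, ∫ x, f x * f (φ (g * (q l - q m)) x) ∂μ
        ≤ (if m = l then (2 : ℝ) ^ (k + 1) else 0)
          + (S / c) * (if m = l then (0 : ℝ) else 1 / |(m : ℝ) - l|) := by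
    intro m hm l hl
    rw [Finset.mem_range] at hm hl
    by_cases hml : m = l
    · subst hml
      rw [if_pos rfl, if_pos rfl]
      have h4 : ∀ g : Vec k, ∫ x, f x * f (φ (g * (q m - q m)) x) ∂μ ≤ 1 := by
        intro g
        refine (le_abs_self _).trans (abs_integral_bd 1 fun x => ?_)
        rw [abs_mul]
        exact mul_le_one₀ (hf1 _) (abs_nonneg _) (hf1 _)
      have h5 := integral_mono (hint m m) (integrable_const (1 : ℝ)) h4
      rw [integral_const, real_box2, smul_eq_mul, mul_one] at h5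
      rw [mul_zero, add_zero]
      exact h5
    · rw [if_neg hml, if_neg hml]
      have hml' : (m : ℝ) ≠ l := by exact_mod_cast hml
      have h4 : 0 < |(m : ℝ) - l| := abs_pos.2 (sub_ne_zero.2 hml')
      have h5 := hsep m hm l hl
      have h6 : 0 < |q m i - q l i| := lt_of_lt_of_le (by positivity) h5
      have h7 : (q l - q m) i ≠ 0 := by
        intro h8
        rw [Pi.sub_apply] at h8
        have : q m i - q l i = 0 := by linarith
        rw [this] at h6
        simp at h6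
      have h8 := hS (q l - q m) h7
      rw [Pi.sub_apply, abs_sub_comm (q l i) (q m i)] at h8
      refine (le_abs_self _).trans (h8.trans ?_)
      rw [zero_add, div_mul_div_comm, mul_one]
      exact div_le_div_of_nonneg_left hS0 (by positivity) h5
  calc _ ≤ ∑ m ∈ range K, ∑ l ∈ range K, ((if m = l then (2 : ℝ) ^ (k + 1) else 0)
          + (S / c) * (if m = l then (0 : ℝ) else 1 / |(m : ℝ) - l|)) :=
        Finset.sum_le_sum fun m hm => Finset.sum_le_sum fun l hl => h3 m hm l hl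
    _ = 2 ^ (k + 1) * K + (S / c) * ∑ m ∈ range K, ∑ l ∈ range K,
          (if m = l then (0 : ℝ) else 1 / |(m : ℝ) - l|) := by
        simp_rw [Finset.sum_add_distrib, ← Finset.mul_sum]
        congr 1
        have : ∀ m ∈ range K, ∑ l ∈ range K, (if m = l then (2 : ℝ) ^ (k + 1) else 0)
            = 2 ^ (k + 1) := by
          intro m hm
          rw [Finset.sum_ite_eq, if_pos hm]
        rw [Finset.sum_congr rfl this, Finset.sum_const, card_range, nsmul_eq_mul]
        ring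
    _ ≤ _ := by
        have := mul_le_mul_of_nonneg_left (harm_two K) (div_nonneg hS0 hc.le)
        nlinarith

theorem block_le [IsProbabilityMeasure μ] (h : IsFlow μ φ) {f : Ω → ℝ} (hf : Measurable f)
    (hf1 : ∀ x, |f x| ≤ 1) {i : Fin (k + 1)} {S : ℝ} (hS : Dec μ φ f i S) (α p : Vec k)
    (q : ℕ → Vec k) (K : ℕ) {c η : ℝ} (hc : 0 < c) (_hη : 0 ≤ η)
    (hsep : ∀ m < K, ∀ l < K, c * |(m : ℝ) - l| ≤ |q m i - q l i|)
    (hclose : ∀ m < K, ∀ j, |q m j - q 0 j| ≤ η * |q 0 j - p j|) (hne : ∀ j, q 0 j - p j ≠ 0) :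
    ∑ m ∈ range K, ∫ x, (corr φ f α p (q m) x) ^ 2 ∂μ
      ≤ Real.sqrt (2 ^ (k + 1) * (2 ^ (k + 1) * K + 4 * (S / c) * K * Real.sqrt K))
        + 2 ^ (k + 1) * (4 * (‖α‖ + 2)) * (k + 1) * η * K := by
  set ν : Measure (Vec k) := volume.restrict (Icc (-1 : Vec k) 1) with hν
  have hνf : IsFiniteMeasure ν := isFin_box2
  set κ : Measure (Vec k × Ω) := ν.prod μ with hκ
  have hκu : κ.real univ = 2 ^ (k + 1) := by
    rw [hκ, ← univ_prod_univ, measureReal_prod_prod, hν, real_box2]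
    simp
  have hmk : ∀ m, Measurable (fun z : Vec k × Ω => f (φ (z.1 * q m) z.2)) := fun m =>
    h.meas_comp hf (by fun_prop) measurable_snd
  have hw : ∀ D, Measurable (fun z : Vec k × Ω => wnd φ f α p D z.1 z.2) := fun D =>
    wnd_measurable h hf α p D
  have hfz : Measurable (fun z : Vec k × Ω => f z.2) := hf.comp measurable_snd
  -- the terms
  have hT1 : ∀ m D, ∀ z : Vec k × Ω,
      |f z.2 * f (φ (z.1 * q m) z.2) * wnd φ f α p D z.1 z.2| ≤ 1 := by
    intro m D z
    rw [abs_mul, abs_mul]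
    exact mul_le_one₀ (mul_le_one₀ (hf1 _) (abs_nonneg _) (hf1 _)) (abs_nonneg _)
      (wnd_abs_le hf1 _ _ _ _ _)
  have hTi : ∀ m D, Integrable (fun z : Vec k × Ω =>
      f z.2 * f (φ (z.1 * q m) z.2) * wnd φ f α p D z.1 z.2) κ := fun m D =>
    integrable_bd ((hfz.mul (hmk m)).mul (hw D)) 1 (hT1 m D)
  have e1 : ∀ m, ∫ x, (corr φ f α p (q m) x) ^ 2 ∂μ
      = ∫ z, f z.2 * f (φ (z.1 * q m) z.2) * wnd φ f α p (q m - p) z.1 z.2 ∂κ := by
    intro m
    rw [sq_corr h hf hf1 α p (q m), hκ, integral_prod _ (hTi m (q m - p))]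
  have e2 : ∀ m < K, ∫ z, f z.2 * f (φ (z.1 * q m) z.2) * wnd φ f α p (q m - p) z.1 z.2 ∂κ
      ≤ (∫ z, f z.2 * f (φ (z.1 * q m) z.2) * wnd φ f α p (q 0 - p) z.1 z.2 ∂κ)
        + 2 ^ (k + 1) * (4 * (‖α‖ + 2)) * (k + 1) * η := by
    intro m hm
    have h1 : (∫ z, f z.2 * f (φ (z.1 * q m) z.2) * wnd φ f α p (q m - p) z.1 z.2 ∂κ)
        - (∫ z, f z.2 * f (φ (z.1 * q m) z.2) * wnd φ f α p (q 0 - p) z.1 z.2 ∂κ)
        = ∫ z, f z.2 * f (φ (z.1 * q m) z.2) * (wnd φ f α p (q m - p) z.1 z.2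
            - wnd φ f α p (q 0 - p) z.1 z.2) ∂κ := by
      rw [← integral_sub (hTi _ _) (hTi _ _)]
      refine integral_congr_ae (Filter.Eventually.of_forall fun z => ?_)
      simp only
      ring
    have h2 : ∀ᵐ z ∂κ, f z.2 * f (φ (z.1 * q m) z.2) * (wnd φ f α p (q m - p) z.1 z.2
            - wnd φ f α p (q 0 - p) z.1 z.2) ≤ 4 * (‖α‖ + 2) * ((k + 1) * η) := by
      have h3 : ∀ᵐ z ∂κ, z.1 ∈ Icc (-1 : Vec k) 1 := by
        have h4 : ∀ᵐ g ∂ν, g ∈ Icc (-1 : Vec k) 1 := ae_restrict_mem measurableSet_Icc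
        exact (Measure.quasiMeasurePreserving_fst (μ := ν) (ν := μ)).ae h4
      filter_upwards [h3] with z hz
      have h5 := wnd_sub_le h hf hf1 α p (q m - p) (q 0 - p) z.1
        (fun j => by rw [Pi.sub_apply]; exact hne j) hz z.2
      have h6 : ∑ j, |(q m - p) j - (q 0 - p) j| / |(q 0 - p) j| ≤ (k + 1) * η := by
        have h7 : ∀ j ∈ (Finset.univ : Finset (Fin (k + 1))),
            |(q m - p) j - (q 0 - p) j| / |(q 0 - p) j| ≤ η := by
          intro j _
          simp only [Pi.sub_apply]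
          have : q m j - p j - (q 0 j - p j) = q m j - q 0 j := by ring
          rw [this, div_le_iff₀ (abs_pos.2 (hne j))]
          exact hclose m hm j
        refine (Finset.sum_le_sum h7).trans (le_of_eq ?_)
        rw [Finset.sum_const, Finset.card_univ, Fintype.card_fin, nsmul_eq_mul]
        push_cast
        ring
      have h8 : 4 * (‖α‖ + 2) * ∑ j, |(q m - p) j - (q 0 - p) j| / |(q 0 - p) j|
          ≤ 4 * (‖α‖ + 2) * ((k + 1) * η) :=
        mul_le_mul_of_nonneg_left h6 (by positivity)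
      refine (le_abs_self _).trans ?_
      rw [abs_mul, abs_mul]
      calc |f z.2| * |f (φ (z.1 * q m) z.2)| * |wnd φ f α p (q m - p) z.1 z.2
            - wnd φ f α p (q 0 - p) z.1 z.2|
          ≤ 1 * |wnd φ f α p (q m - p) z.1 z.2 - wnd φ f α p (q 0 - p) z.1 z.2| :=
            mul_le_mul_of_nonneg_right (mul_le_one₀ (hf1 _) (abs_nonneg _) (hf1 _))
              (abs_nonneg _)
        _ ≤ 4 * (‖α‖ + 2) * ((k + 1) * η) := by
            rw [one_mul]
            exact h5.trans h8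
    have h9 : ∫ z, f z.2 * f (φ (z.1 * q m) z.2) * (wnd φ f α p (q m - p) z.1 z.2
            - wnd φ f α p (q 0 - p) z.1 z.2) ∂κ ≤ ∫ _, 4 * (‖α‖ + 2) * ((k + 1) * η) ∂κ := by
      refine integral_mono_ae ?_ (integrable_const _) h2
      have : (fun z : Vec k × Ω => f z.2 * f (φ (z.1 * q m) z.2) *
            (wnd φ f α p (q m - p) z.1 z.2
            - wnd φ f α p (q 0 - p) z.1 z.2)) = fun z =>
            f z.2 * f (φ (z.1 * q m) z.2) * wnd φ f α p (q m - p) z.1 z.2
            - f z.2 * f (φ (z.1 * q m) z.2) * wnd φ f α p (q 0 - p) z.1 z.2 := by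
        funext z
        ring
      rw [this]
      exact (hTi _ _).sub (hTi _ _)
    rw [integral_const, hκu, smul_eq_mul] at h9
    have h10 : (2 : ℝ) ^ (k + 1) * (4 * (‖α‖ + 2) * ((k + 1) * η))
        = 2 ^ (k + 1) * (4 * (‖α‖ + 2)) * (k + 1) * η := by ring
    rw [h10] at h9
    linarith
  -- the main term
  set F : Vec k × Ω → ℝ := fun z => ∑ m ∈ range K, f (φ (z.1 * q m) z.2) with hF
  have hFm : Measurable F := Finset.measurable_fun_sum _ fun m _ => hmk m
  have hFb : ∀ z, |F z| ≤ K := by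
    intro z
    calc |F z| ≤ ∑ m ∈ range K, |f (φ (z.1 * q m) z.2)| := Finset.abs_sum_le_sum_abs _ _
      _ ≤ ∑ m ∈ range K, (1 : ℝ) := Finset.sum_le_sum fun m _ => hf1 _
      _ = K := by simp
  have e3 : ∑ m ∈ range K, ∫ z, f z.2 * f (φ (z.1 * q m) z.2) * wnd φ f α p (q 0 - p) z.1 z.2 ∂κ
      ≤ ∫ z, |F z| ∂κ := by
    rw [← integral_finsetSum _ fun m _ => hTi m _]
    refine integral_mono (integrable_finsetSum _ fun m _ => hTi m _) ?_ ?_
    · exact integrable_bd hFm.abs K fun z => by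
        rw [abs_abs]
        exact hFb z
    · intro z
      simp only
      have h1 : ∑ m ∈ range K, f z.2 * f (φ (z.1 * q m) z.2) * wnd φ f α p (q 0 - p) z.1 z.2
          = f z.2 * wnd φ f α p (q 0 - p) z.1 z.2 * F z := by
        rw [hF, Finset.mul_sum]
        refine Finset.sum_congr rfl fun m _ => ?_
        ring
      rw [h1]
      refine (le_abs_self _).trans ?_
      rw [abs_mul, abs_mul]
      calc |f z.2| * |wnd φ f α p (q 0 - p) z.1 z.2| * |F z| ≤ 1 * |F z| :=
            mul_le_mul_of_nonneg_right (mul_le_one₀ (hf1 _) (abs_nonneg _)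
              (wnd_abs_le hf1 _ _ _ _ _)) (abs_nonneg _)
        _ = |F z| := one_mul _
  have e4 : (∫ z, |F z| ∂κ) ^ 2
      ≤ 2 ^ (k + 1) * (2 ^ (k + 1) * K + 4 * (S / c) * K * Real.sqrt K) := by
    have h1 := cs_bd (κ := κ) hFm K hFb
    have h2 : ∫ z, (F z) ^ 2 ∂κ ≤ 2 ^ (k + 1) * K + 4 * (S / c) * K * Real.sqrt K := by
      rw [hκ, integral_prod]
      · exact block_sq h hf hf1 hS q K hc hsep
      · refine integrable_bd (hFm.pow_const 2) ((K : ℝ) ^ 2) fun z => ?_
        rw [abs_pow]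
        exact pow_le_pow_left₀ (abs_nonneg _) (hFb z) 2
    rw [hκu] at h1
    exact h1.trans (mul_le_mul_of_nonneg_left h2 (by positivity))
  have e5 : ∫ z, |F z| ∂κ
      ≤ Real.sqrt (2 ^ (k + 1) * (2 ^ (k + 1) * K + 4 * (S / c) * K * Real.sqrt K)) :=
    Real.le_sqrt_of_sq_le e4
  calc ∑ m ∈ range K, ∫ x, (corr φ f α p (q m) x) ^ 2 ∂μ
      = ∑ m ∈ range K, ∫ z, f z.2 * f (φ (z.1 * q m) z.2)
          * wnd φ f α p (q m - p) z.1 z.2 ∂κ := Finset.sum_congr rfl fun m _ => e1 m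
    _ ≤ ∑ m ∈ range K, ((∫ z, f z.2 * f (φ (z.1 * q m) z.2)
          * wnd φ f α p (q 0 - p) z.1 z.2 ∂κ) + 2 ^ (k + 1) * (4 * (‖α‖ + 2)) * (k + 1) * η) :=
        Finset.sum_le_sum fun m hm => e2 m (Finset.mem_range.1 hm)
    _ ≤ _ := by
        rw [Finset.sum_add_distrib, Finset.sum_const, card_range, nsmul_eq_mul]
        have r : (K : ℝ) * (2 ^ (k + 1) * (4 * (‖α‖ + 2)) * (k + 1) * η)
            = 2 ^ (k + 1) * (4 * (‖α‖ + 2)) * (k + 1) * η * K := by ring
        rw [r]
        linarith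

end Pool.AEV
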