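import Pool.Agent.AEV.Block
import Pool.Agent.AET.PolySum

/-!
# Summation over the blocks
-/

set_option autoImplicit false

open MeasureTheory Set Finset
open Pool.AET (GrowInc sum_blocks far_le growInc_C abs_integral_bd)

namespace Pool.AEV

variable {k : ℕ} {Ω : Type*} [MeasurableSpace Ω] {μ : Measure Ω} {φ : Vec k → Ω → Ω}

theorem pair_le [IsProbabilityMeasure μ] (h : IsFlow μ φ) {f : Ω → ℝ} (hf : Measurable f)
    (hf1 : ∀ x, |f x| ≤ 1) {i : Fin (k + 1)} {S : ℝ} (hS : Dec μ φ f i S) (α : Vec k)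
    (q : ℕ → Vec k) {c C : ℝ} {e : Fin (k + 1) → ℕ} {E : ℕ} (hE : ∀ l, e l ≤ E)
    (hc : 0 < c) (hq : ∀ l, GrowInc (fun n => q n l) c C (e l)) (Q : ℕ) (hQ : 1 ≤ Q) (n j : ℕ)
    (hj : 1 ≤ j)
    (hfar : n + (Q ^ 8) ^ 2 ≤ j * Q ^ 8 ∨ j * Q ^ 8 + (Q ^ 8) ^ 2 ≤ n) :
    ∑ m ∈ range (Q ^ 8), ∫ x, (corr φ f α (q n) (q (j * Q ^ 8 + m)) x) ^ 2 ∂μ
      ≤ (Real.sqrt (2 ^ (k + 1) * (2 ^ (k + 1) + 4 * (S / c)))
          + 2 ^ (k + 1) * (4 * (‖α‖ + 2)) * (k + 1) * (C * 2 ^ E / c)) * (Q : ℝ) ^ 6 := by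
  have hS0 : 0 ≤ S := hS.nonneg
  have hC := growInc_C hc (hq i)
  set M : ℕ := Q ^ 8 with hM
  have hM1 : 1 ≤ M := Nat.one_le_pow _ _ hQ
  have hM1' : (1 : ℝ) ≤ M := by exact_mod_cast hM1
  have hM0 : (0 : ℝ) < M := by linarith
  have hQ1 : (1 : ℝ) ≤ Q := by exact_mod_cast hQ
  have hj1 : (1 : ℝ) ≤ j := by exact_mod_cast hj
  have hfar' : ∀ l, c * (M : ℝ) ^ 2 * ((j : ℝ) * M) ^ (e l) ≤ |q (j * M) l - q n l| := by
    intro l
    have := far_le hc (hq l) (n := n) (m := j * M) (d := M ^ 2) (Nat.one_le_pow _ _ hM1) hfar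
    push_cast at this
    exact this
  have hpos : ∀ l, 0 < c * (M : ℝ) ^ 2 * ((j : ℝ) * M) ^ (e l) := fun l => by positivity
  have hb := block_le h hf hf1 hS α (q n) (fun m => q (j * M + m)) M (c := c)
    (η := C * 2 ^ E / (c * M)) hc (by positivity) ?_ ?_ ?_
  · refine hb.trans ?_
    have hMc : (M : ℝ) = (Q : ℝ) ^ 8 := by rw [hM]; push_cast; rfl
    have hsq : Real.sqrt (M : ℝ) = (Q : ℝ) ^ 4 := by
      rw [hMc, show (Q : ℝ) ^ 8 = ((Q : ℝ) ^ 4) ^ 2 by ring]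
      exact Real.sqrt_sq (by positivity)
    have hkey : ∀ Z W : ℝ, 0 ≤ Z → 0 ≤ W →
        Real.sqrt (Z * (Z * M + W * M * Real.sqrt M)) ≤ Real.sqrt (Z * (Z + W)) * (Q : ℝ) ^ 6 := by
      intro Z W hZ hW
      rw [hsq, hMc]
      have hZW : 0 ≤ Z * (Z + W) := by positivity
      have h2 : Real.sqrt (Z * (Z + W)) * (Q : ℝ) ^ 6
          = Real.sqrt ((Z * (Z + W)) * ((Q : ℝ) ^ 6) ^ 2) := by
        rw [Real.sqrt_mul hZW, Real.sqrt_sq (by positivity)]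
      rw [h2]
      apply Real.sqrt_le_sqrt
      have h3 : (Q : ℝ) ^ 8 ≤ (Q : ℝ) ^ 12 := pow_le_pow_right₀ hQ1 (by norm_num)
      have h4 : ((Q : ℝ) ^ 6) ^ 2 = (Q : ℝ) ^ 12 := by ring
      have h5 : (Q : ℝ) ^ 8 * (Q : ℝ) ^ 4 = (Q : ℝ) ^ 12 := by ring
      rw [h4, mul_assoc W, h5, mul_assoc Z]
      apply mul_le_mul_of_nonneg_left _ hZ
      rw [add_mul]
      have h6 : Z * (Q : ℝ) ^ 8 ≤ Z * (Q : ℝ) ^ 12 := mul_le_mul_of_nonneg_left h3 hZ
      linarith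
    have h1 : Real.sqrt (2 ^ (k + 1) * (2 ^ (k + 1) * M + 4 * (S / c) * M * Real.sqrt M))
        ≤ Real.sqrt (2 ^ (k + 1) * (2 ^ (k + 1) + 4 * (S / c))) * (Q : ℝ) ^ 6 :=
      hkey (2 ^ (k + 1)) (4 * (S / c)) (by positivity) (by positivity)
    have h2 : 2 ^ (k + 1) * (4 * (‖α‖ + 2)) * (k + 1) * (C * 2 ^ E / (c * M)) * M
        ≤ 2 ^ (k + 1) * (4 * (‖α‖ + 2)) * (k + 1) * (C * 2 ^ E / c) * (Q : ℝ) ^ 6 := by
      have h3 : C * 2 ^ E / (c * M) * M = C * 2 ^ E / c := by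
        field_simp
      rw [mul_assoc (2 ^ (k + 1) * (4 * (‖α‖ + 2)) * ((k : ℝ) + 1)), h3]
      have h4 : (1 : ℝ) ≤ (Q : ℝ) ^ 6 := one_le_pow₀ hQ1
      have h5 : 0 ≤ 2 ^ (k + 1) * (4 * (‖α‖ + 2)) * ((k : ℝ) + 1) * (C * 2 ^ E / c) := by
        positivity
      nlinarith
    rw [add_mul]
    exact add_le_add h1 h2
  · intro m _ l _
    have haux : ∀ m l : ℕ, m < l →
        c * |(m : ℝ) - l| ≤ |q (j * M + m) i - q (j * M + l) i| := by
      intro m l hml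
      have h1 := (hq i (j * M + m) (j * M + l) (by omega)).1
      have hml' : (m : ℝ) < l := by exact_mod_cast hml
      rw [abs_sub_comm (q (j * M + m) i), abs_of_neg (by linarith : (m : ℝ) - l < 0)]
      refine le_trans ?_ h1
      push_cast
      have h2 : (1 : ℝ) ≤ ((j : ℝ) * M + l + 1) ^ (e i) := by
        apply one_le_pow₀
        have : (0 : ℝ) ≤ (j : ℝ) * M + l := by positivity
        linarith
      have h3 : 0 ≤ c * (l - m) := mul_nonneg hc.le (by linarith)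
      have h4 : (j : ℝ) * M + l - (j * M + m) = l - m := by ring
      rw [h4]
      nlinarith
    rcases lt_trichotomy m l with hml | hml | hml
    · exact haux m l hml
    · subst hml
      simp
    · rw [abs_sub_comm (m : ℝ), abs_sub_comm (q (j * M + m) i)]
      exact haux l m hml
  · intro m hm l
    simp only [add_zero]
    rcases Nat.eq_zero_or_pos m with hm0 | hm0
    · subst hm0
      simp only [add_zero, sub_self, abs_zero]
      positivity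
    · have h1 := (hq l (j * M) (j * M + m) (by omega)).2
      refine h1.trans ?_
      push_cast
      have h4 : (j : ℝ) * M + m - (j * M) = m := by ring
      rw [h4]
      have hmM : (m : ℝ) + 1 ≤ M := by exact_mod_cast hm
      have h5 : ((j : ℝ) * M + m + 1) ^ (e l) ≤ (2 * ((j : ℝ) * M)) ^ (e l) := by
        apply pow_le_pow_left₀ (by positivity)
        nlinarith
      rw [mul_pow] at h5
      have h6 : (2 : ℝ) ^ (e l) ≤ 2 ^ E := pow_le_pow_right₀ (by norm_num) (hE l)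
      calc C * m * ((j : ℝ) * M + m + 1) ^ (e l)
          ≤ C * M * (2 ^ (e l) * ((j : ℝ) * M) ^ (e l)) := by
            apply mul_le_mul _ h5 (by positivity) (by positivity)
            exact mul_le_mul_of_nonneg_left (by linarith) hC.le
        _ ≤ C * M * (2 ^ E * ((j : ℝ) * M) ^ (e l)) := by
            apply mul_le_mul_of_nonneg_left _ (by positivity)
            exact mul_le_mul_of_nonneg_right h6 (by positivity)
        _ = C * 2 ^ E / (c * M) * (c * (M : ℝ) ^ 2 * ((j : ℝ) * M) ^ (e l)) := by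
            field_simp
        _ ≤ C * 2 ^ E / (c * M) * |q (j * M) l - q n l| := by
            exact mul_le_mul_of_nonneg_left (hfar' l) (by positivity)
  · intro l h0
    simp only [add_zero] at h0
    have := hfar' l
    rw [h0, abs_zero] at this
    linarith [hpos l]

theorem corr_sq_le [IsProbabilityMeasure μ] {f : Ω → ℝ} (hf1 : ∀ x, |f x| ≤ 1) (α p q : Vec k) :
    ∫ x, (corr φ f α p q x) ^ 2 ∂μ ≤ 1 := by
  refine (le_abs_self _).trans (abs_integral_bd 1 fun x => ?_)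
  rw [abs_pow]
  exact pow_le_one₀ (abs_nonneg _) (corr_abs_le hf1 _ _ _ _)

theorem poly_sum [IsProbabilityMeasure μ] (h : IsFlow μ φ) {f : Ω → ℝ} (hf : Measurable f)
    (hf1 : ∀ x, |f x| ≤ 1) {i : Fin (k + 1)} {S : ℝ} (hS : Dec μ φ f i S) (α : Vec k)
    (q : ℕ → Vec k) {c C : ℝ} {e : Fin (k + 1) → ℕ}
    (hc : 0 < c) (hq : ∀ j, GrowInc (fun n => q n j) c C (e j)) :
    ∃ B : ℝ, 0 ≤ B ∧ ∀ Q : ℕ, 1 ≤ Q →
      ∑ n ∈ range ((Q ^ 8) ^ 3), ∑ n' ∈ range ((Q ^ 8) ^ 3),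
        ∫ x, (corr φ f α (q n) (q n') x) ^ 2 ∂μ ≤ B * ((Q : ℝ) ^ 8) ^ 6 / (Q : ℝ) ^ 2 := by
  classical
  have hC := growInc_C hc (hq i)
  have hS0 : 0 ≤ S := hS.nonneg
  set E : ℕ := Finset.univ.sup e with hEdef
  have hE : ∀ l, e l ≤ E := fun l => Finset.le_sup (Finset.mem_univ l)
  set B₁ : ℝ := Real.sqrt (2 ^ (k + 1) * (2 ^ (k + 1) + 4 * (S / c)))
          + 2 ^ (k + 1) * (4 * (‖α‖ + 2)) * (k + 1) * (C * 2 ^ E / c) with hB₁
  have hB₁0 : 0 ≤ B₁ := by positivity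
  refine ⟨B₁ + 3, by positivity, ?_⟩
  intro Q hQ
  have hQ1 : (1 : ℝ) ≤ Q := by exact_mod_cast hQ
  set M : ℕ := Q ^ 8 with hM
  have hM1 : 1 ≤ M := Nat.one_le_pow _ _ hQ
  have hMc : (M : ℝ) = (Q : ℝ) ^ 8 := by rw [hM]; push_cast; rfl
  have hM0 : (0 : ℝ) ≤ M := Nat.cast_nonneg _
  have h1 : ∀ n : ℕ, ∑ n' ∈ range (M ^ 3), ∫ x, (corr φ f α (q n) (q n') x) ^ 2 ∂μ
      = ∑ j ∈ range (M ^ 2), ∑ m ∈ range M,
          ∫ x, (corr φ f α (q n) (q (j * M + m)) x) ^ 2 ∂μ := by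
    intro n
    rw [pow_succ M 2, sum_blocks]
  have h2 : ∀ n j : ℕ, ∑ m ∈ range M, ∫ x, (corr φ f α (q n) (q (j * M + m)) x) ^ 2 ∂μ
      ≤ B₁ * (Q : ℝ) ^ 6 + (if j = 0 then (M : ℝ) else 0)
        + (if n < j * M + M ^ 2 ∧ j * M < n + M ^ 2 then (M : ℝ) else 0) := by
    intro n j
    have htriv : ∑ m ∈ range M, ∫ x, (corr φ f α (q n) (q (j * M + m)) x) ^ 2 ∂μ ≤ M := by
      calc _ ≤ ∑ m ∈ range M, (1 : ℝ) := Finset.sum_le_sum fun m _ => corr_sq_le hf1 _ _ _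
        _ = M := by simp
    have hB₁Q : 0 ≤ B₁ * (Q : ℝ) ^ 6 := by positivity
    by_cases hj : j = 0
    · rw [if_pos hj]
      have : (0 : ℝ) ≤ (if n < j * M + M ^ 2 ∧ j * M < n + M ^ 2 then (M : ℝ) else 0) := by
        split_ifs <;> positivity
      linarith
    · by_cases hn : n < j * M + M ^ 2 ∧ j * M < n + M ^ 2
      · rw [if_neg hj, if_pos hn]
        linarith
      · rw [if_neg hj, if_neg hn]
        have := pair_le h hf hf1 hS α q hE hc hq Q hQ n j (by omega) (by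
          rw [not_and_or] at hn
          rcases hn with hn | hn
          · right
            exact not_lt.1 hn
          · left
            exact not_lt.1 hn)
        linarith
  have h3 : ∀ j : ℕ, ∑ n ∈ range (M ^ 3),
      (if n < j * M + M ^ 2 ∧ j * M < n + M ^ 2 then (M : ℝ) else 0) ≤ 2 * (M : ℝ) ^ 2 * M := by
    intro j
    rw [← Finset.sum_filter, Finset.sum_const, nsmul_eq_mul]
    apply mul_le_mul_of_nonneg_right _ hM0
    have h4 : ((range (M ^ 3)).filter (fun n => n < j * M + M ^ 2 ∧ j * M < n + M ^ 2)).card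
        ≤ 2 * M ^ 2 := by
      calc _ ≤ (Finset.Ico (j * M - M ^ 2) (j * M + M ^ 2)).card := by
            apply Finset.card_le_card
            intro n hn
            simp only [Finset.mem_filter, Finset.mem_range, Finset.mem_Ico] at hn ⊢
            omega
        _ ≤ 2 * M ^ 2 := by
            rw [Nat.card_Ico]
            omega
    exact_mod_cast h4
  calc ∑ n ∈ range (M ^ 3), ∑ n' ∈ range (M ^ 3), ∫ x, (corr φ f α (q n) (q n') x) ^ 2 ∂μ
      = ∑ n ∈ range (M ^ 3), ∑ j ∈ range (M ^ 2), ∑ m ∈ range M,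
          ∫ x, (corr φ f α (q n) (q (j * M + m)) x) ^ 2 ∂μ :=
        Finset.sum_congr rfl fun n _ => h1 n
    _ ≤ ∑ n ∈ range (M ^ 3), ∑ j ∈ range (M ^ 2), (B₁ * (Q : ℝ) ^ 6
          + (if j = 0 then (M : ℝ) else 0)
          + (if n < j * M + M ^ 2 ∧ j * M < n + M ^ 2 then (M : ℝ) else 0)) :=
        Finset.sum_le_sum fun n _ => Finset.sum_le_sum fun j _ => h2 n j
    _ = (M : ℝ) ^ 3 * (M : ℝ) ^ 2 * (B₁ * (Q : ℝ) ^ 6)
          + (M : ℝ) ^ 3 * M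
          + ∑ j ∈ range (M ^ 2), ∑ n ∈ range (M ^ 3),
            (if n < j * M + M ^ 2 ∧ j * M < n + M ^ 2 then (M : ℝ) else 0) := by
        simp_rw [Finset.sum_add_distrib]
        congr 1
        · congr 1
          · simp only [Finset.sum_const, card_range, nsmul_eq_mul]
            push_cast
            ring
          · have hpos : 0 < M ^ 2 := Nat.one_le_pow _ _ hM1
            have : ∑ j ∈ range (M ^ 2), (if j = 0 then (M : ℝ) else 0) = M := by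
              rw [Finset.sum_ite_eq', if_pos (Finset.mem_range.2 hpos)]
            rw [this, Finset.sum_const, card_range, nsmul_eq_mul]
            push_cast
            ring
        · rw [Finset.sum_comm]
    _ ≤ (M : ℝ) ^ 3 * (M : ℝ) ^ 2 * (B₁ * (Q : ℝ) ^ 6) + (M : ℝ) ^ 3 * M
          + (M : ℝ) ^ 2 * (2 * (M : ℝ) ^ 2 * M) := by
        have h5 : ∑ j ∈ range (M ^ 2), ∑ n ∈ range (M ^ 3),
            (if n < j * M + M ^ 2 ∧ j * M < n + M ^ 2 then (M : ℝ) else 0)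
            ≤ ∑ j ∈ range (M ^ 2), 2 * (M : ℝ) ^ 2 * M := Finset.sum_le_sum fun j _ => h3 j
        rw [Finset.sum_const, card_range, nsmul_eq_mul] at h5
        push_cast at h5
        linarith
    _ ≤ (B₁ + 3) * ((Q : ℝ) ^ 8) ^ 6 / (Q : ℝ) ^ 2 := by
        rw [hMc, le_div_iff₀ (by positivity)]
        have a1 : (Q : ℝ) ^ 34 ≤ (Q : ℝ) ^ 48 := pow_le_pow_right₀ hQ1 (by norm_num)
        have a2 : (Q : ℝ) ^ 42 ≤ (Q : ℝ) ^ 48 := pow_le_pow_right₀ hQ1 (by norm_num)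
        have e1 : (((Q : ℝ) ^ 8) ^ 3 * ((Q : ℝ) ^ 8) ^ 2 * (B₁ * (Q : ℝ) ^ 6)
            + ((Q : ℝ) ^ 8) ^ 3 * (Q : ℝ) ^ 8
            + ((Q : ℝ) ^ 8) ^ 2 * (2 * ((Q : ℝ) ^ 8) ^ 2 * (Q : ℝ) ^ 8)) * (Q : ℝ) ^ 2
            = B₁ * (Q : ℝ) ^ 48 + (Q : ℝ) ^ 34 + 2 * (Q : ℝ) ^ 42 := by ring
        have e2 : (B₁ + 3) * ((Q : ℝ) ^ 8) ^ 6 = B₁ * (Q : ℝ) ^ 48 + 3 * (Q : ℝ) ^ 48 := by ring
        rw [e1, e2]
        linarith

end Pool.AEV
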