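import Pool.Agent.AEV.Second
import Pool.Agent.AEV.PolySum

/-!
# The second moment over a box of times
-/

set_option autoImplicit false

open MeasureTheory Set Finset
open Pool.AET (GrowInc)

namespace Pool.AEV

variable {k : ℕ} {Ω : Type*} [MeasurableSpace Ω] {μ : Measure Ω} {d : ℕ}

theorem prodSeq_measurable {φ : Fin (d + 1) → Vec k → Ω → Ω} (hφ : ∀ j, IsFlow μ (φ j))
    {u : ℕ → Ω → ℝ} (hu : ∀ n, Measurable (u n)) {c : Fin (d + 1) → Ω → ℝ}
    (hc : ∀ j, Measurable (c j)) (q : Fin (d + 1) → ℕ → Vec k) (n : ℕ) :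
    Measurable (fun z : (Fin (d + 1) → Vec k) × Ω => prodSeq φ u c q z.1 n z.2) := by
  unfold prodSeq
  refine ((hu n).comp measurable_snd).mul ?_
  refine Finset.measurable_prod _ fun j _ => ?_
  exact (hφ j).meas_comp (hc j) (by fun_prop) measurable_snd

private theorem integral_box {F : (Fin (d + 1) → Vec k) → ℝ} (hF : Measurable F) {C : ℝ}
    (hC : ∀ t, |F t| ≤ C) (j₀ : Fin (d + 1)) (κ : Fin (d + 1) → Fin (k + 1) → ℤ) :
    ∫ t in Icc (fun j l => (κ j l : ℝ)) (fun j l => (κ j l : ℝ) + 1), F t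
      = ∫ y in Icc (fun (j : Fin d) l => (κ (j₀.succAbove j) l : ℝ))
          (fun (j : Fin d) l => (κ (j₀.succAbove j) l : ℝ) + 1),
        ∫ a in Icc (fun l => (κ j₀ l : ℝ)) (fun l => (κ j₀ l : ℝ) + 1), F (j₀.insertNth a y) := by
  set e : Vec k × (Fin d → Vec k) ≃ᵐ (Fin (d + 1) → Vec k) :=
    (MeasurableEquiv.piFinSuccAbove (fun _ => Vec k) j₀).symm with he
  have hem : MeasurePreserving e :=
    (volume_preserving_piFinSuccAbove (fun _ : Fin (d + 1) => Vec k) j₀).symm _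
  have heπ : (e ⁻¹' Icc (fun j l => (κ j l : ℝ)) (fun j l => (κ j l : ℝ) + 1))
      = Icc (fun l => (κ j₀ l : ℝ)) (fun l => (κ j₀ l : ℝ) + 1) ×ˢ
        Icc (fun (j : Fin d) l => (κ (j₀.succAbove j) l : ℝ))
          (fun (j : Fin d) l => (κ (j₀.succAbove j) l : ℝ) + 1) := by
    ext p
    rw [Set.mem_preimage, Set.mem_prod]
    exact Fin.insertNth_mem_Icc
  rw [← hem.map_eq, setIntegral_map_equiv, heπ, Measure.volume_eq_prod, ← setIntegral_prod_swap,
    setIntegral_prod]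
  · rfl
  · have h1 : Measurable (fun z : (Fin d → Vec k) × Vec k => F (e z.swap)) :=
      hF.comp (e.measurable.comp measurable_swap)
    have hfin : ∀ (n : ℕ) (α : Fin n → Fin (k + 1) → ℝ),
        volume (Icc α (fun j l => α j l + 1)) ≠ ⊤ := by
      intro n α
      exact (isCompact_Icc (a := α) (b := fun j l => α j l + 1)).measure_lt_top.ne
    refine Measure.integrableOn_of_bounded (M := C) ?_ h1.aestronglyMeasurable ?_
    · rw [Measure.prod_prod]
      refine ENNReal.mul_ne_top (hfin d _) ?_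
      exact (isCompact_Icc (a := fun l => (κ j₀ l : ℝ))).measure_lt_top.ne
    · exact Filter.Eventually.of_forall fun z => by simpa using hC _

omit [MeasurableSpace Ω] in
private theorem prodSeq_abs_le {φ : Fin (d + 1) → Vec k → Ω → Ω} {u : ℕ → Ω → ℝ}
    (hu1 : ∀ n x, |u n x| ≤ 1) {c : Fin (d + 1) → Ω → ℝ} (hc1 : ∀ j x, |c j x| ≤ 1)
    (q : Fin (d + 1) → ℕ → Vec k) (t : Fin (d + 1) → Vec k) (n : ℕ) (x : Ω) :
    |prodSeq φ u c q t n x| ≤ 1 := by
  unfold prodSeq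
  rw [abs_mul, Finset.abs_prod]
  exact mul_le_one₀ (hu1 _ _) (Finset.prod_nonneg fun _ _ => abs_nonneg _)
    (Finset.prod_le_one (fun _ _ => abs_nonneg _) fun j _ => hc1 _ _)

theorem box_le [IsProbabilityMeasure μ] {φ : Fin (d + 1) → Vec k → Ω → Ω}
    (hφ : ∀ j, IsFlow μ (φ j))
    {u : ℕ → Ω → ℝ} (hu : ∀ n, Measurable (u n)) (hu1 : ∀ n x, |u n x| ≤ 1)
    {c : Fin (d + 1) → Ω → ℝ} (hc : ∀ j, Measurable (c j)) (hc1 : ∀ j x, |c j x| ≤ 1)
    (j₀ : Fin (d + 1)) {i : Fin (k + 1)} {S : ℝ} (hS : Dec μ (φ j₀) (c j₀) i S)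
    {q : Fin (d + 1) → ℕ → Vec k} {a A : ℝ} {e : Fin (k + 1) → ℕ} (ha : 0 < a)
    (hq : ∀ l, GrowInc (fun n => q j₀ n l) a A (e l))
    (κ : Fin (d + 1) → Fin (k + 1) → ℤ) :
    ∃ B : ℝ, 0 ≤ B ∧ ∀ Q : ℕ, 1 ≤ Q →
      ∫ t in Icc (fun j l => (κ j l : ℝ)) (fun j l => (κ j l : ℝ) + 1),
        ∫ x, (((((Q ^ 8) ^ 3 : ℕ) : ℝ))⁻¹ *
          ∑ n ∈ range ((Q ^ 8) ^ 3), prodSeq φ u c q t n x) ^ 2 ∂μ ≤ B / Q := by
  classical
  obtain ⟨B, hB, hsum⟩ := poly_sum (hφ j₀) (hc j₀) (hc1 j₀) hS (fun l => (κ j₀ l : ℝ)) (q j₀) ha hq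
  refine ⟨Real.sqrt B, Real.sqrt_nonneg _, fun Q hQ => ?_⟩
  have hsumQ := hsum Q hQ
  have hQ0 : (0 : ℝ) < Q := by exact_mod_cast hQ
  have hNr : (((Q ^ 8) ^ 3 : ℕ) : ℝ) = ((Q : ℝ) ^ 8) ^ 3 := by push_cast; ring
  generalize (Q ^ 8) ^ 3 = N at hsumQ hNr ⊢
  have hN0 : (0 : ℝ) < N := by rw [hNr]; positivity
  have hp1 : ∀ t n x, |prodSeq φ u c q t n x| ≤ 1 := fun t n x => prodSeq_abs_le hu1 hc1 q t n x
  set F : (Fin (d + 1) → Vec k) → ℝ := fun t =>
    ∫ x, ((N : ℝ)⁻¹ * ∑ n ∈ range N, prodSeq φ u c q t n x) ^ 2 ∂μ with hF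
  have hFm : Measurable F := by
    have h1 : Measurable (fun z : (Fin (d + 1) → Vec k) × Ω =>
        ((N : ℝ)⁻¹ * ∑ n ∈ range N, prodSeq φ u c q z.1 n z.2) ^ 2) := by
      refine (Measurable.const_mul ?_ _).pow_const 2
      exact Finset.measurable_sum _ fun n _ => prodSeq_measurable hφ hu hc q n
    exact (h1.stronglyMeasurable.integral_prod_right (ν := μ)).measurable
  have hF1 : ∀ t, |F t| ≤ 1 := by
    intro t
    apply Pool.AET.abs_integral_bd
    intro x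
    rw [abs_pow]
    refine pow_le_one₀ (abs_nonneg _) ?_
    rw [abs_mul, abs_of_nonneg (by positivity : (0 : ℝ) ≤ (N : ℝ)⁻¹)]
    have h2 : |∑ n ∈ range N, prodSeq φ u c q t n x| ≤ N := by
      refine (Finset.abs_sum_le_sum_abs _ _).trans ?_
      refine (Finset.sum_le_sum fun n _ => hp1 t n x).trans ?_
      simp
    calc (N : ℝ)⁻¹ * |∑ n ∈ range N, prodSeq φ u c q t n x| ≤ (N : ℝ)⁻¹ * N := by gcongr
      _ = 1 := inv_mul_cancel₀ hN0.ne'
  have main : ∀ y : Fin d → Vec k,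
      ∫ s in Icc (fun l => (κ j₀ l : ℝ)) (fun l => (κ j₀ l : ℝ) + 1), F (j₀.insertNth s y)
        ≤ Real.sqrt B / Q := by
    intro y
    set w : ℕ → Ω → ℝ := fun n x =>
      u n x * ∏ j : Fin d, c (j₀.succAbove j) (φ (j₀.succAbove j) (y j * q (j₀.succAbove j) n) x)
      with hw
    have hwm : ∀ n, Measurable (w n) := by
      intro n
      refine (hu n).mul (Finset.measurable_prod _ fun j _ => ?_)
      exact (hφ _).meas_comp (hc _) measurable_const measurable_id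
    have hw1 : ∀ n x, |w n x| ≤ 1 := by
      intro n x
      simp only [hw]
      rw [abs_mul, Finset.abs_prod]
      exact mul_le_one₀ (hu1 _ _) (Finset.prod_nonneg fun _ _ => abs_nonneg _)
        (Finset.prod_le_one (fun _ _ => abs_nonneg _) fun j _ => hc1 _ _)
    have hpw : ∀ (s : Vec k) n x, prodSeq φ u c q (j₀.insertNth s y) n x
        = w n x * c j₀ (φ j₀ (s * q j₀ n) x) := by
      intro s n x
      simp only [prodSeq, hw]
      rw [Fin.prod_univ_succAbove _ j₀]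
      simp only [Fin.insertNth_apply_same, Fin.insertNth_apply_succAbove]
      ring
    have h2 := second_moment (hφ j₀) (hc j₀) (hc1 j₀) (fun l => (κ j₀ l : ℝ)) (q j₀) N hsumQ w
      hwm hw1
    have hone : (fun l => (κ j₀ l : ℝ)) + 1 = fun l => (κ j₀ l : ℝ) + 1 := rfl
    rw [hone] at h2
    have h3 : ∀ s : Vec k, F (j₀.insertNth s y)
        = ((N : ℝ)⁻¹) ^ 2 * ∫ x, (∑ n ∈ range N, w n x * c j₀ (φ j₀ (s * q j₀ n) x)) ^ 2 ∂μ := by
      intro s
      simp only [hF, hpw, mul_pow]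
      rw [integral_const_mul]
    simp only [h3]
    rw [integral_const_mul]
    have h4 : Real.sqrt (B * ((Q : ℝ) ^ 8) ^ 6 / (Q : ℝ) ^ 2) = Real.sqrt B * N / Q := by
      have : B * ((Q : ℝ) ^ 8) ^ 6 / (Q : ℝ) ^ 2 = B * ((N : ℝ) / Q) ^ 2 := by
        rw [hNr]
        field_simp
      rw [this, Real.sqrt_mul hB, Real.sqrt_sq (by positivity)]
      ring
    rw [h4] at h2
    calc ((N : ℝ)⁻¹) ^ 2 * _ ≤ ((N : ℝ)⁻¹) ^ 2 * (N * (Real.sqrt B * N / Q)) := by gcongr
      _ = Real.sqrt B / Q := by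
        field_simp
  rw [integral_box hFm hF1 j₀ κ]
  have hvol : ∀ (n : ℕ) (α : Fin n → Vec k), volume (Icc α (fun j l => α j l + 1)) = 1 := by
    intro n α
    have h1 : Icc α (fun j l => α j l + 1) = Set.pi Set.univ (fun j => Icc (α j) (α j + 1)) := by
      rw [Set.pi_univ_Icc]
      rfl
    rw [h1, volume_pi_pi]
    exact Finset.prod_eq_one fun j _ => vol_box (α j)
  have hprob : IsProbabilityMeasure (volume.restrict
      (Icc (fun (j : Fin d) l => (κ (j₀.succAbove j) l : ℝ))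
      (fun (j : Fin d) l => (κ (j₀.succAbove j) l : ℝ) + 1))) :=
    ⟨by rw [Measure.restrict_apply_univ]; exact hvol d _⟩
  have hins : Measurable (fun z : (Fin d → Vec k) × Vec k => F (j₀.insertNth z.2 z.1)) := by
    refine hFm.comp ?_
    exact (MeasurableEquiv.piFinSuccAbove (fun _ : Fin (d + 1) => Vec k) j₀).symm.measurable.comp
      measurable_swap
  have hprob' : IsProbabilityMeasure (volume.restrict (Icc (fun l => (κ j₀ l : ℝ))
      (fun l => (κ j₀ l : ℝ) + 1))) := isProb_box (fun l => (κ j₀ l : ℝ))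
  calc ∫ y in Icc (fun (j : Fin d) l => (κ (j₀.succAbove j) l : ℝ))
          (fun (j : Fin d) l => (κ (j₀.succAbove j) l : ℝ) + 1),
        ∫ s in Icc (fun l => (κ j₀ l : ℝ)) (fun l => (κ j₀ l : ℝ) + 1), F (j₀.insertNth s y)
      ≤ ∫ y in Icc (fun (j : Fin d) l => (κ (j₀.succAbove j) l : ℝ))
          (fun (j : Fin d) l => (κ (j₀.succAbove j) l : ℝ) + 1), Real.sqrt B / Q := by
        refine integral_mono ?_ (integrable_const _) main
        refine Pool.AET.integrable_bd ?_ 1 fun y => Pool.AET.abs_integral_bd 1 fun s => hF1 _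
        exact (hins.stronglyMeasurable.integral_prod_right
          (ν := volume.restrict (Icc (fun l => (κ j₀ l : ℝ)) (fun l => (κ j₀ l : ℝ) + 1)))).measurable
    _ = Real.sqrt B / Q := by
        rw [integral_const]
        simp

end Pool.AEV
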