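import Pool.Agent.AEV.Corr

/-!
# Coboundaries have decaying self correlations on average
-/

set_option autoImplicit false

open MeasureTheory Set
open Pool.AET (integrable_bd abs_integral_bd)

namespace Pool.AEV

variable {k : ℕ}

namespace CobAux

/-- the shifted box -/
theorem vol_shift (v : Vec k) : (volume (Icc (-1 + v : Vec k) (1 + v))).toReal = 2 ^ (k + 1) := by
  rw [Real.volume_Icc_pi_toReal]
  · simp only [Pi.add_apply, Pi.neg_apply, Pi.one_apply]
    have h : ∀ j : Fin (k + 1), (1 + v j - (-1 + v j)) = 2 := fun j => by ring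
    simp_rw [h]
    simp
  · intro j
    simp only [Pi.add_apply, Pi.neg_apply, Pi.one_apply]
    linarith

theorem vol_inter (i : Fin (k + 1)) {r : ℝ} (hr : |r| ≤ 2) :
    (volume (Icc (-1 : Vec k) 1 ∩ Icc (-1 + Pi.single i r : Vec k) (1 + Pi.single i r))).toReal
      = (2 - |r|) * 2 ^ k := by
  rw [Set.Icc_inter_Icc, Real.volume_Icc_pi_toReal]
  · rw [Fin.prod_univ_succAbove _ i]
    congr 1
    · simp only [Pi.inf_apply, Pi.sup_apply, Pi.add_apply, Pi.neg_apply, Pi.one_apply,
        Pi.single_eq_same]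
      rcases le_total 0 r with h | h
      · rw [abs_of_nonneg h, min_eq_left (by linarith), max_eq_right (by linarith)]
        ring
      · rw [abs_of_nonpos h, min_eq_right (by linarith), max_eq_left (by linarith)]
        ring
    · have h : ∀ j : Fin k, ((1 : Vec k) ⊓ (1 + Pi.single i r)) (i.succAbove j)
          - ((-1 : Vec k) ⊔ (-1 + Pi.single i r)) (i.succAbove j) = 2 := by
        intro j
        simp only [Pi.inf_apply, Pi.sup_apply, Pi.add_apply, Pi.neg_apply, Pi.one_apply,
          Pi.single_eq_of_ne (Fin.succAbove_ne i j)]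
        norm_num
      simp_rw [h]
      simp
  · intro j
    have hr' := abs_le.mp hr
    simp only [Pi.inf_apply, Pi.sup_apply, Pi.add_apply, Pi.neg_apply, Pi.one_apply]
    by_cases hj : j = i
    · subst hj
      simp only [Pi.single_eq_same]
      rw [sup_le_iff, le_inf_iff, le_inf_iff]
      refine ⟨⟨by norm_num, by linarith⟩, by linarith, by linarith⟩
    · simp only [Pi.single_eq_of_ne hj]
      norm_num

/-- the difference of the integrals over a box and a shifted box -/
theorem box_shift_le (G : Vec k → ℝ) (hG : Measurable G) (hb : ∀ g, |G g| ≤ 1)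
    (i : Fin (k + 1)) {r : ℝ} (hr : |r| ≤ 2) :
    |(∫ g in Icc (-1 : Vec k) 1, G g)
      - ∫ g in Icc (-1 + Pi.single i r : Vec k) (1 + Pi.single i r), G g| ≤ 2 ^ (k + 1) * |r| := by
  set B : Set (Vec k) := Icc (-1) 1 with hB
  set B' : Set (Vec k) := Icc (-1 + Pi.single i r) (1 + Pi.single i r) with hB'
  have hBm : MeasurableSet B := measurableSet_Icc
  have hBm' : MeasurableSet B' := measurableSet_Icc
  have hBf : volume B < ⊤ := isCompact_Icc.measure_lt_top
  have hBf' : volume B' < ⊤ := isCompact_Icc.measure_lt_top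
  have hi : ∀ S : Set (Vec k), MeasurableSet S → volume S < ⊤ → IntegrableOn G S volume := by
    intro S _ hS
    have : IsFiniteMeasure (volume.restrict S) := ⟨by rwa [Measure.restrict_apply_univ]⟩
    exact integrable_bd hG 1 hb
  have h1 := integral_inter_add_sdiff (μ := volume) (f := G) (s := B) (t := B') hBm' (hi B hBm hBf)
  have h2 := integral_inter_add_sdiff (μ := volume) (f := G) (s := B') (t := B) hBm (hi B' hBm' hBf')
  have hle : ∀ S : Set (Vec k), volume S < ⊤ → |∫ g in S, G g| ≤ (volume S).toReal := by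
    intro S hS
    have h3 := norm_setIntegral_le_of_norm_le_const (μ := volume) (f := G) (s := S) (C := 1) hS
      (fun x _ => by simpa using hb x)
    rw [Real.norm_eq_abs, one_mul] at h3
    exact h3
  have hv1 : (volume (B \ B')).toReal = 2 ^ (k + 1) - (2 - |r|) * 2 ^ k := by
    have h3 := measureReal_inter_add_sdiff (μ := volume) (s := B) hBm' (h := hBf.ne)
    have h4 := vol_inter i hr
    have h5 := vol_shift (0 : Vec k)
    rw [add_zero, add_zero] at h5
    unfold Measure.real at h3
    rw [← h4, ← h5]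
    linarith
  have hv2 : (volume (B' \ B)).toReal = 2 ^ (k + 1) - (2 - |r|) * 2 ^ k := by
    have h3 := measureReal_inter_add_sdiff (μ := volume) (s := B') hBm (h := hBf'.ne)
    have h4 := vol_inter i hr
    have h5 := vol_shift (Pi.single i r : Vec k)
    unfold Measure.real at h3
    rw [Set.inter_comm B' B] at h3
    rw [← h4, ← h5]
    linarith
  have h3 : (∫ g in B, G g) - ∫ g in B', G g = (∫ g in B \ B', G g) - ∫ g in B' \ B, G g := by
    rw [← h1, ← h2, Set.inter_comm B' B]
    ring
  rw [h3]
  have h4 := hle (B \ B') (lt_of_le_of_lt (measure_mono sdiff_subset) hBf)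
  have h5 := hle (B' \ B) (lt_of_le_of_lt (measure_mono sdiff_subset) hBf')
  rw [hv1] at h4
  rw [hv2] at h5
  calc |(∫ g in B \ B', G g) - ∫ g in B' \ B, G g|
      ≤ |∫ g in B \ B', G g| + |∫ g in B' \ B, G g| := abs_sub _ _
    _ ≤ (2 ^ (k + 1) - (2 - |r|) * 2 ^ k) + (2 ^ (k + 1) - (2 - |r|) * 2 ^ k) := add_le_add h4 h5
    _ = 2 ^ (k + 1) * |r| := by ring

end CobAux

variable {Ω : Type*} [MeasurableSpace Ω] {μ : Measure Ω} {φ : Vec k → Ω → Ω}

theorem cob_dec [IsProbabilityMeasure μ] (hφ : IsFlow μ φ) {h : Ω → ℝ} (hh : Measurable h)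
    (hb : ∀ x, |h x| ≤ 1 / 2) (i : Fin (k + 1)) (s : ℝ) :
    Dec μ φ (fun x => h x - h (φ (Pi.single i s) x)) i (2 ^ (k + 1) * |s|) := by
  intro l hl
  set f : Ω → ℝ := fun x => h x - h (φ (Pi.single i s) x) with hf
  have hfm : Measurable f := hh.sub (hφ.meas_comp hh measurable_const measurable_id)
  have hf1 : ∀ x, |f x| ≤ 1 := by
    intro x
    calc |h x - h (φ (Pi.single i s) x)| ≤ |h x| + |h (φ (Pi.single i s) x)| := abs_sub _ _
      _ ≤ 1 := by linarith [hb x, hb (φ (Pi.single i s) x)]
  set e : Vec k → ℝ := fun t => ∫ x, f x * h (φ t x) ∂μ with he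
  have hem2 : Measurable (fun z : Vec k × Ω => f z.2 * h (φ z.1 z.2)) :=
    (hfm.comp measurable_snd).mul (hφ.meas_comp hh measurable_fst measurable_snd)
  have hem : Measurable e := (hem2.stronglyMeasurable.integral_prod_right).measurable
  have heb0 : ∀ t x, |f x * h (φ t x)| ≤ 1 := by
    intro t x
    rw [abs_mul]
    exact mul_le_one₀ (hf1 _) (abs_nonneg _) (by linarith [hb (φ t x)])
  have heb : ∀ t, |e t| ≤ 1 := fun t => abs_integral_bd 1 (heb0 t)
  set r : ℝ := s / l i with hr
  set G : Vec k → ℝ := fun g => e (g * l) with hG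
  have hGm : Measurable G := hem.comp (by fun_prop)
  have hGb : ∀ g, |G g| ≤ 1 := fun g => heb _
  have h1 : ∀ g : Vec k, ∫ x, f x * f (φ (g * l) x) ∂μ = G g - G (g + Pi.single i r) := by
    intro g
    have hv : (g + Pi.single i r) * l = Pi.single i s + g * l := by
      ext j
      simp only [Pi.mul_apply, Pi.add_apply]
      by_cases hj : j = i
      · subst hj
        simp only [Pi.single_eq_same]
        rw [hr]
        field_simp
        ring
      · simp only [Pi.single_eq_of_ne hj]
        ring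
    rw [hG]
    simp only
    rw [hv, he]
    simp only
    rw [← integral_sub]
    · refine integral_congr_ae (Filter.Eventually.of_forall fun x => ?_)
      simp only [hf]
      rw [← hφ.add]
      ring
    · exact integrable_bd (hfm.mul (hφ.meas_comp hh measurable_const measurable_id)) 1 (heb0 _)
    · exact integrable_bd (hfm.mul (hφ.meas_comp hh measurable_const measurable_id)) 1 (heb0 _)
  have hfin := isFin_box2 (k := k)
  have hl' : 0 < |l i| := abs_pos.2 hl
  have hgoal : 2 ^ (k + 1) * |s| / |l i| = 2 ^ (k + 1) * |r| := by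
    rw [hr, abs_div]
    ring
  rw [hgoal]
  rcases le_or_gt |r| 2 with hr2 | hr2
  · have h2 : ∫ g in Icc (-1 : Vec k) 1, ∫ x, f x * f (φ (g * l) x) ∂μ
        = (∫ g in Icc (-1 : Vec k) 1, G g) - ∫ g in Icc (-1 : Vec k) 1, G (g + Pi.single i r) := by
      have hG2 : Measurable (fun g : Vec k => G (g + Pi.single i r)) :=
        hGm.comp (measurable_id.add_const _)
      rw [← integral_sub (integrable_bd hGm 1 hGb) (integrable_bd hG2 1 (fun g => hGb _))]
      refine integral_congr_ae (Filter.Eventually.of_forall fun g => ?_)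
      exact h1 g
    have h3 : ∫ g in Icc (-1 : Vec k) 1, G (g + Pi.single i r)
        = ∫ g in Icc (-1 + Pi.single i r : Vec k) (1 + Pi.single i r), G g := by
      have h4 := (measurePreserving_add_right (volume : Measure (Vec k))
        (Pi.single i r : Vec k)).setIntegral_preimage_emb
        (measurableEmbedding_addRight (Pi.single i r : Vec k)) G
        (Icc (-1 + Pi.single i r : Vec k) (1 + Pi.single i r))
      rw [← h4, Set.preimage_add_const_Icc]
      simp only [add_sub_cancel_right]
    rw [h2, h3]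
    exact CobAux.box_shift_le G hGm hGb i hr2
  · have h2 : |∫ g in Icc (-1 : Vec k) 1, ∫ x, f x * f (φ (g * l) x) ∂μ|
        ≤ 1 * (volume (Icc (-1 : Vec k) 1)).toReal := by
      have h3 := norm_setIntegral_le_of_norm_le_const (μ := volume)
        (f := fun g : Vec k => ∫ x, f x * f (φ (g * l) x) ∂μ) (s := Icc (-1 : Vec k) 1) (C := 1)
        (isCompact_Icc.measure_lt_top)
        (fun g _ => by
          rw [Real.norm_eq_abs]
          apply abs_integral_bd
          intro x
          rw [abs_mul]
          exact mul_le_one₀ (hf1 _) (abs_nonneg _) (hf1 _))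
      exact h3
    rw [vol_box2, one_mul] at h2
    refine h2.trans ?_
    have h3 : ((2 : ENNReal) ^ (k + 1)).toReal = (2 : ℝ) ^ (k + 1) := by
      rw [ENNReal.toReal_pow]
      norm_num
    rw [h3]
    have h4 : (0 : ℝ) < 2 ^ (k + 1) := by positivity
    nlinarith

theorem cob_lip (hφ : IsFlow μ φ) {h : Ω → ℝ} {L : ℝ} (hL : LipT φ h L) (s : Vec k) :
    LipT φ (fun x => h x - h (φ s x)) (2 * L) := by
  intro t x
  simp only
  have h1 := hL t x
  have h2 := hL t (φ s x)
  rw [← hφ.add] at h2
  rw [← hφ.add, add_comm s t]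
  have h3 : h (φ t x) - h (φ (t + s) x) - (h x - h (φ s x))
      = (h (φ t x) - h x) - (h (φ (t + s) x) - h (φ s x)) := by ring
  rw [h3]
  refine (abs_sub _ _).trans ?_
  linarith

theorem cob_cls [IsProbabilityMeasure μ] (hφ : IsFlow μ φ) {h : Ω → ℝ} (hh : Measurable h)
    (hb : ∀ x, |h x| ≤ 1 / 2) {L : ℝ} (hL : LipT φ h L) (i : Fin (k + 1)) (s : ℝ) :
    Cls μ φ (fun x => h x - h (φ (Pi.single i s) x)) where
  meas := hh.sub (hφ.meas_comp hh measurable_const measurable_id)
  bd := fun x => by
    calc |h x - h (φ (Pi.single i s) x)| ≤ |h x| + |h (φ (Pi.single i s) x)| := abs_sub _ _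
      _ ≤ 1 := by linarith [hb x, hb (φ (Pi.single i s) x)]
  lip := ⟨2 * L, cob_lip hφ hL (Pi.single i s)⟩
  dec := ⟨i, 2 ^ (k + 1) * |s|, cob_dec hφ hh hb i s⟩

end Pool.AEV
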