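import Pool.Agent.AEV.Defs
import Pool.Agent.AET.Corr

/-!
# The square of a correlation over random times, as an integral over the difference of the times
-/

set_option autoImplicit false

open MeasureTheory Set
open Pool.AET (integrable_bd abs_integral_bd)

namespace Pool.AEV

variable {k : ℕ}

theorem vol_box (α : Vec k) : volume (Icc α (α + 1)) = 1 := by
  rw [Real.volume_Icc_pi]
  simp

theorem vol_box2 : volume (Icc (-1 : Vec k) 1) = 2 ^ (k + 1) := by
  rw [Real.volume_Icc_pi]
  simp
  norm_num

theorem isProb_box (α : Vec k) : IsProbabilityMeasure (volume.restrict (Icc α (α + 1))) :=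
  ⟨by rw [Measure.restrict_apply_univ, vol_box]⟩

theorem isFin_box2 : IsFiniteMeasure (volume.restrict (Icc (-1 : Vec k) 1)) :=
  ⟨by
    rw [Measure.restrict_apply_univ, vol_box2]
    exact ENNReal.pow_lt_top (by simp)⟩

open Classical in
/-- Change of variables `b = a + g`. -/
theorem diag_change (Θ : Vec k → Vec k → ℝ) (hΘ : Measurable (Function.uncurry Θ)) (C : ℝ)
    (hC : ∀ a b, |Θ a b| ≤ C) (α : Vec k) :
    ∫ a in Icc α (α + 1), ∫ b in Icc α (α + 1), Θ a b
      = ∫ g in Icc (-1 : Vec k) 1, ∫ a in Icc α (α + 1),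
          (if a + g ∈ Icc α (α + 1) then Θ a (a + g) else 0) := by
  have hC0 : 0 ≤ C := (abs_nonneg _).trans (hC 0 0)
  have hp := isProb_box α
  have hf := isFin_box2 (k := k)
  have h1 : ∀ a ∈ Icc α (α + 1), ∫ b in Icc α (α + 1), Θ a b
      = ∫ g in Icc (-1 : Vec k) 1, (if a + g ∈ Icc α (α + 1) then Θ a (a + g) else 0) := by
    intro a ha
    rw [← integral_indicator measurableSet_Icc]
    have h2 : ∫ b, (Icc α (α + 1)).indicator (Θ a) b
        = ∫ g, (Icc α (α + 1)).indicator (Θ a) (a + g) :=
      (integral_add_left_eq_self (fun b => (Icc α (α + 1)).indicator (Θ a) b) a).symm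
    rw [show (fun b => (Icc α (α + 1)).indicator (fun b => Θ a b) b)
      = fun b => (Icc α (α + 1)).indicator (Θ a) b from rfl, h2]
    rw [← setIntegral_eq_integral_of_forall_compl_eq_zero (s := Icc (-1 : Vec k) 1)]
    · refine integral_congr_ae (Filter.Eventually.of_forall fun g => ?_)
      by_cases hg : a + g ∈ Icc α (α + 1)
      · simp only [indicator_of_mem hg, if_pos hg]
      · simp only [indicator_of_notMem hg, if_neg hg]
    · intro g hg
      rw [indicator_of_notMem]
      rintro ⟨h3, h4⟩
      apply hg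
      constructor
      · intro i
        have e1 := h3 i
        have e2 := ha.2 i
        simp only [Pi.add_apply, Pi.one_apply, Pi.neg_apply] at e1 e2 ⊢
        linarith
      · intro i
        have e1 := h4 i
        have e2 := ha.1 i
        simp only [Pi.add_apply, Pi.one_apply] at e1 e2 ⊢
        linarith
  rw [setIntegral_congr_fun measurableSet_Icc h1]
  refine integral_integral_swap ?_
  refine Integrable.of_bound (C := C) ?_ ?_
  · apply Measurable.aestronglyMeasurable
    refine Measurable.ite ?_ ?_ measurable_const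
    · exact (measurable_fst.add measurable_snd) measurableSet_Icc
    · exact hΘ.comp (measurable_fst.prodMk (measurable_fst.add measurable_snd))
  · filter_upwards with z
    simp only [Function.uncurry]
    split_ifs
    · simpa using hC _ _
    · simpa using hC0

variable {Ω : Type*} [MeasurableSpace Ω] {μ : Measure Ω} {φ : Vec k → Ω → Ω}

/-- The correlation of `f ∘ φ (a p)` and `f ∘ φ (a q)` for `a` in the box `[α, α+1]`. -/
noncomputable def corr (φ : Vec k → Ω → Ω) (f : Ω → ℝ) (α p q : Vec k) (x : Ω) : ℝ :=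
  ∫ a in Icc α (α + 1), f (φ (a * p) x) * f (φ (a * q) x)

open Classical in
/-- The window average. -/
noncomputable def wnd (φ : Vec k → Ω → Ω) (f : Ω → ℝ) (α p D g : Vec k) (x : Ω) : ℝ :=
  ∫ a in Icc α (α + 1), (if a + g ∈ Icc α (α + 1) then
    f (φ (-(a * D)) x) * f (φ (g * p - a * D) x) else 0)

theorem IsFlow.meas_comp (h : IsFlow μ φ) {X : Type*} [MeasurableSpace X] {f : Ω → ℝ}
    (hf : Measurable f) {t : X → Vec k} (ht : Measurable t) {y : X → Ω} (hy : Measurable y) :
    Measurable (fun z => f (φ (t z) (y z))) :=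
  hf.comp (h.meas.comp (ht.prodMk hy))

theorem IsFlow.integral_comp (h : IsFlow μ φ) (t : Vec k) {g : Ω → ℝ} (hg : Measurable g) :
    ∫ x, g (φ t x) ∂μ = ∫ x, g x ∂μ := by
  have h1 := integral_map (μ := μ) (h.mp t).measurable.aemeasurable
    (f := g) hg.aestronglyMeasurable
  rw [(h.mp t).map_eq] at h1
  exact h1.symm

theorem wnd_measurable (h : IsFlow μ φ) {f : Ω → ℝ} (hf : Measurable f) (α p D : Vec k) :
    Measurable (fun z : Vec k × Ω => wnd φ f α p D z.1 z.2) := by
  classical
  unfold wnd
  have hp := isProb_box α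
  have hm : Measurable (fun w : (Vec k × Ω) × Vec k =>
      (if w.2 + w.1.1 ∈ Icc α (α + 1) then
        f (φ (-(w.2 * D)) w.1.2) * f (φ (w.1.1 * p - w.2 * D) w.1.2) else 0)) := by
    refine Measurable.ite ?_ ?_ measurable_const
    · exact (measurable_snd.add (measurable_fst.comp measurable_fst)) measurableSet_Icc
    · refine (h.meas_comp hf ?_ ?_).mul (h.meas_comp hf ?_ ?_) <;> fun_prop
  exact (hm.stronglyMeasurable.integral_prod_right).measurable

omit [MeasurableSpace Ω] in
theorem wnd_abs_le {f : Ω → ℝ} (hf1 : ∀ x, |f x| ≤ 1) (α p D g : Vec k) (x : Ω) :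
    |wnd φ f α p D g x| ≤ 1 := by
  unfold wnd
  have := isProb_box α
  apply abs_integral_bd
  intro a
  split_ifs
  · rw [abs_mul]
    exact mul_le_one₀ (hf1 _) (abs_nonneg _) (hf1 _)
  · simp

theorem corr_measurable (h : IsFlow μ φ) {f : Ω → ℝ} (hf : Measurable f) (α p q : Vec k) :
    Measurable (fun x => corr φ f α p q x) := by
  unfold corr
  have hp := isProb_box α
  have hm : Measurable (fun z : Ω × Vec k => f (φ (z.2 * p) z.1) * f (φ (z.2 * q) z.1)) := by
    refine (h.meas_comp hf ?_ ?_).mul (h.meas_comp hf ?_ ?_) <;> fun_prop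
  exact (hm.stronglyMeasurable.integral_prod_right).measurable

omit [MeasurableSpace Ω] in
theorem corr_abs_le {f : Ω → ℝ} (hf1 : ∀ x, |f x| ≤ 1) (α p q : Vec k) (x : Ω) :
    |corr φ f α p q x| ≤ 1 := by
  unfold corr
  have := isProb_box α
  apply abs_integral_bd
  intro a
  rw [abs_mul]
  exact mul_le_one₀ (hf1 _) (abs_nonneg _) (hf1 _)

end Pool.AEV
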