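import Pool.Agent.AEV.MainG
import Pool.Agent.AET.CplxG

/-!
# Complex essentially bounded functions
-/

set_option autoImplicit false

open MeasureTheory Set Filter Topology Finset
open Pool.AET (MaxSq av avC exists_version prt cf prt_le prt_meas condExp_prt bounded_integrable
  avC_prt avC_diffG avC_norm_le)

namespace Pool.AEV

variable {k : ℕ} {Ω : Type*} [MeasurableSpace Ω] {μ : Measure Ω} {d : ℕ}

theorem main_cplxG [MeasurableSpace.CountablyGenerated Ω] [IsProbabilityMeasure μ]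
    {Γ : Type*} [Countable Γ] {γ : Γ → ℤ → Ω → Ω} (hγ : ∀ p n, MeasurePreserving (γ p n) μ μ)
    (hmax : ∀ p, MaxSq μ (γ p))
    {φ : Fin (d + 1) → Vec k → Ω → Ω} (hφ : ∀ j, IsFlow μ (φ j)) (D : ℕ) :
    ∃ E : Set (Fin (d + 1) → Vec k), dimH E < ((d : ENNReal) + 1) * ((k : ENNReal) + 1) ∧
      ∀ t ∉ E, ∀ Q : Fin (d + 1) → Fin (k + 1) → Polynomial ℤ,
        (∀ j i, 1 ≤ (Q j i).natDegree ∧ (Q j i).natDegree ≤ D) →
        ∀ (m : ℕ) (p : Fin m → Γ) (F : Fin m → Ω → ℂ) (f : Fin (d + 1) → Ω → ℂ),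
          (∀ l, MemLp (F l) ⊤ μ) → (∀ j, MemLp (f j) ⊤ μ) →
          ∀ᵐ x ∂μ,
            (∀ j, Tendsto (fun N : ℕ =>
              avC (fun n => f j (φ j (t j * fun i => (((Q j i).eval n : ℤ) : ℝ)) x)) N) atTop
                (𝓝 ((μ[f j | ⨅ s : Vec k, MeasurableSpace.invariants (φ j s)]) x))) ∧
            Tendsto (fun N : ℕ => avC (fun n => (∏ l, F l (γ (p l) n x)) *
                ∏ j, f j (φ j (t j * fun i => (((Q j i).eval n : ℤ) : ℝ)) x)) N
              - avC (fun n => ∏ l, F l (γ (p l) n x)) N *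
                ∏ j, (μ[f j | ⨅ s : Vec k, MeasurableSpace.invariants (φ j s)]) x)
              atTop (𝓝 0) := by
  obtain ⟨E, hE, hmain⟩ := main_gen (fun p n => (hγ p n).measurable) hmax hφ D
  refine ⟨E, ?_, ?_⟩
  · refine lt_of_le_of_lt hE ?_
    have h1 : ∀ r : ℕ, (r : ENNReal) + 1 = ENNReal.ofReal ((r : ℝ) + 1) := fun r => by
      rw [ENNReal.ofReal_add (by positivity) (by norm_num), ENNReal.ofReal_natCast,
        ENNReal.ofReal_one]
    rw [h1, h1, ← ENNReal.ofReal_mul (by positivity)]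
    refine (ENNReal.ofReal_lt_ofReal_iff (by positivity)).2 ?_
    have : (0 : ℝ) < 1 / (2 * ((96 * D : ℕ) : ℝ) + 4) := by positivity
    linarith
  intro t ht Q hQ m p F f hF hf
  obtain ⟨hlim, hprod⟩ := hmain t ht Q hQ
  choose G hGm hGb hG using fun l => exists_version (hF l)
  choose Cl hCl using hGb
  choose g hgm hgb hg using fun j => exists_version (hf j)
  choose Bj hBj using hgb
  set B : ℝ := ∑ l, |Cl l| + ∑ j, |Bj j| with hB
  have hCl' : ∀ l x, ‖G l x‖ ≤ B := by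
    intro l x
    have h1 : |Cl l| ≤ ∑ l, |Cl l| :=
      Finset.single_le_sum (fun l _ => abs_nonneg (Cl l)) (Finset.mem_univ l)
    have h2 := hCl l x
    have h3 := le_abs_self (Cl l)
    have h4 : 0 ≤ ∑ j, |Bj j| := Finset.sum_nonneg fun j _ => abs_nonneg _
    linarith
  have hBj' : ∀ j x, ‖g j x‖ ≤ B := by
    intro j x
    have h1 : |Bj j| ≤ ∑ j, |Bj j| :=
      Finset.single_le_sum (fun j _ => abs_nonneg (Bj j)) (Finset.mem_univ j)
    have h2 := hBj j x
    have h3 := le_abs_self (Bj j)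
    have h4 : 0 ≤ ∑ l, |Cl l| := Finset.sum_nonneg fun j _ => abs_nonneg _
    linarith
  -- almost every orbit avoids the null sets
  have a₀ : ∀ᵐ x ∂μ, ∀ (l : Fin m) (n : ℤ), F l (γ (p l) n x) = G l (γ (p l) n x) := by
    rw [ae_all_iff]
    intro l
    rw [ae_all_iff]
    intro n
    exact (hγ (p l) n).quasiMeasurePreserving.ae (hG l)
  have a₁ : ∀ᵐ x ∂μ, ∀ (j : Fin (d + 1)) (n : ℤ), f j (φ j (t j * fun i => (((Q j i).eval n : ℤ) : ℝ)) x)
      = g j (φ j (t j * fun i => (((Q j i).eval n : ℤ) : ℝ)) x) := by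
    rw [ae_all_iff]
    intro j
    rw [ae_all_iff]
    intro n
    exact ((hφ j).mp _).quasiMeasurePreserving.ae (hg j)
  have a₂ : ∀ᵐ x ∂μ, ∀ j : Fin (d + 1),
      (μ[f j | ⨅ s : Vec k, MeasurableSpace.invariants (φ j s)]) x =
        (μ[g j | ⨅ s : Vec k, MeasurableSpace.invariants (φ j s)]) x := by
    rw [ae_all_iff]
    intro j
    exact condExp_congr_ae (hg j)
  have a₃ : ∀ᵐ x ∂μ, ∀ j : Fin (d + 1),
      (μ[g j | ⨅ s : Vec k, MeasurableSpace.invariants (φ j s)]) x =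
        ∑ b : Bool, cf b * (((μ[fun y => prt b (g j y) |
          ⨅ s : Vec k, MeasurableSpace.invariants (φ j s)]) x : ℝ) : ℂ) := by
    rw [ae_all_iff]
    intro j
    exact condExp_prt _ (bounded_integrable (hgm j) (hBj' j))
  -- the single averages
  have c₁ : ∀ᵐ x ∂μ, ∀ (j : Fin (d + 1)) (b : Bool), Tendsto (fun N : ℕ =>
      av (fun n => prt b (g j (φ j (t j * fun i => (((Q j i).eval n : ℤ) : ℝ)) x))) N) atTop
        (𝓝 ((μ[fun y => prt b (g j y) | ⨅ s : Vec k, MeasurableSpace.invariants (φ j s)]) x)) := by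
    rw [ae_all_iff]
    intro j
    rw [ae_all_iff]
    intro b
    exact hlim j (fun x => prt b (g j x)) ((prt_meas b).comp (hgm j)) B
      fun x => (prt_le b _).trans (hBj' j x)
  -- the products
  have c₂ : ∀ᵐ x ∂μ, ∀ (s₀ : Fin m → Bool) (s : Fin (d + 1) → Bool), Tendsto (fun N : ℕ =>
      av (fun n => (∏ l, prt (s₀ l) (G l (γ (p l) n x))) *
          ∏ j, prt (s j) (g j (φ j (t j * fun i => (((Q j i).eval n : ℤ) : ℝ)) x))) N
        - av (fun n => ∏ l, prt (s₀ l) (G l (γ (p l) n x))) N *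
          ∏ j, av (fun n => prt (s j) (g j (φ j (t j * fun i => (((Q j i).eval n : ℤ) : ℝ)) x))) N)
      atTop (𝓝 0) := by
    rw [ae_all_iff]
    intro s₀
    rw [ae_all_iff]
    intro s
    exact hprod m p (fun l x => prt (s₀ l) (G l x)) (fun j x => prt (s j) (g j x))
      (fun l => (prt_meas (s₀ l)).comp (hGm l)) (fun j => (prt_meas (s j)).comp (hgm j)) B
      (fun l x => (prt_le _ _).trans (hCl' l x)) (fun j x => (prt_le _ _).trans (hBj' j x))
  filter_upwards [a₀, a₁, a₂, a₃, c₁, c₂] with x h₀ h₁ h₂ h₃ g₁ g₂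
  have e₁ : ∀ j, (fun n : ℤ => f j (φ j (t j * fun i => (((Q j i).eval n : ℤ) : ℝ)) x))
      = fun n : ℤ => g j (φ j (t j * fun i => (((Q j i).eval n : ℤ) : ℝ)) x) := fun j => funext (h₁ j)
  have e₀ : (fun n : ℤ => ∏ l, F l (γ (p l) n x)) = fun n : ℤ => ∏ l, G l (γ (p l) n x) := by
    funext n
    exact Finset.prod_congr rfl fun l _ => h₀ l n
  have e₂ : (fun n : ℤ => (∏ l, F l (γ (p l) n x)) *
        ∏ j, f j (φ j (t j * fun i => (((Q j i).eval n : ℤ) : ℝ)) x))
      = fun n : ℤ => (∏ l, G l (γ (p l) n x)) *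
        ∏ j, g j (φ j (t j * fun i => (((Q j i).eval n : ℤ) : ℝ)) x) := by
    funext n
    congr 1
    · exact Finset.prod_congr rfl fun l _ => h₀ l n
    · exact Finset.prod_congr rfl fun j _ => h₁ j n
  have t₁ : ∀ j, Tendsto (fun N : ℕ =>
      avC (fun n => g j (φ j (t j * fun i => (((Q j i).eval n : ℤ) : ℝ)) x)) N) atTop
      (𝓝 ((μ[f j | ⨅ s : Vec k, MeasurableSpace.invariants (φ j s)]) x)) := by
    intro j
    rw [h₂ j, h₃ j]
    simp_rw [avC_prt]
    refine tendsto_finsetSum _ fun b _ => ?_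
    exact ((Complex.continuous_ofReal.tendsto _).comp (g₁ j b)).const_mul _
  refine ⟨fun j => ?_, ?_⟩
  · rw [e₁ j]
    exact t₁ j
  · rw [e₂, e₀]
    have t₂ := avC_diffG (fun l (n : ℤ) => G l (γ (p l) n x))
      (fun j (n : ℤ) => g j (φ j (t j * fun i => (((Q j i).eval n : ℤ) : ℝ)) x)) g₂
    have t₃ := (tendsto_finsetProd Finset.univ fun j (_ : j ∈ Finset.univ) => t₁ j).sub_const
      (∏ j, (μ[f j | ⨅ s : Vec k, MeasurableSpace.invariants (φ j s)]) x)
    rw [sub_self] at t₃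
    have hbd : ∀ N : ℕ, ‖avC (fun n => ∏ l, G l (γ (p l) n x)) N‖ ≤ ∏ _k : Fin m, B := by
      intro N
      refine avC_norm_le _ _ (fun n => ?_) N
      rw [norm_prod]
      exact Finset.prod_le_prod (fun l _ => norm_nonneg _) fun l _ => hCl' l _
    have t₄ : Tendsto (fun N : ℕ => avC (fun n => ∏ l, G l (γ (p l) n x)) N *
        ((∏ j, avC (fun n => g j (φ j (t j * fun i => (((Q j i).eval n : ℤ) : ℝ)) x)) N) -
          ∏ j, (μ[f j | ⨅ s : Vec k, MeasurableSpace.invariants (φ j s)]) x)) atTop (𝓝 0) := by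
      have t₅ := t₃.norm.const_mul (∏ _k : Fin m, B)
      rw [norm_zero, mul_zero] at t₅
      refine squeeze_zero_norm (fun N => ?_) t₅
      rw [norm_mul]
      exact mul_le_mul_of_nonneg_right (hbd N) (norm_nonneg _)
    have t₆ := t₂.add t₄
    rw [zero_add] at t₆
    refine t₆.congr fun N => ?_
    ring

end Pool.AEV
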