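import Pool.Agent.AET.Defs

/-!
# Measurable measure preserving actions of a vector space
-/

set_option autoImplicit false

open MeasureTheory

namespace Pool.AEV

/-- The vectors of times. -/
abbrev Vec (k : ℕ) : Type := Fin (k + 1) → ℝ

variable {k : ℕ}

/-- A jointly measurable action by measure preserving maps. -/
structure IsFlow {Ω : Type*} [MeasurableSpace Ω] (μ : Measure Ω) (φ : Vec k → Ω → Ω) : Prop where
  meas : Measurable (Function.uncurry φ)
  add : ∀ s t x, φ (s + t) x = φ s (φ t x)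
  zero : ∀ x, φ 0 x = x
  mp : ∀ t, MeasurePreserving (φ t) μ μ

variable {Ω : Type*} [MeasurableSpace Ω] {μ : Measure Ω} {φ : Vec k → Ω → Ω}

namespace IsFlow

theorem neg_left (h : IsFlow μ φ) (t : Vec k) (x : Ω) : φ (-t) (φ t x) = x := by
  rw [← h.add, neg_add_cancel, h.zero]

theorem neg_right (h : IsFlow μ φ) (t : Vec k) (x : Ω) : φ t (φ (-t) x) = x := by
  rw [← h.add, add_neg_cancel, h.zero]

/-- The time `t` map as a permutation. -/
def perm (h : IsFlow μ φ) (t : Vec k) : Equiv.Perm Ω where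
  toFun := φ t
  invFun := φ (-t)
  left_inv := h.neg_left t
  right_inv := h.neg_right t

theorem perm_apply (h : IsFlow μ φ) (t : Vec k) (x : Ω) : h.perm t x = φ t x := rfl

theorem perm_symm_apply (h : IsFlow μ φ) (t : Vec k) (x : Ω) : (h.perm t).symm x = φ (-t) x := rfl

end IsFlow

/-- Decay, on average over `g` in the box `[-1,1]^(k+1)`, of the self correlations at the times
`g * l` (coordinatewise product), in terms of the coordinate `i` of `l`. -/
def Dec (μ : Measure Ω) (φ : Vec k → Ω → Ω) (f : Ω → ℝ) (i : Fin (k + 1)) (S : ℝ) : Prop :=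
  ∀ l : Vec k, l i ≠ 0 →
    |∫ g in Set.Icc (-1 : Vec k) 1, ∫ x, f x * f (φ (g * l) x) ∂μ| ≤ S / |l i|

/-- Lipschitz along the action. -/
def LipT (φ : Vec k → Ω → Ω) (f : Ω → ℝ) (L : ℝ) : Prop :=
  ∀ t x, |f (φ t x) - f x| ≤ L * ‖t‖

/-- The good functions of an action. -/
structure Cls (μ : Measure Ω) (φ : Vec k → Ω → Ω) (c : Ω → ℝ) : Prop where
  meas : Measurable c
  bd : ∀ x, |c x| ≤ 1
  lip : ∃ L : ℝ, LipT φ c L
  dec : ∃ (i : Fin (k + 1)) (S : ℝ), Dec μ φ c i S

/-- Functions which are good for the action or constant one. -/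
def Cls1 (μ : Measure Ω) (φ : Vec k → Ω → Ω) (c : Ω → ℝ) : Prop :=
  Cls μ φ c ∨ ∀ x, c x = 1

/-- The product sequence. -/
noncomputable def prodSeq {d : ℕ} (φ : Fin (d + 1) → Vec k → Ω → Ω) (u : ℕ → Ω → ℝ)
    (c : Fin (d + 1) → Ω → ℝ) (q : Fin (d + 1) → ℕ → Vec k) (t : Fin (d + 1) → Vec k) (n : ℕ)
    (x : Ω) : ℝ :=
  u n x * ∏ j, c j (φ j (t j * q j n) x)

end Pool.AEV
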