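import Pool.Agent.AEV.Dens
import Pool.Agent.AET.InvLim

/-!
# The limit of the averages of one function
-/

set_option autoImplicit false

open MeasureTheory Set Filter Topology Finset
open Pool.AET (MaxSq av)

namespace Pool.AEV

variable {k : ℕ} {Ω : Type*} [MeasurableSpace Ω] {μ : Measure Ω} {φ : Vec k → Ω → Ω}

private theorem integrable_bd' {X : Type*} [MeasurableSpace X] {μ : Measure X} [IsFiniteMeasure μ]
    {f : X → ℝ} (hf : Measurable f) (C : ℝ) (h : ∀ x, |f x| ≤ C) : Integrable f μ :=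
  Integrable.of_bound hf.aestronglyMeasurable C (Filter.Eventually.of_forall fun x => by
    simpa using h x)

/-- The averages of `g` along the action. -/
private noncomputable def invlim_A (φ : Vec k → Ω → Ω) (g : Ω → ℝ) (n : ℕ) (x : Ω) : ℝ :=
  ((2 * ((n : ℝ) + 1)) ^ (k + 1))⁻¹ *
    ∫ r in Metric.closedBall (0 : Vec k) ((n : ℝ) + 1), g (φ r x)

private theorem invlim_A_meas (hφ : IsFlow μ φ) {g : Ω → ℝ} (hg : Measurable g) (n : ℕ) :
    Measurable (invlim_A φ g n) := (cube_meas hφ hg 0 _).const_mul _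

omit [MeasurableSpace Ω] in
private theorem invlim_A_bd {g : Ω → ℝ}
    {B : ℝ} (hB : ∀ x, |g x| ≤ B) (n : ℕ) (x : Ω) : |invlim_A φ g n x| ≤ B := by
  unfold invlim_A
  have h0 : (0 : ℝ) < (2 * ((n : ℝ) + 1)) ^ (k + 1) := by positivity
  rw [abs_mul, abs_of_pos (by positivity : (0 : ℝ) < ((2 * ((n : ℝ) + 1)) ^ (k + 1))⁻¹),
    inv_mul_le_iff₀ h0]
  have h1 := cube_abs (f := fun r => g (φ r x)) (fun r => hB _) (0 : Vec k)
    (δ := (n : ℝ) + 1) (by positivity)
  linarith

private theorem invlim_A_shift (hφ : IsFlow μ φ) {g : Ω → ℝ} (hg : Measurable g)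
    {B : ℝ} (hB : ∀ x, |g x| ≤ B) (t : Vec k) (x : Ω) :
    Tendsto (fun n => invlim_A φ g n (φ t x) - invlim_A φ g n x) atTop (𝓝 0) := by
  have hlim : Tendsto (fun n : ℕ => 2 * B * ((k + 1 : ℕ) * ‖t‖) * (1 / ((n : ℝ) + 1))) atTop
      (𝓝 (2 * B * ((k + 1 : ℕ) * ‖t‖) * 0)) :=
    (tendsto_one_div_add_atTop_nhds_zero_nat (𝕜 := ℝ)).const_mul _
  rw [mul_zero] at hlim
  refine squeeze_zero_norm (fun n => ?_) hlim
  have h0 : (0 : ℝ) < (2 * ((n : ℝ) + 1)) ^ (k + 1) := by positivity
  unfold invlim_A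
  rw [cube_comp hφ, zero_add, ← mul_sub, Real.norm_eq_abs, abs_mul,
    abs_of_pos (by positivity : (0 : ℝ) < ((2 * ((n : ℝ) + 1)) ^ (k + 1))⁻¹)]
  have h1 := cube_shift (f := fun r => g (φ r x)) (hφ.meas_comp hg measurable_id measurable_const)
    (fun r => hB _) t (δ := (n : ℝ) + 1) (by positivity)
  calc _ ≤ ((2 * ((n : ℝ) + 1)) ^ (k + 1))⁻¹ *
        (2 * B * (2 * ((n : ℝ) + 1)) ^ (k + 1) * ((k + 1 : ℕ) * ‖t‖ / ((n : ℝ) + 1))) :=
        mul_le_mul_of_nonneg_left h1 (by positivity)
    _ = 2 * B * ((k + 1 : ℕ) * ‖t‖) * (1 / ((n : ℝ) + 1)) := by field_simp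

/-- A bounded function invariant almost everywhere is equal almost everywhere to a strictly invariant one:
the upper limit of the averages over the boxes `[0,n]^(k+1)`. -/
theorem inv_reg [IsProbabilityMeasure μ] (hφ : IsFlow μ φ) {g : Ω → ℝ} (hg : Measurable g)
    {B : ℝ} (hB : ∀ x, |g x| ≤ B) (hinv : ∀ t, (fun x => g (φ t x)) =ᵐ[μ] g) :
    ∃ G : Ω → ℝ, Measurable[⨅ s : Vec k, MeasurableSpace.invariants (φ s)] G ∧
      (∀ x, |G x| ≤ B) ∧ G =ᵐ[μ] g := by
  classical
  obtain ⟨x₀⟩ : Nonempty Ω := by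
    by_contra h
    rw [not_nonempty_iff] at h
    have h1 : μ Set.univ = 1 := measure_univ
    rw [Set.eq_empty_of_isEmpty (Set.univ : Set Ω), measure_empty] at h1
    exact zero_ne_one h1
  have hB0 : 0 ≤ B := (abs_nonneg _).trans (hB x₀)
  set S : Set Ω := {x | ∃ l, Tendsto (fun n => invlim_A φ g n x) atTop (𝓝 l)} with hS
  have hSm : MeasurableSet S := measurableSet_exists_tendsto fun n => invlim_A_meas hφ hg n
  set G : Ω → ℝ := fun x => if h : ∃ l, Tendsto (fun n => invlim_A φ g n x) atTop (𝓝 l)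
    then h.choose else 0 with hG
  have hG1 : ∀ x l, Tendsto (fun n => invlim_A φ g n x) atTop (𝓝 l) → G x = l := by
    intro x l hl
    have h : ∃ l, Tendsto (fun n => invlim_A φ g n x) atTop (𝓝 l) := ⟨l, hl⟩
    rw [hG]
    simp only [dif_pos h]
    exact tendsto_nhds_unique h.choose_spec hl
  have hG0 : ∀ x, x ∉ S → G x = 0 := by
    intro x hx
    rw [hG]
    simp only [dif_neg (show ¬ ∃ l, Tendsto (fun n => invlim_A φ g n x) atTop (𝓝 l) from hx)]
  have hGm : Measurable G := by
    refine measurable_of_tendsto_metrizable (f := fun n x => S.indicator (invlim_A φ g n) x)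
      (fun n => (invlim_A_meas hφ hg n).indicator hSm) ?_
    rw [tendsto_pi_nhds]
    intro x
    by_cases hx : x ∈ S
    · obtain ⟨l, hl⟩ := hx
      have hx : x ∈ S := ⟨l, hl⟩
      simp only [Set.indicator_of_mem hx]
      rw [hG1 x l hl]
      exact hl
    · simp only [Set.indicator_of_notMem hx]
      rw [hG0 x hx]
      exact tendsto_const_nhds
  have hGinv : ∀ t x, G (φ t x) = G x := by
    intro t x
    have h1 := invlim_A_shift hφ hg hB t x
    by_cases hx : x ∈ S
    · obtain ⟨l, hl⟩ := hx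
      rw [hG1 x l hl]
      apply hG1
      have h2 := h1.add hl
      simpa using h2
    · rw [hG0 x hx]
      apply hG0
      rintro ⟨l, hl⟩
      apply hx
      refine ⟨l, ?_⟩
      have h2 := hl.sub h1
      simpa using h2
  refine ⟨G, ?_, ?_, ?_⟩
  · intro s hs
    rw [MeasurableSpace.measurableSet_iInf]
    intro t
    rw [MeasurableSpace.measurableSet_invariants]
    refine ⟨hGm hs, ?_⟩
    ext x
    simp only [Set.mem_preimage]
    rw [hGinv]
  · intro x
    by_cases hx : x ∈ S
    · obtain ⟨l, hl⟩ := hx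
      rw [hG1 x l hl]
      exact le_of_tendsto' hl.abs fun n => invlim_A_bd hB n x
    · rw [hG0 x hx, abs_zero]
      exact hB0
  · have hms : MeasurableSet {z : Ω × Vec k | g (φ z.2 z.1) = g z.1} :=
      measurableSet_eq_fun (hφ.meas_comp hg measurable_snd measurable_fst) (hg.comp measurable_fst)
    have h1 : ∀ᵐ x ∂μ, ∀ᵐ s ∂(volume : Measure (Vec k)), g (φ s x) = g x := by
      rw [Measure.ae_ae_comm hms]
      exact Eventually.of_forall fun s => hinv s
    filter_upwards [h1] with x hx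
    apply hG1
    have h2 : ∀ n : ℕ, invlim_A φ g n x = g x := by
      intro n
      unfold invlim_A
      have h3 : ∫ r in Metric.closedBall (0 : Vec k) ((n : ℝ) + 1), g (φ r x)
          = ∫ r in Metric.closedBall (0 : Vec k) ((n : ℝ) + 1), g x :=
        setIntegral_congr_ae measurableSet_closedBall
          (by filter_upwards [hx] with s hs _ using hs)
      rw [h3, setIntegral_const, cube_vol 0 (by positivity : (0 : ℝ) ≤ (n : ℝ) + 1), smul_eq_mul]
      have h0 : ((2 * ((n : ℝ) + 1)) ^ (k + 1)) ≠ 0 := by positivity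
      field_simp
    simp_rw [h2]
    exact tendsto_const_nhds

private noncomputable def invlim_clip (K y : ℝ) : ℝ := max (-K) (min y K)

private theorem invlim_clip_abs_le {K : ℝ} (hK : 0 ≤ K) (y : ℝ) : |invlim_clip K y| ≤ K := by
  unfold invlim_clip
  rw [abs_le]
  exact ⟨le_max_left _ _, max_le (by linarith) (min_le_right _ _)⟩

private theorem invlim_clip_eq {K y : ℝ} (h : |y| ≤ K) : invlim_clip K y = y := by
  unfold invlim_clip
  rw [abs_le] at h
  rw [min_eq_left h.2, max_eq_right h.1]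

private theorem invlim_sub_clip_abs_le {K : ℝ} (hK : 0 ≤ K) (y : ℝ) :
    |y - invlim_clip K y| ≤ |y| := by
  by_cases h : |y| ≤ K
  · rw [invlim_clip_eq h]
    simp
  · unfold invlim_clip
    rw [not_le] at h
    rcases le_total 0 y with hy | hy
    · rw [abs_of_nonneg hy] at h
      rw [min_eq_right h.le, max_eq_right (by linarith), abs_of_nonneg hy,
        abs_of_nonneg (by linarith)]
      linarith
    · rw [abs_of_nonpos hy] at h
      rw [min_eq_left (by linarith), max_eq_left (by linarith), abs_of_nonpos hy,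
        abs_of_nonpos (by linarith)]
      linarith

omit [MeasurableSpace Ω] in
private theorem invlim_clip_measurable {m : MeasurableSpace Ω} (K : ℝ) {g : Ω → ℝ}
    (hg : Measurable[m] g) :
    Measurable[m] (fun x => invlim_clip K (g x)) :=
  measurable_const.max (hg.min measurable_const)

private theorem invlim_trunc {g : Ω → ℝ} (hg : Measurable g) (hL : MemLp g 2 μ) {ε : ℝ}
    (hε : 0 < ε) :
    ∃ K : ℝ, 0 < K ∧ ∫ x, (g x - invlim_clip K (g x)) ^ 2 ∂μ ≤ ε := by
  have hlim : Tendsto (fun n : ℕ => ∫ x, (g x - invlim_clip ((n : ℝ) + 1) (g x)) ^ 2 ∂μ) atTop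
      (𝓝 (∫ _, (0 : ℝ) ∂μ)) := by
    refine tendsto_integral_of_dominated_convergence (fun x => (g x) ^ 2) ?_ hL.integrable_sq ?_ ?_
    · intro n
      exact ((hg.sub (invlim_clip_measurable _ hg)).pow_const 2).aestronglyMeasurable
    · intro n
      refine Filter.Eventually.of_forall fun x => ?_
      rw [Real.norm_eq_abs, abs_pow, ← sq_abs (g x)]
      exact pow_le_pow_left₀ (abs_nonneg _) (invlim_sub_clip_abs_le (by positivity) _) 2
    · refine Filter.Eventually.of_forall fun x => ?_
      obtain ⟨n₀, hn₀⟩ := exists_nat_ge (|g x|)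
      refine tendsto_const_nhds.congr' ?_
      filter_upwards [eventually_ge_atTop n₀] with n hn
      have : |g x| ≤ (n : ℝ) + 1 := by
        have : (n₀ : ℝ) ≤ n := by exact_mod_cast hn
        linarith
      rw [invlim_clip_eq this]
      simp
  rw [integral_zero] at hlim
  obtain ⟨n, hn⟩ := (hlim.eventually_lt_const hε).exists
  exact ⟨(n : ℝ) + 1, by positivity, hn.le⟩

/-- Functions with averages tending to zero are orthogonal to the invariant functions. -/
private theorem invlim_orth [IsProbabilityMeasure μ] (hφ : IsFlow μ φ) (s : ℤ → Vec k)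
    {c : Ω → ℝ} (hc : Measurable c) (hc1 : ∀ x, |c x| ≤ 1)
    (h0 : ∀ᵐ x ∂μ, Tendsto (fun N : ℕ => av (fun n => c (φ (s n) x)) N) atTop (𝓝 0))
    {G : Ω → ℝ} (hG : Measurable G) {K : ℝ} (hK : ∀ x, |G x| ≤ K)
    (hinv : ∀ t x, G (φ t x) = G x) : ∫ x, c x * G x ∂μ = 0 := by
  have hb : ∀ (t : Vec k) x, |c (φ t x) * G x| ≤ K := by
    intro t x
    rw [abs_mul]
    exact (mul_le_of_le_one_left (abs_nonneg _) (hc1 _)).trans (hK x)
  have hm : ∀ t : Vec k, Measurable (fun x => c (φ t x)) :=
    fun t => hφ.meas_comp hc measurable_const measurable_id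
  have h1 : ∀ t : Vec k, ∫ x, c (φ t x) * G x ∂μ = ∫ x, c x * G x ∂μ := by
    intro t
    have h2 := (hφ.mp t).integral_comp' (f := ⟨hφ.perm t, (hφ.mp t).measurable,
      (hφ.mp (-t)).measurable⟩) (fun x => c x * G x)
    rw [← h2]
    refine integral_congr_ae (Eventually.of_forall fun x => ?_)
    change c (φ t x) * G x = c (φ t x) * G (φ t x)
    rw [hinv]
  have h3 : ∀ N : ℕ, ∫ x, av (fun n => c (φ (s n) x)) N * G x ∂μ = ∫ x, c x * G x ∂μ := by
    intro N
    have h4 : ∀ x, av (fun n => c (φ (s n) x)) N * G x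
        = (2 * (N : ℝ) + 1)⁻¹ * ∑ n ∈ Finset.Icc (-(N : ℤ)) N, c (φ (s n) x) * G x := by
      intro x
      unfold av
      rw [mul_assoc, Finset.sum_mul]
    simp_rw [h4]
    rw [integral_const_mul, integral_finsetSum]
    · simp_rw [h1]
      rw [Finset.sum_const, nsmul_eq_mul, AET.card_Icc_neg]
      have : (2 * (N : ℝ) + 1) ≠ 0 := by positivity
      field_simp
    · intro n _
      exact integrable_bd' ((hm _).mul hG) K (hb _)
  have hlim : Tendsto (fun N : ℕ => ∫ x, av (fun n => c (φ (s n) x)) N * G x ∂μ) atTop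
      (𝓝 (∫ _, (0 : ℝ) ∂μ)) := by
    refine tendsto_integral_of_dominated_convergence (fun _ => K) ?_ (integrable_const _) ?_ ?_
    · intro N
      refine Measurable.aestronglyMeasurable (Measurable.mul ?_ hG)
      unfold av
      exact (Finset.measurable_fun_sum _ fun n _ => hm _).const_mul _
    · intro N
      refine Eventually.of_forall fun x => ?_
      rw [Real.norm_eq_abs, abs_mul]
      refine (mul_le_of_le_one_left (abs_nonneg _) ?_).trans (hK x)
      exact AET.abs_av_le_const (fun n => hc1 _) N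
    · filter_upwards [h0] with x hx
      simpa using hx.mul_const (G x)
  simp_rw [h3] at hlim
  rw [integral_zero] at hlim
  exact tendsto_nhds_unique tendsto_const_nhds hlim

/-- The invariant sets of the flow. -/
@[reducible] private def invlim_I (φ : Vec k → Ω → Ω) : MeasurableSpace Ω :=
  ⨅ s : Vec k, MeasurableSpace.invariants (φ s)

private theorem invlim_le (φ : Vec k → Ω → Ω) : invlim_I φ ≤ ‹MeasurableSpace Ω› :=
  (iInf_le _ (0 : Vec k)).trans (MeasurableSpace.invariants_le _)

private theorem invlim_inv {G : Ω → ℝ} (hG : Measurable[invlim_I φ] G) (t : Vec k) (x : Ω) :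
    G (φ t x) = G x := by
  have h1 : Measurable[MeasurableSpace.invariants (φ t)] G :=
    fun u hu => (iInf_le (fun s : Vec k => MeasurableSpace.invariants (φ s)) t) _ (hG hu)
  exact congrFun (MeasurableSpace.comp_eq_of_measurable_invariants h1) x

/-- The limit of the averages along the times `s n` is the projection on the invariant functions. -/
theorem inv_lim [IsProbabilityMeasure μ] (hφ : IsFlow μ φ) {H : Set (Ω → ℝ)}
    (hH : ∀ c ∈ H, Cls μ φ c)
    (hd : ∀ f : Ω → ℝ, MemLp f 2 μ → ∀ ε : ℝ, 0 < ε →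
        ∃ (n : ℕ) (r : Fin n → ℝ) (c : Fin n → Ω → ℝ) (g : Ω → ℝ),
          (∀ i, c i ∈ H) ∧ Measurable g ∧ MemLp g 2 μ ∧ (∀ t, (fun x => g (φ t x)) =ᵐ[μ] g) ∧
          ∫ x, (f x - ∑ i, r i * c i x - g x) ^ 2 ∂μ ≤ ε)
    (s : ℤ → Vec k) (hmax : MaxSq μ (fun n => φ (s n)))
    (h0 : ∀ c ∈ H, ∀ᵐ x ∂μ, Tendsto (fun N : ℕ => av (fun n => c (φ (s n) x)) N) atTop (𝓝 0))
    {f : Ω → ℝ} (hf : Measurable f) {B : ℝ} (hB : ∀ x, |f x| ≤ B) :
    ∀ᵐ x ∂μ, Tendsto (fun N : ℕ => av (fun n => f (φ (s n) x)) N) atTop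
      (𝓝 ((μ[f | ⨅ s : Vec k, MeasurableSpace.invariants (φ s)]) x)) := by
  classical
  change ∀ᵐ x ∂μ, Tendsto (fun N : ℕ => av (fun n => f (φ (s n) x)) N) atTop
      (𝓝 ((μ[f | invlim_I φ]) x))
  have hIle := invlim_le φ
  obtain ⟨x₀⟩ : Nonempty Ω := by
    by_contra h
    rw [not_nonempty_iff] at h
    have h1 : μ Set.univ = 1 := measure_univ
    rw [Set.eq_empty_of_isEmpty (Set.univ : Set Ω), measure_empty] at h1
    exact zero_ne_one h1
  have hB0 : 0 ≤ B := (abs_nonneg _).trans (hB x₀)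
  have hfi : Integrable f μ := integrable_bd' hf B hB
  set fs : Ω → ℝ := fun x => invlim_clip B ((μ[f | invlim_I φ]) x) with hfs
  have hfsI : Measurable[invlim_I φ] fs :=
    invlim_clip_measurable B (stronglyMeasurable_condExp (m := invlim_I φ) (f := f) (μ := μ)).measurable
  have hfsm : Measurable fs := hfsI.mono hIle le_rfl
  have hfsB : ∀ x, |fs x| ≤ B := fun x => invlim_clip_abs_le hB0 _
  have hfse : fs =ᵐ[μ] μ[f | invlim_I φ] := by
    have h1 := ae_bdd_abs_condExp_of_ae_bdd_abs (R := B) (m := invlim_I φ) (μ := μ) (f := f)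
      (Eventually.of_forall fun x => hB x)
    filter_upwards [h1] with x hx
    exact invlim_clip_eq hx
  -- orthogonality
  have horth1 : ∀ G : Ω → ℝ, Measurable[invlim_I φ] G → ∀ K : ℝ, (∀ x, |G x| ≤ K) →
      ∫ x, (f x - fs x) * G x ∂μ = 0 := by
    intro G hG K hK
    have hGm : Measurable G := hG.mono hIle le_rfl
    have hGs : StronglyMeasurable[invlim_I φ] G := hG.stronglyMeasurable
    have hK0 : 0 ≤ K := (abs_nonneg _).trans (hK x₀)
    have i1 : Integrable (fun x => f x * G x) μ := by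
      refine integrable_bd' (hf.mul hGm) (B * K) fun x => ?_
      rw [abs_mul]
      exact mul_le_mul (hB x) (hK x) (abs_nonneg _) hB0
    have i2 : Integrable (fun x => fs x * G x) μ := by
      refine integrable_bd' (hfsm.mul hGm) (B * K) fun x => ?_
      rw [abs_mul]
      exact mul_le_mul (hfsB x) (hK x) (abs_nonneg _) hB0
    have h1 : μ[(f * G) | invlim_I φ] =ᵐ[μ] μ[f | invlim_I φ] * G :=
      condExp_mul_of_stronglyMeasurable_right hGs i1 hfi
    have h2 : ∫ x, f x * G x ∂μ = ∫ x, fs x * G x ∂μ := by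
      have h3 : ∫ x, (μ[(f * G) | invlim_I φ]) x ∂μ = ∫ x, (f * G) x ∂μ := integral_condExp hIle
      rw [show (fun x => f x * G x) = f * G from rfl]
      rw [← h3]
      refine integral_congr_ae ?_
      filter_upwards [h1, hfse] with x hx hx2
      rw [hx, Pi.mul_apply, hx2]
    have h4 : ∀ x, (f x - fs x) * G x = f x * G x - fs x * G x := fun x => by ring
    simp_rw [h4]
    rw [integral_sub i1 i2, h2, sub_self]
  set v : Ω → ℝ := fun x => f x - fs x with hv
  have hvm : Measurable v := hf.sub hfsm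
  have hvB : ∀ x, |v x| ≤ B + B := fun x => (abs_sub _ _).trans (add_le_add (hB x) (hfsB x))
  have hvL : MemLp v 2 μ := MemLp.of_bound hvm.aestronglyMeasurable (B + B)
    (Eventually.of_forall fun x => by simpa using hvB x)
  have hdens : ∀ ε : ℝ, 0 < ε → ∃ (m : ℕ) (r : Fin m → ℝ) (k : Fin m → Ω → ℝ),
      (∀ l, k l ∈ H) ∧ ∫ x, (v x - ∑ l, r l * k l x) ^ 2 ∂μ ≤ ε := by
    intro ε hε
    obtain ⟨n, r, c, g, hc, hgm, hgL, hginv, hint⟩ := hd v hvL (ε / 4) (by positivity)
    obtain ⟨K, hK, hK2⟩ := invlim_trunc hgm hgL (show 0 < ε / 4 by positivity)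
    obtain ⟨G, hGI, hGK, hGe⟩ := inv_reg hφ (invlim_clip_measurable K hgm)
      (fun x => invlim_clip_abs_le hK.le (g x)) (fun t => by
        filter_upwards [hginv t] with x hx
        rw [hx])
    have hGm : Measurable G := hGI.mono hIle le_rfl
    have hGinv := (fun t x => invlim_inv hGI t x)
    refine ⟨n, r, c, hc, ?_⟩
    set w : Ω → ℝ := fun x => ∑ i, r i * c i x with hw
    have hwm : Measurable w := by
      refine Finset.measurable_fun_sum _ fun l _ => ?_
      exact (hH _ (hc l)).meas.const_mul _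
    have hwb : ∀ x, |w x| ≤ ∑ i, |r i| := by
      intro x
      refine (Finset.abs_sum_le_sum_abs _ _).trans (Finset.sum_le_sum fun l _ => ?_)
      rw [abs_mul]
      have := (hH _ (hc l)).bd x
      have h2 := mul_le_mul_of_nonneg_left this (abs_nonneg (r l))
      linarith
    set u : Ω → ℝ := fun x => v x - w x with hu
    have hum : Measurable u := hvm.sub hwm
    have hub : ∀ x, |u x| ≤ (B + B) + ∑ i, |r i| :=
      fun x => (abs_sub _ _).trans (add_le_add (hvB x) (hwb x))
    have huL : MemLp u 2 μ := MemLp.of_bound hum.aestronglyMeasurable _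
      (Eventually.of_forall fun x => by rw [Real.norm_eq_abs]; exact hub x)
    have hGL : MemLp G 2 μ := MemLp.of_bound hGm.aestronglyMeasurable K
      (Eventually.of_forall fun x => by rw [Real.norm_eq_abs]; exact hGK x)
    -- orthogonality
    have hcG : ∀ i, ∫ x, c i x * G x ∂μ = 0 := fun i =>
      invlim_orth hφ s (hH _ (hc i)).meas (hH _ (hc i)).bd (h0 _ (hc i)) hGm hGK hGinv
    have hvG : ∫ x, v x * G x ∂μ = 0 := horth1 G hGI K hGK
    have hci : ∀ i, Integrable (fun x => c i x * G x) μ := by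
      intro i
      refine integrable_bd' ((hH _ (hc i)).meas.mul hGm) K fun x => ?_
      rw [abs_mul]
      exact (mul_le_of_le_one_left (abs_nonneg _) ((hH _ (hc i)).bd x)).trans (hGK x)
    have hvi : Integrable (fun x => v x * G x) μ := by
      refine integrable_bd' (hvm.mul hGm) ((B + B) * K) fun x => ?_
      rw [abs_mul]
      exact mul_le_mul (hvB x) (hGK x) (abs_nonneg _) (by linarith)
    have hwG : ∫ x, w x * G x ∂μ = 0 := by
      have h1 : ∀ x, w x * G x = ∑ i, r i * (c i x * G x) := by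
        intro x
        rw [hw]
        simp only
        rw [Finset.sum_mul]
        exact Finset.sum_congr rfl fun i _ => by ring
      simp_rw [h1]
      rw [integral_finsetSum]
      · simp_rw [integral_const_mul, hcG]
        simp
      · intro i _
        exact (hci i).const_mul _
    have hwi : Integrable (fun x => w x * G x) μ := by
      refine integrable_bd' (hwm.mul hGm) ((∑ i, |r i|) * K) fun x => ?_
      rw [abs_mul]
      exact mul_le_mul (hwb x) (hGK x) (abs_nonneg _)
        (Finset.sum_nonneg fun i _ => abs_nonneg _)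
    have huG : ∫ x, u x * G x ∂μ = 0 := by
      have h1 : ∀ x, u x * G x = v x * G x - w x * G x := fun x => by rw [hu]; ring
      simp_rw [h1]
      rw [integral_sub hvi hwi, hvG, hwG, sub_self]
    have hui : Integrable (fun x => u x * G x) μ := by
      have h1 : (fun x => u x * G x) = fun x => v x * G x - w x * G x := by
        funext x
        rw [hu]
        ring
      rw [h1]
      exact hvi.sub hwi
    have h5 : ∫ x, (u x - G x) ^ 2 ∂μ = ∫ x, u x ^ 2 ∂μ + ∫ x, G x ^ 2 ∂μ := by
      have h1 : ∀ x, (u x - G x) ^ 2 = (u x ^ 2 + G x ^ 2) - 2 * (u x * G x) := fun x => by ring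
      have j1 : Integrable (fun x => u x ^ 2 + G x ^ 2) μ :=
        huL.integrable_sq.add hGL.integrable_sq
      have j2 : Integrable (fun x => 2 * (u x * G x)) μ := hui.const_mul 2
      calc ∫ x, (u x - G x) ^ 2 ∂μ = ∫ x, ((u x ^ 2 + G x ^ 2) - 2 * (u x * G x)) ∂μ :=
            integral_congr_ae (Eventually.of_forall h1)
        _ = ∫ x, (u x ^ 2 + G x ^ 2) ∂μ - ∫ x, 2 * (u x * G x) ∂μ := integral_sub j1 j2
        _ = ∫ x, u x ^ 2 ∂μ + ∫ x, G x ^ 2 ∂μ := by
            rw [integral_add huL.integrable_sq hGL.integrable_sq, integral_const_mul, huG]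
            ring
    have h6 : 0 ≤ ∫ x, G x ^ 2 ∂μ := integral_nonneg fun x => sq_nonneg _
    have h7 : ∫ x, (u x - G x) ^ 2 ∂μ ≤ ε := by
      have e2 : ∀ᵐ x ∂μ, (u x - G x) ^ 2 ≤ 2 * (v x - w x - g x) ^ 2
          + 2 * (g x - invlim_clip K (g x)) ^ 2 := by
        filter_upwards [hGe] with x hx
        rw [hx]
        have : u x - invlim_clip K (g x) = (v x - w x - g x) + (g x - invlim_clip K (g x)) := by
          rw [hu]; ring
        rw [this]
        nlinarith [sq_nonneg ((v x - w x - g x) - (g x - invlim_clip K (g x)))]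
      have hu1 : MemLp (fun x => v x - w x - g x) 2 μ := huL.sub hgL
      have hv1 : MemLp (fun x => g x - invlim_clip K (g x)) 2 μ := by
        refine hgL.mono (hgm.sub (invlim_clip_measurable _ hgm)).aestronglyMeasurable ?_
        refine Filter.Eventually.of_forall fun x => ?_
        rw [Real.norm_eq_abs, Real.norm_eq_abs]
        exact invlim_sub_clip_abs_le hK.le _
      have i1 : Integrable (fun x => 2 * (v x - w x - g x) ^ 2) μ := hu1.integrable_sq.const_mul 2
      have i2 : Integrable (fun x => 2 * (g x - invlim_clip K (g x)) ^ 2) μ :=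
        hv1.integrable_sq.const_mul 2
      calc ∫ x, (u x - G x) ^ 2 ∂μ
          ≤ ∫ x, (2 * (v x - w x - g x) ^ 2 + 2 * (g x - invlim_clip K (g x)) ^ 2) ∂μ :=
            integral_mono_ae (huL.sub hGL).integrable_sq (i1.add i2) e2
        _ = 2 * (∫ x, (v x - w x - g x) ^ 2 ∂μ)
            + 2 * ∫ x, (g x - invlim_clip K (g x)) ^ 2 ∂μ := by
            rw [integral_add i1 i2, integral_const_mul, integral_const_mul]
        _ ≤ ε := by
            have h8 : ∫ x, (v x - w x - g x) ^ 2 ∂μ ≤ ε / 4 := hint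
            linarith
    have h8 : ∫ x, u x ^ 2 ∂μ ≤ ε := by linarith
    exact h8
  -- the functional
  set Δ : (Unit → Ω → ℝ) → ℕ → Ω → ℝ := fun F N x => av (fun n => F () (φ (s n) x)) N with hΔ
  have hRep : AET.Rep (fun _ : Unit => fun n : ℤ => φ (s n)) Δ := by
    intro F a N x
    refine ⟨fun _ => 1, fun _ => 0, 0, fun w => ?_, fun B' hB' hF => ⟨fun n => ?_, fun n => ?_⟩⟩
    · rw [hΔ]
      simp
    · simpa using hB'
    · simp only [mul_zero, abs_zero]
      positivity
  have hconv := AET.ext_step hRep () hmax (fun k => k ∈ H) (fun k hk => ⟨(hH k hk).meas, (hH k hk).bd⟩)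
    (fun _ => v) hvm (fun _ x => hvB x) hdens (fun k hk => by
      filter_upwards [h0 k hk] with x hx
      rw [hΔ]
      simpa using hx)
  filter_upwards [hconv, hfse] with x hx hx2
  have h1 : ∀ N : ℕ, av (fun n => f (φ (s n) x)) N = av (fun n => v (φ (s n) x)) N + fs x := by
    intro N
    have h2 : (fun n => f (φ (s n) x)) = fun n => v (φ (s n) x) + fs x := by
      funext n
      rw [hv]
      simp only
      rw [invlim_inv hfsI (s n) x]
      ring
    rw [h2, AET.av_add (fun n => v (φ (s n) x)) (fun _ => fs x), AET.av_const]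
  simp_rw [h1]
  rw [← hx2]
  have h3 : Tendsto (fun N => av (fun n => v (φ (s n) x)) N + fs x) atTop (𝓝 (0 + fs x)) :=
    hx.add_const _
  simpa using h3

end Pool.AEV
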