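import Pool.Agent.AEV.Defs
import Pool.Agent.AET.SingleN

/-!
# The maximal inequality for the averages of one function
-/

set_option autoImplicit false

open MeasureTheory Set Filter Topology Finset
open Pool.AET (MaxSq)

namespace Pool.AEV

variable {k : ℕ} {Ω : Type*} [MeasurableSpace Ω] {μ : Measure Ω}

theorem perm_mul {φ : Vec k → Ω → Ω} (h : IsFlow μ φ) (s t : Vec k) :
    h.perm s * h.perm t = h.perm (s + t) := by
  ext x
  rw [Equiv.Perm.mul_apply, h.perm_apply, h.perm_apply, h.perm_apply, h.add]

theorem perm_zero {φ : Vec k → Ω → Ω} (h : IsFlow μ φ) : h.perm 0 = 1 := by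
  ext x
  rw [h.perm_apply, h.zero, Equiv.Perm.one_apply]

/-- The action as a homomorphism to the permutations. -/
def permHom {φ : Vec k → Ω → Ω} (h : IsFlow μ φ) : Multiplicative (Vec k) →* Equiv.Perm Ω where
  toFun s := h.perm s.toAdd
  map_one' := perm_zero h
  map_mul' s t := (perm_mul h s.toAdd t.toAdd).symm

theorem perm_zpow {φ : Vec k → Ω → Ω} (h : IsFlow μ φ) (s : Vec k) (m : ℤ) :
    h.perm s ^ m = h.perm (m • s) := by
  have := map_zpow (permHom h) (Multiplicative.ofAdd s) m
  exact this.symm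

theorem perm_sum {φ : Vec k → Ω → Ω} (h : IsFlow μ φ) (n : ℕ) (v : Fin n → Vec k) :
    (List.ofFn fun i => h.perm (v i)).prod = h.perm (∑ i, v i) := by
  induction n with
  | zero => simp [perm_zero]
  | succ n ih =>
    rw [List.ofFn_succ, List.prod_cons, ih, perm_mul, Fin.sum_univ_succ]

theorem nil_perm {φ : Vec k → Ω → Ω} (h : IsFlow μ φ) {r : ℕ} (v : Fin r → Vec k) :
    Group.IsNilpotent (Subgroup.closure (Set.range (fun i : Fin r => h.perm (v i)))) := by
  have hc : ∀ x ∈ Set.range (fun i : Fin r => h.perm (v i)),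
      ∀ y ∈ Set.range (fun i : Fin r => h.perm (v i)), x * y = y * x := by
    rintro _ ⟨i, rfl⟩ _ ⟨j, rfl⟩
    simp only [perm_mul]
    rw [add_comm]
  have hm := Subgroup.isMulCommutative_closure hc
  let _ : CommGroup (Subgroup.closure (Set.range (fun i : Fin r => h.perm (v i)))) :=
    { (inferInstance : Group (Subgroup.closure (Set.range (fun i : Fin r => h.perm (v i))))) with
      mul_comm := fun a b => hm.is_comm.comm a b }
  exact CommGroup.isNilpotent

/-- The maps `φ (t i e_i)` commute, so they generate a nilpotent group: `maxSq_orb`. -/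
theorem maxSq_flow [IsProbabilityMeasure μ] {φ : Vec k → Ω → Ω} (h : IsFlow μ φ) (t : Vec k)
    (Q : Fin (k + 1) → Polynomial ℤ) :
    MaxSq μ (fun n => φ (t * fun i => (((Q i).eval n : ℤ) : ℝ))) := by
  have h1 := Pool.AET.maxSq_orb (μ := μ) (fun i => h.perm (Pi.single i (t i)))
    (fun i => h.mp (Pi.single i (t i)))
    (fun i => (h.mp (-(Pi.single i (t i) : Vec k))).measurable)
    (nil_perm h fun i => Pi.single i (t i)) Q
  have e : (fun (n : ℤ) x => Pool.Nil.orb (fun i => h.perm (Pi.single i (t i))) Q n x) =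
      fun n => φ (t * fun i => (((Q i).eval n : ℤ) : ℝ)) := by
    funext n x
    unfold Pool.Nil.orb
    simp only [perm_zpow]
    rw [perm_sum h, h.perm_apply]
    congr 1
    ext j
    rw [Finset.sum_apply, Finset.sum_eq_single j]
    · simp [mul_comm]
    · intro i _ hij
      simp [Pi.single_eq_of_ne hij.symm]
    · simp
  rwa [e] at h1

end Pool.AEV
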