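import Pool.Agent.AEV.Corr

/-!
# The second moment over one vector of times
-/

set_option autoImplicit false

open MeasureTheory Set Finset
open Pool.AET (integrable_bd abs_integral_bd)

namespace Pool.AEV

private theorem sq_int_abs_le {X : Type*} [MeasurableSpace X] {μ : Measure X}
    [IsProbabilityMeasure μ] {g : X → ℝ} (hg : Measurable g) (hg1 : ∀ x, |g x| ≤ 1) :
    (∫ x, |g x| ∂μ) ^ 2 ≤ ∫ x, (g x) ^ 2 ∂μ := by
  set m : ℝ := ∫ x, |g x| ∂μ with hm
  have i1 : Integrable (fun x => |g x|) μ :=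
    integrable_bd (by fun_prop) 1 fun x => by rw [abs_abs]; exact hg1 x
  have i2 : Integrable (fun x => (g x) ^ 2) μ :=
    integrable_bd (by fun_prop) 1 fun x => by
      rw [abs_pow]
      exact pow_le_one₀ (abs_nonneg _) (hg1 x)
  have h0 : 0 ≤ ∫ x, ((g x) ^ 2 - 2 * m * |g x| + m ^ 2) ∂μ := by
    apply integral_nonneg
    intro x
    have : (g x) ^ 2 - 2 * m * |g x| + m ^ 2 = (|g x| - m) ^ 2 := by
      rw [← sq_abs (g x)]
      ring
    simp only [Pi.zero_apply]
    rw [this]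
    positivity
  have h1 : ∫ x, ((g x) ^ 2 - 2 * m * |g x| + m ^ 2) ∂μ = (∫ x, (g x) ^ 2 ∂μ) - 2 * m * m + m ^ 2 := by
    have i4 : Integrable (fun x => 2 * m * |g x|) μ := i1.const_mul _
    have i3 : Integrable (fun x => (g x) ^ 2 - 2 * m * |g x|) μ := i2.sub i4
    rw [integral_add i3 (integrable_const _), integral_sub i2 i4, integral_const_mul, ← hm]
    simp
  rw [h1] at h0
  nlinarith [h0]

variable {k : ℕ} {Ω : Type*} [MeasurableSpace Ω] {μ : Measure Ω} {φ : Vec k → Ω → Ω}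

theorem second_moment [IsProbabilityMeasure μ] (h : IsFlow μ φ) {f : Ω → ℝ} (hf : Measurable f)
    (hf1 : ∀ x, |f x| ≤ 1) (α : Vec k) (q : ℕ → Vec k) (N : ℕ) {R : ℝ}
    (hsum : ∑ n ∈ range N, ∑ n' ∈ range N, ∫ x, (corr φ f α (q n) (q n') x) ^ 2 ∂μ ≤ R)
    (u : ℕ → Ω → ℝ) (hu : ∀ n, Measurable (u n)) (hu1 : ∀ n x, |u n x| ≤ 1) :
    ∫ a in Icc α (α + 1), ∫ x, (∑ n ∈ range N, u n x * f (φ (a * q n) x)) ^ 2 ∂μ
      ≤ N * Real.sqrt R := by
  classical
  have hν := isProb_box α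
  set ν : Measure (Vec k) := volume.restrict (Icc α (α + 1)) with hνdef
  set H : ℕ → ℕ → Vec k → Ω → ℝ := fun n n' a x =>
    (u n x * u n' x) * (f (φ (a * q n) x) * f (φ (a * q n') x)) with hH
  have hHm : ∀ n n', Measurable (fun z : Vec k × Ω => H n n' z.1 z.2) := by
    intro n n'
    refine (((hu n).comp measurable_snd).mul ((hu n').comp measurable_snd)).mul
      ((h.meas_comp hf ?_ ?_).mul (h.meas_comp hf ?_ ?_)) <;> fun_prop
  have hH1 : ∀ n n' a x, |H n n' a x| ≤ 1 := by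
    intro n n' a x
    rw [hH]
    simp only [abs_mul]
    exact mul_le_one₀ (mul_le_one₀ (hu1 _ _) (abs_nonneg _) (hu1 _ _)) (by positivity)
      (mul_le_one₀ (hf1 _) (abs_nonneg _) (hf1 _))
  have hHa : ∀ n n' a, Measurable (fun x => H n n' a x) := fun n n' a =>
    (hHm n n').comp (measurable_const.prodMk measurable_id)
  have e1 : ∀ a, ∫ x, (∑ n ∈ range N, u n x * f (φ (a * q n) x)) ^ 2 ∂μ
      = ∑ n ∈ range N, ∑ n' ∈ range N, ∫ x, H n n' a x ∂μ := by
    intro a
    have : ∀ x, (∑ n ∈ range N, u n x * f (φ (a * q n) x)) ^ 2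
        = ∑ n ∈ range N, ∑ n' ∈ range N, H n n' a x := by
      intro x
      rw [sq, Finset.sum_mul_sum]
      refine Finset.sum_congr rfl fun n _ => Finset.sum_congr rfl fun n' _ => ?_
      simp only [hH]
      ring
    simp only [this]
    rw [integral_finsetSum _ fun n _ => ?_]
    · refine Finset.sum_congr rfl fun n _ => ?_
      rw [integral_finsetSum _ fun n' _ => ?_]
      exact integrable_bd (hHa n n' a) 1 (hH1 n n' a)
    · exact integrable_finsetSum _ fun n' _ => integrable_bd (hHa n n' a) 1 (hH1 n n' a)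
  have hIm : ∀ n n', Measurable (fun a : Vec k => ∫ x, H n n' a x ∂μ) := fun n n' =>
    ((hHm n n').stronglyMeasurable.integral_prod_right (ν := μ)).measurable
  have e2 : ∫ a, ∫ x, (∑ n ∈ range N, u n x * f (φ (a * q n) x)) ^ 2 ∂μ ∂ν
      = ∑ n ∈ range N, ∑ n' ∈ range N, ∫ a, ∫ x, H n n' a x ∂μ ∂ν := by
    simp only [e1]
    have hint : ∀ n n', Integrable (fun a => ∫ x, H n n' a x ∂μ) ν := fun n n' =>
      integrable_bd (hIm n n') 1 fun a => abs_integral_bd 1 (hH1 n n' a)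
    rw [integral_finsetSum _ fun n _ => ?_]
    · refine Finset.sum_congr rfl fun n _ => ?_
      rw [integral_finsetSum _ fun n' _ => hint n n']
    · exact integrable_finsetSum _ fun n' _ => hint n n'
  have e3 : ∀ n n', ∫ a, ∫ x, H n n' a x ∂μ ∂ν
      ≤ ∫ x, |corr φ f α (q n) (q n') x| ∂μ := by
    intro n n'
    have hi : Integrable (Function.uncurry (fun a x => H n n' a x)) (ν.prod μ) :=
      integrable_bd (hHm n n') 1 fun z => hH1 n n' z.1 z.2
    rw [integral_integral_swap hi]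
    have : ∀ x, ∫ a, H n n' a x ∂ν = (u n x * u n' x) * corr φ f α (q n) (q n') x := by
      intro x
      simp only [hH, corr]
      rw [integral_const_mul]
    simp only [this]
    have hcm := corr_measurable h hf α (q n) (q n')
    have hc1 := corr_abs_le (φ := φ) hf1 α (q n) (q n')
    refine integral_mono (integrable_bd (((hu n).mul (hu n')).mul hcm) 1 fun x => ?_)
      (integrable_bd (by fun_prop) 1 fun x => by rw [abs_abs]; exact hc1 x) fun x => ?_
    · simp only [abs_mul]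
      exact mul_le_one₀ (mul_le_one₀ (hu1 _ _) (abs_nonneg _) (hu1 _ _)) (abs_nonneg _) (hc1 x)
    · refine (le_abs_self _).trans ?_
      rw [abs_mul, abs_mul]
      have : |u n x| * |u n' x| ≤ 1 := mul_le_one₀ (hu1 _ _) (abs_nonneg _) (hu1 _ _)
      calc |u n x| * |u n' x| * |corr φ f α (q n) (q n') x|
          ≤ 1 * |corr φ f α (q n) (q n') x| := by gcongr
        _ = _ := one_mul _
  rw [e2]
  set K : ℕ → ℕ → ℝ := fun n n' => ∫ x, |corr φ f α (q n) (q n') x| ∂μ with hK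
  have hK0 : ∀ n n', 0 ≤ K n n' := fun n n' => integral_nonneg fun x => abs_nonneg _
  have hK2 : ∀ n n', (K n n') ^ 2 ≤ ∫ x, (corr φ f α (q n) (q n') x) ^ 2 ∂μ := fun n n' =>
    sq_int_abs_le (corr_measurable h hf α (q n) (q n')) (corr_abs_le hf1 α (q n) (q n'))
  have h4 : ∑ n ∈ range N, ∑ n' ∈ range N, ∫ a, ∫ x, H n n' a x ∂μ ∂ν
      ≤ ∑ n ∈ range N, ∑ n' ∈ range N, K n n' :=
    Finset.sum_le_sum fun n _ => Finset.sum_le_sum fun n' _ => e3 n n'
  refine h4.trans ?_
  have h5 : (∑ n ∈ range N, ∑ n' ∈ range N, K n n') ^ 2 ≤ (N : ℝ) ^ 2 * R := by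
    rw [← Finset.sum_product']
    have h6 := sq_sum_le_card_mul_sum_sq (s := range N ×ˢ range N) (f := fun p : ℕ × ℕ => K p.1 p.2)
    refine h6.trans ?_
    have h7 : ((range N ×ˢ range N).card : ℝ) = (N : ℝ) ^ 2 := by
      rw [Finset.card_product, Finset.card_range]
      push_cast
      ring
    rw [h7]
    refine mul_le_mul_of_nonneg_left ?_ (by positivity)
    rw [Finset.sum_product]
    exact (Finset.sum_le_sum fun n _ => Finset.sum_le_sum fun n' _ => hK2 n n').trans hsum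
  have h8 : ∑ n ∈ range N, ∑ n' ∈ range N, K n n' ≤ Real.sqrt ((N : ℝ) ^ 2 * R) :=
    Real.le_sqrt_of_sq_le h5
  refine h8.trans (le_of_eq ?_)
  rw [Real.sqrt_mul (by positivity), Real.sqrt_sq (by positivity)]

end Pool.AEV
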