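import Pool.Agent.AEV.Corr

/-!
# The identity for the square of a correlation
-/

set_option autoImplicit false

open MeasureTheory Set
open Pool.AET (integrable_bd abs_integral_bd)

namespace Pool.AEV

variable {k : ℕ} {Ω : Type*} [MeasurableSpace Ω] {μ : Measure Ω} {φ : Vec k → Ω → Ω}

private theorem abs4 {a b c d : ℝ} (ha : |a| ≤ 1) (hb : |b| ≤ 1) (hc : |c| ≤ 1) (hd : |d| ≤ 1) :
    |a * b * (c * d)| ≤ 1 := by
  rw [abs_mul, abs_mul, abs_mul]
  exact mul_le_one₀ (mul_le_one₀ ha (abs_nonneg _) hb) (by positivity)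
    (mul_le_one₀ hc (abs_nonneg _) hd)

theorem sq_corr [IsProbabilityMeasure μ] (h : IsFlow μ φ) {f : Ω → ℝ} (hf : Measurable f)
    (hf1 : ∀ x, |f x| ≤ 1) (α p q : Vec k) :
    ∫ x, (corr φ f α p q x) ^ 2 ∂μ
      = ∫ g in Icc (-1 : Vec k) 1, ∫ x, f x * f (φ (g * q) x) * wnd φ f α p (q - p) g x ∂μ := by
  classical
  have hν := isProb_box α
  have hfin := isFin_box2 (k := k)
  set ν : Measure (Vec k) := volume.restrict (Icc α (α + 1)) with hνdef
  -- the four fold product
  set F : Ω → Vec k → Vec k → ℝ := fun x a b =>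
    f (φ (a * p) x) * f (φ (a * q) x) * (f (φ (b * p) x) * f (φ (b * q) x)) with hF
  have hFm : Measurable (fun z : Ω × Vec k × Vec k => F z.1 z.2.1 z.2.2) := by
    refine ((h.meas_comp hf ?_ ?_).mul (h.meas_comp hf ?_ ?_)).mul
      ((h.meas_comp hf ?_ ?_).mul (h.meas_comp hf ?_ ?_)) <;> fun_prop
  have hF1 : ∀ x a b, |F x a b| ≤ 1 := fun x a b => abs4 (hf1 _) (hf1 _) (hf1 _) (hf1 _)
  have e1 : ∀ x, (corr φ f α p q x) ^ 2 = ∫ a, ∫ b, F x a b ∂ν ∂ν := by
    intro x
    unfold corr
    rw [sq, ← integral_mul_const]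
    refine integral_congr_ae (Filter.Eventually.of_forall fun a => ?_)
    simp only
    rw [← integral_const_mul]
  have hm1 : Measurable (fun z : Ω × Vec k => ∫ b, F z.1 z.2 b ∂ν) := by
    have : Measurable (fun w : (Ω × Vec k) × Vec k => F w.1.1 w.1.2 w.2) :=
      hFm.comp (by fun_prop : Measurable (fun w : (Ω × Vec k) × Vec k => (w.1.1, w.1.2, w.2)))
    exact (this.stronglyMeasurable.integral_prod_right).measurable
  have e2 : ∫ x, (∫ a, ∫ b, F x a b ∂ν ∂ν) ∂μ = ∫ a, ∫ b, ∫ x, F x a b ∂μ ∂ν ∂ν := by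
    rw [integral_integral_swap]
    · refine integral_congr_ae (Filter.Eventually.of_forall fun a => ?_)
      simp only
      rw [integral_integral_swap]
      refine integrable_bd ?_ 1 fun z => hF1 _ _ _
      exact hFm.comp (by fun_prop : Measurable (fun z : Ω × Vec k => (z.1, a, z.2)))
    · refine integrable_bd hm1 1 fun z => ?_
      exact abs_integral_bd 1 fun b => hF1 _ _ _
  -- the shifted product
  set Ψ : Vec k → Vec k → Ω → ℝ := fun a b x =>
    f (φ (a * p - a * q) x) * f x * (f (φ (b * p - a * q) x) * f (φ (b * q - a * q) x)) with hΨ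
  have hΨm : Measurable (fun z : (Vec k × Vec k) × Ω => Ψ z.1.1 z.1.2 z.2) := by
    refine ((h.meas_comp hf ?_ ?_).mul (hf.comp measurable_snd)).mul
      ((h.meas_comp hf ?_ ?_).mul (h.meas_comp hf ?_ ?_)) <;> fun_prop
  have hΨ1 : ∀ a b x, |Ψ a b x| ≤ 1 := fun x a b => abs4 (hf1 _) (hf1 _) (hf1 _) (hf1 _)
  have e3 : ∀ a b, ∫ x, F x a b ∂μ = ∫ x, Ψ a b x ∂μ := by
    intro a b
    rw [← h.integral_comp (-(a * q)) (g := fun x => F x a b)
      (hFm.comp (by fun_prop : Measurable (fun x : Ω => (x, a, b))))]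
    refine integral_congr_ae (Filter.Eventually.of_forall fun x => ?_)
    simp only [hF, hΨ, ← h.add]
    have z : a * q + -(a * q) = 0 := by ring
    rw [z, h.zero]
    rfl
  set Θ : Vec k → Vec k → ℝ := fun a b => ∫ x, Ψ a b x ∂μ with hΘ
  have hΘm : Measurable (Function.uncurry Θ) :=
    (hΨm.stronglyMeasurable.integral_prod_right).measurable
  have hΘ1 : ∀ a b, |Θ a b| ≤ 1 := fun a b => abs_integral_bd 1 (hΨ1 a b)
  calc ∫ x, (corr φ f α p q x) ^ 2 ∂μ = ∫ x, (∫ a, ∫ b, F x a b ∂ν ∂ν) ∂μ :=
        integral_congr_ae (Filter.Eventually.of_forall fun x => e1 x)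
    _ = ∫ a, ∫ b, ∫ x, F x a b ∂μ ∂ν ∂ν := e2
    _ = ∫ a in Icc α (α + 1), ∫ b in Icc α (α + 1), Θ a b := by
        simp only [e3]
        rfl
    _ = ∫ g in Icc (-1 : Vec k) 1, ∫ a in Icc α (α + 1),
          (if a + g ∈ Icc α (α + 1) then Θ a (a + g) else 0) := diag_change Θ hΘm 1 hΘ1 α
    _ = ∫ g in Icc (-1 : Vec k) 1, ∫ x, f x * f (φ (g * q) x) * wnd φ f α p (q - p) g x ∂μ := by
        refine integral_congr_ae (Filter.Eventually.of_forall fun g => ?_)
        simp only
        have hm2 : Measurable (fun z : Vec k × Ω =>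
            (if z.1 + g ∈ Icc α (α + 1) then Ψ z.1 (z.1 + g) z.2 else 0)) := by
          refine Measurable.ite ?_ ?_ measurable_const
          · exact (measurable_fst.add measurable_const) measurableSet_Icc
          · exact hΨm.comp (by fun_prop : Measurable (fun z : Vec k × Ω => ((z.1, z.1 + g), z.2)))
        have s1 : ∀ a, (if a + g ∈ Icc α (α + 1) then Θ a (a + g) else 0)
            = ∫ x, (if a + g ∈ Icc α (α + 1) then Ψ a (a + g) x else 0) ∂μ := by
          intro a
          split_ifs
          · rfl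
          · simp
        rw [integral_congr_ae (Filter.Eventually.of_forall s1), integral_integral_swap]
        · refine integral_congr_ae (Filter.Eventually.of_forall fun x => ?_)
          simp only [wnd]
          rw [← integral_const_mul]
          refine integral_congr_ae (Filter.Eventually.of_forall fun a => ?_)
          simp only
          split_ifs
          · simp only [hΨ]
            have r1 : a * p - a * q = -(a * (q - p)) := by ring
            have r2 : (a + g) * p - a * q = g * p - a * (q - p) := by ring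
            have r3 : (a + g) * q - a * q = g * q := by ring
            rw [r1, r2, r3]
            ring
          · ring
        · refine integrable_bd hm2 1 fun z => ?_
          simp only [Function.uncurry]
          split_ifs
          · exact hΨ1 _ _ _
          · simp

end Pool.AEV
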